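import Pool.Agent.K4H15.BW.Rec

/-!
The quadratic reciprocity law for primary elements.
-/

set_option autoImplicit false

namespace Pool.Agent.K4H15.BW

open NumberField IsDedekindDomain ComplexConjugate
open Pool.Agent.K4H55.BI (IQ BF NVT Adm sym chiT gen gen_span gen_dvd gen_prime gen_na gen_inj efac NT
  nv_pos)
open Pool.Agent.K4H55.BD (cj tau tv sg_inj sg_cj sg_tau tau_tau tau_int mul_tau norm_nonneg' norm_eq
  mem_tv sym_tv res_int int_mem sym_int chiT_mul sym_mul nv_cases norm_gen two_notMem uniq_over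
  char_ne_two)

variable {K : Type} [Field K] [NumberField K] {σ : K →+* ℂ} {δ : K}

/-- `lam` generates the product of the places of `T`, which are of degree one over distinct odd primes,
and is congruent to `1` modulo `8` -/
structure One (T : Finset (HeightOneSpectrum (𝓞 K))) (lam : 𝓞 K) : Prop where
  pr : ∀ v ∈ T, (Ideal.absNorm v.asIdeal).Prime
  odd : ∀ v ∈ T, Ideal.absNorm v.asIdeal ≠ 2
  inj : ∀ v ∈ T, ∀ w ∈ T, Ideal.absNorm v.asIdeal = Ideal.absNorm w.asIdeal → v = w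
  span : Ideal.span {lam} = ∏ v ∈ T, v.asIdeal
  one : (8 : 𝓞 K) ∣ lam - 1

lemma One.mem {T : Finset (HeightOneSpectrum (𝓞 K))} {lam : 𝓞 K} (ho : One T lam)
    {v : HeightOneSpectrum (𝓞 K)} : lam ∈ v.asIdeal ↔ v ∈ T := by
  rw [← Ideal.span_singleton_le_iff_mem, ho.span]
  constructor
  · intro h
    obtain ⟨w, hw, h1⟩ := (v.isPrime.prod_le).1 h
    have : w.asIdeal = v.asIdeal := w.isMaximal.eq_of_le v.isPrime.ne_top h1
    rwa [← HeightOneSpectrum.ext this]
  · intro h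
    exact (v.isPrime.prod_le).2 ⟨v, h, le_refl _⟩

lemma NT_ne (T : Finset (HeightOneSpectrum (𝓞 K))) : NT T ≠ 0 :=
  Finset.prod_ne_zero_iff.2 fun v _ => (nv_pos v).ne'

lemma chiT_int {T : Finset (HeightOneSpectrum (𝓞 K))}
    (hT : ∀ v ∈ T, (Ideal.absNorm v.asIdeal).Prime) (m : ℤ) :
    chiT T (m : 𝓞 K) = ((jacobiSym m (NT T) : ℤ) : ℂ) := by
  classical
  induction T using Finset.induction_on with
  | empty => simp [chiT, NT]
  | insert v T hv ih =>
    have h1 := ih fun w hw => hT w (Finset.mem_insert_of_mem hw)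
    have h2 := sym_int (hT v (Finset.mem_insert_self v T)) rfl m
    have h3 : chiT (insert v T) (m : 𝓞 K) = sym v m * chiT T m := by
      unfold chiT
      rw [Finset.prod_insert hv]
    have h4 : NT (insert v T) = Ideal.absNorm v.asIdeal * NT T := by
      unfold NT
      rw [Finset.prod_insert hv]
    have : NeZero (Ideal.absNorm v.asIdeal) := ⟨(nv_pos v).ne'⟩
    have : NeZero (NT T) := ⟨NT_ne T⟩
    rw [h3, h4, h1, h2, jacobiSym.mul_right]
    push_cast
    rfl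

lemma One.norm (h : IQ K σ δ) {T : Finset (HeightOneSpectrum (𝓞 K))} {lam : 𝓞 K}
    (ho : One T lam) : Algebra.norm ℤ lam = (NT T : ℤ) := by
  rw [norm_eq h, ho.span, map_prod]
  rfl

lemma One.two {T : Finset (HeightOneSpectrum (𝓞 K))} {lam : 𝓞 K} (ho : One T lam) :
    ∀ v ∈ T, (2 : 𝓞 K) ∉ v.asIdeal := by
  intro v hv
  refine two_notMem (ho.pr v hv) (ho.odd v hv) ?_
  exact Ideal.absNorm_mem _

lemma One.sqf {T : Finset (HeightOneSpectrum (𝓞 K))} {lam : 𝓞 K} (ho : One T lam) :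
    Squarefree ((NT T : ℕ) : ℤ) := by
  unfold NT
  push_cast
  refine Finset.squarefree_prod_of_pairwise_isCoprime ?_ ?_
  · intro v hv w hw hne
    have h1 : Ideal.absNorm v.asIdeal ≠ Ideal.absNorm w.asIdeal := fun he =>
      hne (ho.inj v hv w hw he)
    have h2 : IsCoprime ((Ideal.absNorm v.asIdeal : ℕ) : ℤ) ((Ideal.absNorm w.asIdeal : ℕ) : ℤ) := by
      rw [Nat.isCoprime_iff_coprime]
      exact (Nat.coprime_primes (ho.pr v hv) (ho.pr w hw)).2 h1
    exact h2.isRelPrime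
  · intro v hv
    exact (Nat.prime_iff_prime_int.1 (ho.pr v hv)).squarefree

/-- the data of `lam` in coordinates -/
structure Crd (h : IQ K σ δ) (T : Finset (HeightOneSpectrum (𝓞 K))) (lam om : 𝓞 K) (t N c d : ℤ) :
    Prop where
  hom : Om h om t N
  one : One T lam
  eq : lam = (c : 𝓞 K) + d * om
  nm : ((NT T : ℕ) : ℤ) = c ^ 2 + t * c * d + N * d ^ 2
  cop : IsCoprime c d
  c8 : (8 : ℤ) ∣ c - 1
  d8 : (8 : ℤ) ∣ d

lemma One.crd (h : IQ K σ δ) {T : Finset (HeightOneSpectrum (𝓞 K))} {lam : 𝓞 K} (ho : One T lam) :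
    ∃ (om : 𝓞 K) (t N c d : ℤ), Crd h T lam om t N c d := by
  obtain ⟨om, t, N, hom⟩ := exists_om h
  obtain ⟨c, d, hcd⟩ := hom.span lam
  have hnm : ((NT T : ℕ) : ℤ) = c ^ 2 + t * c * d + N * d ^ 2 := by
    rw [← ho.norm h, hcd, hom.norm]
  have h8 := hom.dvd (m := 8) (a := c - 1) (b := d) (by
    have := ho.one
    rw [hcd] at this
    push_cast
    have e : ((c : 𝓞 K) - 1) + d * om = (c + d * om) - 1 := by ring
    rw [e]
    exact this)
  refine ⟨om, t, N, c, d, hom, ho, hcd, hnm, ?_, h8.1, h8.2⟩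
  rw [Int.isCoprime_iff_gcd_eq_one]
  by_contra hne
  obtain ⟨l, hl, hld⟩ := Nat.exists_prime_and_dvd hne
  have hc : (l : ℤ) ∣ c := (Int.natCast_dvd_natCast.2 hld).trans (Int.gcd_dvd_left ..)
  have hd : (l : ℤ) ∣ d := (Int.natCast_dvd_natCast.2 hld).trans (Int.gcd_dvd_right ..)
  have h1 := ho.sqf (l : ℤ) (by
    rw [hnm]
    obtain ⟨c', rfl⟩ := hc
    obtain ⟨d', rfl⟩ := hd
    exact ⟨c' ^ 2 + t * c' * d' + N * d' ^ 2, by ring⟩)
  have h2 := Int.isUnit_iff.1 h1
  have := hl.two_le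
  omega

lemma cop_of_sq {q : ℕ} (hq : q ≠ 0) {n : ℤ} (h : jacobiSym n q ≠ 0) : IsCoprime n (q : ℤ) := by
  have : NeZero q := ⟨hq⟩
  rw [Int.isCoprime_iff_gcd_eq_one]
  by_contra hne
  exact h ((jacobiSym.eq_zero_iff_not_coprime).2 hne)

lemma Crd.dcop {h : IQ K σ δ} {T : Finset (HeightOneSpectrum (𝓞 K))} {lam om : 𝓞 K}
    {t N c d : ℤ} (hc : Crd h T lam om t N c d) : IsCoprime d ((NT T : ℕ) : ℤ) := by
  rw [hc.nm]
  have h1 : IsCoprime d (c ^ 2 + d * (t * c + N * d)) :=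
    (hc.cop.symm.pow_right).add_mul_left_right _
  have e : c ^ 2 + t * c * d + N * d ^ 2 = c ^ 2 + d * (t * c + N * d) := by ring
  rw [e]
  exact h1

lemma Crd.chi {h : IQ K σ δ} {T : Finset (HeightOneSpectrum (𝓞 K))} {lam om : 𝓞 K}
    {t N c d : ℤ} (hc : Crd h T lam om t N c d) (a b : ℤ) :
    chiT T ((a : 𝓞 K) + b * om) =
      ((jacobiSym d (NT T) * jacobiSym (a * d - b * c) (NT T) : ℤ) : ℂ) := by
  have h1 := chiT_mul h hc.one.two (d : 𝓞 K) ((a : 𝓞 K) + b * om)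
  have h2 : chiT T ((d : 𝓞 K) * ((a : 𝓞 K) + b * om)) = chiT T ((a * d - b * c : ℤ) : 𝓞 K) := by
    unfold chiT
    refine Finset.prod_congr rfl fun v hv => sym_congr ?_
    have e : (d : 𝓞 K) * ((a : 𝓞 K) + b * om) - ((a * d - b * c : ℤ) : 𝓞 K) = b * lam := by
      rw [hc.eq]
      push_cast
      ring
    rw [e]
    exact v.asIdeal.mul_mem_left _ (hc.one.mem.2 hv)
  rw [h2, chiT_int hc.one.pr, chiT_int hc.one.pr] at h1
  have h3 : ((jacobiSym d (NT T) : ℤ) : ℂ) * ((jacobiSym d (NT T) : ℤ) : ℂ) = 1 := by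
    rcases jac_ne hc.dcop with h4 | h4 <;> rw [h4] <;> norm_num
  push_cast
  rw [h1, ← mul_assoc, h3, one_mul]

lemma Crd.ycop {h : IQ K σ δ} {T : Finset (HeightOneSpectrum (𝓞 K))} {lam om : 𝓞 K}
    {t N c d : ℤ} (hc : Crd h T lam om t N c d) {a b : ℤ}
    (hx : ∀ v ∈ T, (a : 𝓞 K) + b * om ∉ v.asIdeal) :
    IsCoprime (b * c - a * d) ((NT T : ℕ) : ℤ) := by
  have h1 := chiT_sq hx
  rw [hc.chi] at h1
  have h2 : IsCoprime (a * d - b * c) ((NT T : ℕ) : ℤ) := by
    refine cop_of_sq (NT_ne T) fun h0 => ?_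
    rw [h0, mul_zero] at h1
    simp at h1
  have h3 := h2.neg_left
  rwa [neg_sub] at h3

lemma unit_norm (h : IQ K σ δ) {u : 𝓞 K} (hu : IsUnit u) : Algebra.norm ℤ u = 1 := by
  rw [norm_eq h, Ideal.span_singleton_eq_top.2 hu, Ideal.absNorm_top]
  rfl

lemma unit_of_norm (h : IQ K σ δ) {u : 𝓞 K} (hu : Algebra.norm ℤ u = 1) : IsUnit u := by
  rw [norm_eq h] at hu
  have h1 : Ideal.absNorm (Ideal.span {u}) = 1 := by exact_mod_cast hu
  exact Ideal.span_singleton_eq_top.1 (Ideal.absNorm_eq_one_iff.1 h1)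

/-- **units** -/
theorem One.unit (h : IQ K σ δ) {T : Finset (HeightOneSpectrum (𝓞 K))} {lam : 𝓞 K} (ho : One T lam)
    {u : 𝓞 K} (hu : IsUnit u) : chiT T u = 1 := by
  obtain ⟨om, t, N, c, d, hc⟩ := ho.crd h
  obtain ⟨a, b, rfl⟩ := hc.hom.span u
  have hx : ∀ v ∈ T, (a : 𝓞 K) + b * om ∉ v.asIdeal := fun v _ hv =>
    v.isPrime.ne_top (Ideal.eq_top_of_isUnit_mem _ hv hu)
  have hyq := hc.ycop hx
  have hP : ((1 : ℕ) : ℤ) = a ^ 2 + t * a * b + N * b ^ 2 := by
    rw [← hc.hom.norm, unit_norm h hu]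
    rfl
  rw [hc.chi]
  by_cases hy0 : b * c - a * d = 0
  · rw [hy0] at hyq
    have h1 : NT T = 1 := by
      have := Int.isUnit_iff.1 (isCoprime_zero_left.1 hyq)
      omega
    rw [h1]
    simp
  · rw [jac_small hc.nm hP hc.cop hc.c8 hc.d8 hyq hy0 (Or.inl rfl)]
    simp

lemma Crd.q8 {h : IQ K σ δ} {T : Finset (HeightOneSpectrum (𝓞 K))} {lam om : 𝓞 K}
    {t N c d : ℤ} (hc : Crd h T lam om t N c d) : NT T % 8 = 1 := by
  obtain ⟨c', hc'⟩ := hc.c8
  obtain ⟨d', hd'⟩ := hc.d8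
  have : ((NT T : ℕ) : ℤ) = 1 + 8 * (8 * c' ^ 2 + 2 * c' + t * c * d' + 8 * N * d' ^ 2) := by
    rw [hc.nm, hd', show c = 8 * c' + 1 by omega]
    ring
  omega

/-- a place of degree two -/
lemma deg_two (h : IQ K σ δ) {v : HeightOneSpectrum (𝓞 K)} {p : ℕ} (hp : p.Prime)
    (hpv : (p : 𝓞 K) ∈ v.asIdeal) (hN : Ideal.absNorm v.asIdeal = p ^ 2) :
    v.asIdeal = Ideal.span {(p : 𝓞 K)} := by
  have := h.pid
  obtain ⟨y, hy⟩ := gen_dvd.2 hpv
  have h1 : Algebra.norm ℤ (p : 𝓞 K) = (p : ℤ) ^ 2 := by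
    have h4 := mul_tau h (p : 𝓞 K)
    rw [map_natCast] at h4
    have h5 : (((p : ℤ) ^ 2 : ℤ) : 𝓞 K) = ((Algebra.norm ℤ ((p : ℕ) : 𝓞 K) : ℤ) : 𝓞 K) := by
      rw [← h4]
      push_cast
      ring
    exact (Int.cast_injective h5).symm
  have h2 : Algebra.norm ℤ (gen v) = (p : ℤ) ^ 2 := by
    rw [norm_eq h, gen_span, hN]
    push_cast
    rfl
  have h3 := congrArg (Algebra.norm ℤ) hy
  rw [map_mul, h1, h2] at h3
  have hp0 : (p : ℤ) ^ 2 ≠ 0 := pow_ne_zero 2 (by exact_mod_cast hp.ne_zero)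
  have h4 : Algebra.norm ℤ y = 1 := by
    have : (p : ℤ) ^ 2 * 1 = (p : ℤ) ^ 2 * Algebra.norm ℤ y := by rw [mul_one]; exact h3
    exact (mul_left_cancel₀ hp0 this).symm
  have h5 := unit_of_norm h h4
  rw [← gen_span v, hy, Ideal.span_singleton_mul_right_unit h5]

lemma gen_two (h : IQ K σ δ) {v : HeightOneSpectrum (𝓞 K)} {p : ℕ} (hp : p.Prime)
    (hpv : (p : 𝓞 K) ∈ v.asIdeal) (hN : Ideal.absNorm v.asIdeal = p ^ 2) :
    ∃ u : 𝓞 K, IsUnit u ∧ gen (hP := h.pid) v = u * (p : 𝓞 K) := by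
  have := h.pid
  have h1 := deg_two h hp hpv hN
  rw [← gen_span v, Ideal.span_singleton_eq_span_singleton] at h1
  obtain ⟨u, hu⟩ := h1.symm
  exact ⟨u, u.isUnit, by rw [← hu, mul_comm]⟩

/-- **places over 2** -/
theorem One.at_two (h : IQ K σ δ) {T : Finset (HeightOneSpectrum (𝓞 K))} {lam : 𝓞 K}
    (ho : One T lam) {v : HeightOneSpectrum (𝓞 K)} (hv : (2 : 𝓞 K) ∈ v.asIdeal) :
    chiT T (gen (hP := h.pid) v) = 1 := by
  have := h.pid
  obtain ⟨om, t, N, c, d, hc⟩ := ho.crd h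
  obtain ⟨p, hp, hpv, hN⟩ := nv_cases h v
  have hp2 : p = 2 := uniq_over hp Nat.prime_two hpv (by exact_mod_cast hv)
  subst hp2
  have hq8 := hc.q8
  rcases hN with hN | hN
  · obtain ⟨a, b, hab⟩ := hc.hom.span (gen v)
    have hx : ∀ w ∈ T, (a : 𝓞 K) + b * om ∉ w.asIdeal := by
      intro w hw hg
      rw [← hab] at hg
      have h1 : v = w := gen_na (v := w) (v' := v) (gen_dvd.2 hg) |>.symm
      subst h1
      exact ho.two v hw hv
    have hyq := hc.ycop hx
    have hP : ((2 : ℕ) : ℤ) = a ^ 2 + t * a * b + N * b ^ 2 := by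
      rw [← hc.hom.norm, ← hab, norm_eq h, gen_span, hN]
    have hb : b = 1 ∨ b = -1 := by
      have h4 : (2 * a + t * b) ^ 2 + (4 * N - t ^ 2) * b ^ 2 = 8 := by
        push_cast at hP
        linear_combination (-4) * hP
      have hpos := hc.hom.pos
      have hb2 : b ^ 2 < 4 := by
        by_contra hcon
        push Not at hcon
        nlinarith [sq_nonneg (2 * a + t * b)]
      have hb3 : b < 2 := by nlinarith
      have hb4 : -2 < b := by nlinarith
      have hb0 : b ≠ 0 := by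
        rintro rfl
        have h5 : a ^ 2 = 2 := by
          push_cast at hP
          linear_combination -hP
        have h6 : a < 2 := by nlinarith
        have h7 : -2 < a := by nlinarith
        interval_cases a <;> omega
      omega
    rw [hab, hc.chi]
    have hy0 : b * c - a * d ≠ 0 := by
      obtain ⟨c', hc'⟩ := hc.c8
      obtain ⟨d', hd'⟩ := hc.d8
      intro h0
      have hc1 : c = 8 * c' + 1 := by omega
      rw [hd', hc1] at h0
      rcases hb with rfl | rfl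
      · have : (1 : ℤ) = 8 * (a * d' - c') := by linear_combination h0
        omega
      · have : (1 : ℤ) = -8 * (a * d' + c') := by linear_combination -h0
        omega
    rw [jac_small hc.nm hP hc.cop hc.c8 hc.d8 hyq hy0 (Or.inr ⟨rfl, hb⟩)]
    simp
  · obtain ⟨u, hu, hg⟩ := gen_two h hp hpv hN
    rw [hg, chiT_mul h ho.two, ho.unit h hu, one_mul]
    have h1 := chiT_int ho.pr 2
    push_cast at h1 ⊢
    rw [h1, jacobiSym.at_two (Nat.odd_iff.2 (by omega)), ZMod.χ₈_nat_eq_if_mod_eight,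
      if_neg (by omega), if_pos (Or.inl hq8)]
    simp

/-- **Reciprocity** -/
theorem One.recip (h : IQ K σ δ) {T : Finset (HeightOneSpectrum (𝓞 K))} {lam : 𝓞 K}
    (ho : One T lam) {v : HeightOneSpectrum (𝓞 K)} (hv2 : (2 : 𝓞 K) ∉ v.asIdeal) (hvT : v ∉ T) :
    sym v lam = chiT T (gen (hP := h.pid) v) := by
  have := h.pid
  obtain ⟨om, t, N, c, d, hc⟩ := ho.crd h
  obtain ⟨p, hp, hpv, hN⟩ := nv_cases h v
  have hpf : Fact p.Prime := ⟨hp⟩
  have hp2 : p ≠ 2 := by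
    rintro rfl
    exact hv2 (by exact_mod_cast hpv)
  have hpo : Odd p := hp.odd_of_ne_two hp2
  have hq8 := hc.q8
  have hlv : lam ∉ v.asIdeal := fun h1 => hvT (ho.mem.1 h1)
  rcases hN with hN | hN
  · obtain ⟨a, b, hab⟩ := hc.hom.span (gen v)
    have hx : ∀ w ∈ T, (a : 𝓞 K) + b * om ∉ w.asIdeal := by
      intro w hw hg
      rw [← hab] at hg
      have h1 : v = w := gen_na (v := w) (v' := v) (gen_dvd.2 hg) |>.symm
      exact hvT (h1 ▸ hw)
    have hyq := hc.ycop hx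
    have hP : (p : ℤ) = a ^ 2 + t * a * b + N * b ^ 2 := by
      rw [← hc.hom.norm, ← hab, norm_eq h, gen_span, hN]
    have hcop : IsCoprime a b := by
      rw [Int.isCoprime_iff_gcd_eq_one]
      by_contra hne
      obtain ⟨l, hl, hld⟩ := Nat.exists_prime_and_dvd hne
      have ha : (l : ℤ) ∣ a := (Int.natCast_dvd_natCast.2 hld).trans (Int.gcd_dvd_left ..)
      have hb : (l : ℤ) ∣ b := (Int.natCast_dvd_natCast.2 hld).trans (Int.gcd_dvd_right ..)
      have h1 := (Nat.prime_iff_prime_int.1 hp).squarefree (l : ℤ) (by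
        rw [hP]
        obtain ⟨a', rfl⟩ := ha
        obtain ⟨b', rfl⟩ := hb
        exact ⟨a' ^ 2 + t * a' * b' + N * b' ^ 2, by ring⟩)
      have h2 := Int.isUnit_iff.1 h1
      have := hl.two_le
      omega
    have hpb : ¬ (p : ℤ) ∣ b := by
      intro hd
      have h1 : (p : ℤ) ∣ a ^ 2 := by
        have h2 : a ^ 2 = p - b * (t * a + N * b) := by rw [hP]; ring
        rw [h2]
        exact dvd_sub dvd_rfl (hd.mul_right _)
      have h2 : (p : ℤ) ∣ a := (Nat.prime_iff_prime_int.1 hp).dvd_of_dvd_pow h1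
      have h3 := hcop.isUnit_of_dvd' h2 hd
      have h4 := Int.isUnit_iff.1 h3
      have := hp.two_le
      omega
    have hbv : (b : 𝓞 K) ∉ v.asIdeal := fun h1 => hpb ((int_mem hp hpv).1 h1)
    have hb0 : b ≠ 0 := by
      rintro rfl
      exact hpb (dvd_zero _)
    -- the symbol of `lam`
    have h1 := sym_mul h hv2 (b : 𝓞 K) lam
    have h2 : sym v ((b : 𝓞 K) * lam) = sym v ((b * c - a * d : ℤ) : 𝓞 K) := by
      refine sym_congr ?_
      have e : (b : 𝓞 K) * lam - ((b * c - a * d : ℤ) : 𝓞 K) = d * ((a : 𝓞 K) + b * om) := by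
        rw [hc.eq]
        push_cast
        ring
      rw [e, ← hab]
      exact v.asIdeal.mul_mem_left _ (gen_dvd.1 dvd_rfl)
    rw [h2, sym_int hp hN, sym_int hp hN] at h1
    have hbp : IsCoprime b (p : ℤ) :=
      ((Int.prime_iff_natAbs_prime.2 (by simpa using hp)).coprime_iff_not_dvd.2 hpb).symm
    have h3 : ((jacobiSym b p : ℤ) : ℂ) * ((jacobiSym b p : ℤ) : ℂ) = 1 := by
      rcases jac_ne hbp with h4 | h4 <;> rw [h4] <;> norm_num
    have h4 : sym v lam = ((jacobiSym b p * jacobiSym (b * c - a * d) p : ℤ) : ℂ) := by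
      push_cast
      rw [h1, ← mul_assoc, h3, one_mul]
    have hyp : IsCoprime (b * c - a * d) (p : ℤ) := by
      refine cop_of_sq hp.ne_zero fun h0 => ?_
      have h5 := sym_sq hlv
      rw [h4, h0, mul_zero] at h5
      simp at h5
    have hy0 : b * c - a * d ≠ 0 := by
      intro h0
      rw [h0] at hyp
      have := Int.isUnit_iff.1 (isCoprime_zero_left.1 hyp)
      have := hp.two_le
      omega
    rw [h4, hab, hc.chi, jac_recip hc.nm hP hc.cop hcop hc.c8 hc.d8 hpo hb0 hy0 hyq hyp]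
  · have hself : tv h v = v := by
      apply HeightOneSpectrum.ext
      have h1 := deg_two h hp hpv hN
      ext x
      rw [mem_tv, h1, Ideal.mem_span_singleton, Ideal.mem_span_singleton]
      constructor
      · rintro ⟨y, hy⟩
        refine ⟨tau h y, ?_⟩
        have := congrArg (tau h) hy
        rwa [tau_tau, map_mul, map_natCast] at this
      · rintro ⟨y, rfl⟩
        exact ⟨tau h y, by rw [map_mul, map_natCast]⟩
    rw [sym_inert h hp hp2 hpv hN hself hlv, ho.norm h]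
    obtain ⟨u, hu, hg⟩ := gen_two h hp hpv hN
    rw [hg, chiT_mul h ho.two, ho.unit h hu, one_mul]
    have h1 := chiT_int ho.pr (p : ℤ)
    push_cast at h1
    rw [h1, jacobiSym.quadratic_reciprocity_one_mod_four (by omega) hpo]

end Pool.Agent.K4H15.BW
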