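import Pool.Agent.K4H15.BW.Grp
import Pool.Agent.K4H15.BW.Rec2
import Pool.Agent.K4H55.BI.Main

/-!
Infinite groups of twists of Bianchi newforms.
-/

set_option autoImplicit false

namespace Pool.Agent.K4H15.BW

open NumberField IsDedekindDomain ComplexConjugate Pool.Agent.Y18.LP
open Pool.Agent.K4H55.BI (IQ BF NVT Adm sym chiT gen gen_span gen_dvd gen_prime gen_na gen_inj efac NT
  nv_pos sp mem_sp Ok AdS AdB bt fv ordK Fam fam_of nvt_iff VV VV_fg setup good sp_one)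

variable {K : Type} [Field K] [NumberField K] {σ : K →+* ℂ} {δ : K} {I : Type}

/-- the places of the blocks of `X` -/
noncomputable def TX (B : I → Finset (HeightOneSpectrum (𝓞 K))) (X : Finset I) :
    Finset (HeightOneSpectrum (𝓞 K)) := by
  classical
  exact X.biUnion B

lemma mem_TX {B : I → Finset (HeightOneSpectrum (𝓞 K))} {X : Finset I}
    {v : HeightOneSpectrum (𝓞 K)} : v ∈ TX B X ↔ ∃ i ∈ X, v ∈ B i := by
  classical
  unfold TX
  rw [Finset.mem_biUnion]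

lemma TX_chi {B : I → Finset (HeightOneSpectrum (𝓞 K))}
    (hd : ∀ i j, ∀ v ∈ B i, v ∈ B j → i = j) (X : Finset I) (x : 𝓞 K) :
    chiT (TX B X) x = ∏ i ∈ X, chiT (B i) x := by
  classical
  unfold TX chiT
  rw [Finset.prod_biUnion]
  intro i _ j _ hne
  rw [Function.onFun, Finset.disjoint_left]
  intro v hv hv'
  exact hne (hd i j v hv hv')

section psi

variable [hP : IsPrincipalIdealRing (𝓞 K)] (B : I → Finset (HeightOneSpectrum (𝓞 K)))

open Classical in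
/-- the signs of the generators of the places of the blocks -/
noncomputable def psi : FS I →* (𝓞 K → ℤˣ) where
  toFun γ := fun p => if h : ∃ i, ∃ v ∈ B i, gen v = p then γ.1 h.choose else 1
  map_one' := by
    funext p
    split_ifs <;> rfl
  map_mul' γ γ' := by
    funext p
    rw [Pi.mul_apply]
    split_ifs
    · rfl
    · rw [one_mul]

variable {B}

lemma psi_gen (hd : ∀ i j, ∀ v ∈ B i, v ∈ B j → i = j) {i : I} {v : HeightOneSpectrum (𝓞 K)}
    (hv : v ∈ B i) (γ : FS I) : psi B γ (gen v) = γ.1 i := by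
  classical
  have h : ∃ i, ∃ v' ∈ B i, gen v' = gen v := ⟨i, v, hv, rfl⟩
  have h1 : psi B γ (gen v) = γ.1 h.choose := by
    show (if h : ∃ i, ∃ v' ∈ B i, gen v' = gen v then γ.1 h.choose else 1) = _
    rw [dif_pos h]
  rw [h1]
  obtain ⟨v', hv', he⟩ := h.choose_spec
  have h2 : v' = v := gen_inj he
  subst h2
  rw [hd _ _ v' hv' hv]

lemma psi_ne (γ : FS I) {p : 𝓞 K} (hp : psi B γ p ≠ 1) : ∃ i, ∃ v ∈ B i, gen v = p := by
  classical
  by_contra hcon
  apply hp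
  show (if h : ∃ i, ∃ v' ∈ B i, gen v' = p then γ.1 h.choose else 1) = _
  rw [dif_neg hcon]

lemma psi_supp (hd : ∀ i j, ∀ v ∈ B i, v ∈ B j → i = j) (γ : FS I) (p : 𝓞 K) :
    psi B γ p ≠ 1 ↔ ∃ v ∈ TX B (su γ), gen v = p := by
  constructor
  · intro hp
    obtain ⟨i, v, hv, rfl⟩ := psi_ne γ hp
    rw [psi_gen hd hv] at hp
    exact ⟨v, mem_TX.2 ⟨i, mem_su.2 hp, hv⟩, rfl⟩
  · rintro ⟨v, hv, rfl⟩
    obtain ⟨i, hi, hv⟩ := mem_TX.1 hv
    rw [psi_gen hd hv]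
    exact mem_su.1 hi

lemma psi_fin (hd : ∀ i j, ∀ v ∈ B i, v ∈ B j → i = j) (γ : FS I) :
    {p | psi B γ p ≠ 1}.Finite := by
  classical
  refine ((TX B (su γ)).image gen).finite_toSet.subset ?_
  intro p hp
  obtain ⟨v, hv, rfl⟩ := (psi_supp hd γ p).1 hp
  exact Finset.mem_coe.2 (Finset.mem_image_of_mem gen hv)

lemma sp_psi [DecidableEq (𝓞 K)] (hd : ∀ i j, ∀ v ∈ B i, v ∈ B j → i = j) (γ : FS I) :
    sp (psi B γ) = (TX B (su γ)).image gen := by
  ext p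
  rw [mem_sp (psi_fin hd γ), psi_supp hd, Finset.mem_image]

end psi

/-- **Infinite groups of twists.** -/
theorem towers (h : IQ K σ δ) [hP : IsPrincipalIdealRing (𝓞 K)] {n : 𝓞 K}
    {c : Ideal (𝓞 K) → ℂ} (hf : BF σ δ n c) (h0 : NVT n c ∅)
    (lam : Ideal (integralClosure ℤ ℂ)) (hlam : lam.IsPrime)
    (hmem : (2 : integralClosure ℤ ℂ) ∈ lam) [Infinite I] (s : Equiv.Perm I)
    (hs : ∀ i, s (s i) = i) (hs1 : ∀ i, s i ≠ i) {B : I → Finset (HeightOneSpectrum (𝓞 K))}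
    (hd : ∀ i j, ∀ v ∈ B i, v ∈ B j → i = j)
    (hB : ∀ i, ∀ v ∈ B i, v ∈ Adm (fun _ : Unit => n) (fun _ => c) lam)
    (hu : ∀ i u, IsUnit u → chiT (B i) u = 1) :
    ∃ (G : Subgroup (FS I)) (y : ℕ → FS I) (i : ℕ → I), (∀ x ∈ G, tw s x ∈ G) ∧
      (∀ x ∈ G, NVT n c (TX B (su x))) ∧ (∀ m, y m ∈ G) ∧
      (∀ m, (y m).1 (i m) = -1 ∧ (y m).1 (s (i m)) = 1) ∧
      ∀ k m, k < m → (y k).1 (i m) = 1 ∧ (y k).1 (s (i m)) = 1 := by
  classical
  set D := ordK h with hD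
  obtain ⟨C, w, κ, κW, hN⟩ := hf.newf h
  have hMG := hN.mg
  have hAdm : ∀ v ∈ Adm (fun _ : Unit => n) (fun _ => c) lam, (2 : 𝓞 K) ∉ v.asIdeal :=
    fun v hv => hv.1
  have hfam : ∀ X : Finset I, Fam ((TX B X).image gen) := fun X =>
    fam_of hAdm fun v hv => by
      obtain ⟨i, _, hv⟩ := mem_TX.1 hv
      exact hB i v hv
  have hunit : ∀ X : Finset I, ∀ u, IsUnit u → chiT (TX B X) u = 1 := fun X u hu' => by
    rw [TX_chi hd]
    exact Finset.prod_eq_one fun i _ => hu i u hu'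
  have hnn : ∀ X : Finset I, ∀ v ∈ TX B X, n ∉ v.asIdeal := fun X v hv => by
    obtain ⟨i, _, hv⟩ := mem_TX.1 hv
    exact ((hB i v hv).2 ()).1
  have hiff : ∀ X : Finset I, NVT n c (TX B X) ↔
      bt D (fv D fun x => c (Ideal.span {x})) ((TX B X).image gen) ≠ 0 := fun X =>
    nvt_iff h hf (hfam X) (hunit X) (hnn X)
  have hTe : TX B (∅ : Finset I) = ∅ := by
    ext v
    rw [mem_TX]
    simp
  have hb0 : bt D (fv D fun x => c (Ideal.span {x})) ∅ ≠ 0 := by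
    have h1 := (hiff ∅).1 (by rw [hTe]; exact h0)
    rwa [hTe, Finset.image_empty] at h1
  obtain ⟨R, hR0, P, al, hPm, hP2, hal⟩ := setup (J := Unit) (fun _ => hMG) (fun _ => hb0) lam hlam
    hmem
  have hRe : ∀ z : ℂ, z ^ 2 = 1 → z ∈ R := fun z hz => by
    rcases mul_self_eq_one_iff.1 ((sq _).symm.trans hz) with h | h
    · rw [h]; exact R.one_mem
    · rw [h]; exact R.neg_mem R.one_mem
  have hP1 : ∀ z : R, (z : ℂ) ^ 2 = 1 → 1 - z ∈ P := fun z hz => by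
    rcases mul_self_eq_one_iff.1 ((sq _).symm.trans hz) with h | h
    · have : z = 1 := Subtype.ext h
      rw [this, sub_self]
      exact P.zero_mem
    · have : z = -1 := Subtype.ext h
      rw [this, sub_neg_eq_add, one_add_one_eq_two]
      exact hP2
  let A' : Set (𝓞 K) := {p | ∃ i, ∃ v ∈ B i, gen v = p}
  have hA' : AdS n A' := by
    refine ⟨?_, ?_, ?_, ?_⟩
    · rintro p ⟨i, v, hv, rfl⟩
      exact gen_prime v
    · rintro p ⟨i, v, hv, rfl⟩ hdv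
      exact (hB i v hv).1 (gen_dvd.1 hdv)
    · rintro p ⟨i, v, hv, rfl⟩ p' ⟨i', v', hv', rfl⟩ hdv
      rw [gen_na hdv]
    · rintro p ⟨i, v, hv, rfl⟩ hdv
      exact ((hB i v hv).2 ()).1 (gen_dvd.1 hdv)
  have hOk : Ok (psi B).range A' := by
    refine ⟨?_, ?_⟩
    · rintro _ ⟨γ, rfl⟩
      exact psi_fin hd γ
    · rintro _ ⟨γ, rfl⟩ p hp
      exact psi_ne γ hp
  have hg := good hMG (al ()) hPm.isPrime hP2 hOk hA' (fun q hq => hal () q (by
    obtain ⟨i, v, hv, rfl⟩ := hq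
    refine ⟨gen_prime v, fun hdv => ((hB i v hv).2 ()).1 (gen_dvd.1 hdv), ?_⟩
    simp only [gen_span]
    exact ((hB i v hv).2 ()).2))
  have hg2 := good_hom hRe hg 1 (psi B).rangeRestrict
  have hbeta : ∀ γ : FS I, bt D (fv D fun x => c (Ideal.span {x}))
      (sp ((1 * (psi B).rangeRestrict γ : (psi B).range) : 𝓞 K → ℤˣ)) =
      bt D (fv D fun x => c (Ideal.span {x})) ((TX B (su γ)).image gen) := by
    intro γ
    rw [one_mul]
    have h1 : (((psi B).rangeRestrict γ : (psi B).range) : 𝓞 K → ℤˣ) = psi B γ := rfl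
    rw [h1, sp_psi hd]
  obtain ⟨G, y, i, h2, h3, h4, h5, h6⟩ := exists_group hRe hPm hP1 (span_fg (VV_fg hMG)) hg2 (by
    rw [hbeta, su_one, hTe, Finset.image_empty]
    exact hb0) s hs hs1
  refine ⟨G, y, i, h2, fun x hx => ?_, h4, h5, h6⟩
  rw [hiff]
  have h7 := h3 x hx
  rwa [hbeta] at h7

end Pool.Agent.K4H15.BW
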