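import Pool.Agent.K4H15.BW.Rec2

/-!
Blocks of primes with primary product.
-/

set_option autoImplicit false

namespace Pool.Agent.K4H15.BW

open NumberField IsDedekindDomain ComplexConjugate Filter Topology
open Pool.Agent.K4H55.BI (IQ BF NVT Adm sym chiT gen gen_span gen_dvd gen_prime gen_na gen_inj efac NT
  nv_pos)
open Pool.Agent.K4H55.BD (cj tau tv sg_inj sg_cj sg_tau tau_tau tau_int mul_tau norm_nonneg' norm_eq
  mem_tv sym_tv res_int int_mem sym_int chiT_mul sym_mul nv_cases norm_gen two_notMem uniq_over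
  char_ne_two QE Ro densK bad_fin exists_over tv_ne mem_tv_nat)

variable {K : Type} [Field K] [NumberField K] {σ : K →+* ℂ} {δ : K}

theorem QE_inf (h : IQ K σ δ) {a b n : 𝓞 K} (hΔ : 4 * a ^ 3 + 27 * b ^ 2 ≠ 0) (hn : n ≠ 0)
    (hr : ∀ x : K, ¬ Ro (a : K) (b : K) x) : (QE h a b n).Infinite := by
  intro hfin
  obtain ⟨d, hd, h1⟩ := densK h hΔ hn hr
  obtain ⟨N, hN⟩ := ((h1 _ hfin).and (eventually_ge_atTop 2)).exists
  obtain ⟨h2, h3⟩ := hN
  have h4 : Pool.Agent.K4H55.AB.Cnt.cA (QE h a b n \ QE h a b n) N = 0 := by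
    unfold Pool.Agent.K4H55.AB.Cnt.cA
    rw [Set.sdiff_self]
    simp
  rw [h4] at h2
  have h5 : 0 < Real.log N := Real.log_pos (by exact_mod_cast h3)
  have h6 : (0 : ℝ) < N := by exact_mod_cast (by omega : 0 < N)
  have h7 : 0 < d * (N / Real.log N) := by positivity
  simp only [Nat.cast_zero] at h2
  linarith

/-- blocks -/
structure Blk (h : IQ K σ δ) (a b n : 𝓞 K) (Q : Set ℕ) (N0 : ℕ)
    (B : ℕ × Bool → Finset (HeightOneSpectrum (𝓞 K))) (β : ℕ × Bool → 𝓞 K) : Prop where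
  sub : Q ⊆ QE h a b n
  one : ∀ i, One (B i) (β i)
  mod : ∀ i, (N0 : 𝓞 K) ∣ β i - 1
  disj : ∀ i j, ∀ v ∈ B i, v ∈ B j → i = j
  ne : ∀ i, (B i).Nonempty
  adm : ∀ i, ∀ v ∈ B i, ∃ q ∈ Q, (q : 𝓞 K) ∈ v.asIdeal
  cnj : ∀ j b, β (j, !b) = tau h (β (j, b))

theorem exists_blocks (h : IQ K σ δ) {a b n : 𝓞 K} {Q : Set ℕ} (hsub : Q ⊆ QE h a b n)
    (hinf : Q.Infinite) {N0 : ℕ} (hN0 : N0 ≠ 0) (h8 : 8 ∣ N0) : ∃ B β, Blk h a b n Q N0 B β := by
  classical
  have := h.pid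
  -- primes not dividing `N0`
  have hinf0 : (Q \ {q | q ≤ N0}).Infinite := hinf.sdiff (Set.finite_Iic N0)
  set Q0 := Q \ {q | q ≤ N0} with hQ0
  have hspl : ∀ q : Q0, (q : ℕ) ∈ QE h a b n := fun q => hsub q.2.1
  have hover : ∀ q : Q0, ∃ v : HeightOneSpectrum (𝓞 K), ((q : ℕ) : 𝓞 K) ∈ v.asIdeal := fun q =>
    exists_over h (hspl q).1.pr
  choose V hV using hover
  have hNV : ∀ q : Q0, Ideal.absNorm (V q).asIdeal = q := fun q => (hspl q).1.deg _ (hV q)
  have hI0 : (Ideal.span {((N0 : ℕ) : 𝓞 K)} : Ideal (𝓞 K)) ≠ ⊥ := by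
    rw [Ne, Ideal.span_singleton_eq_bot]
    exact_mod_cast hN0
  have hfin : Finite (𝓞 K ⧸ Ideal.span {((N0 : ℕ) : 𝓞 K)}) :=
    Ideal.finiteQuotientOfFreeOfNeBot _ hI0
  have hfinu : Finite (𝓞 K ⧸ Ideal.span {((N0 : ℕ) : 𝓞 K)})ˣ := inferInstance
  have hunit : ∀ q : Q0, IsUnit (Ideal.Quotient.mk (Ideal.span {((N0 : ℕ) : 𝓞 K)}) (gen (V q))) := by
    intro q
    have hcop : IsCoprime ((q : ℕ) : ℤ) ((N0 : ℕ) : ℤ) := by
      rw [Nat.isCoprime_iff_coprime]
      refine (Nat.Prime.coprime_iff_not_dvd (hspl q).1.pr).2 fun hd => ?_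
      have h1 := Nat.le_of_dvd (Nat.pos_of_ne_zero hN0) hd
      exact q.2.2 h1
    obtain ⟨u, w, huw⟩ := hcop
    have h2 := norm_gen h (V q)
    rw [hNV q] at h2
    have h3 : gen (V q) * (tau h (gen (V q)) * (u : 𝓞 K)) - 1 ∈
        Ideal.span {((N0 : ℕ) : 𝓞 K)} := by
      rw [Ideal.mem_span_singleton]
      refine ⟨-(w : 𝓞 K), ?_⟩
      have h4 : ((u : ℤ) : 𝓞 K) * ((q : ℕ) : 𝓞 K) + (w : 𝓞 K) * ((N0 : ℕ) : 𝓞 K) = 1 := by
        have := congrArg (fun z : ℤ => (z : 𝓞 K)) huw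
        push_cast at this
        exact this
      linear_combination (u : 𝓞 K) * h2 + h4
    rw [← Ideal.Quotient.eq_zero_iff_mem, map_sub, map_mul, map_one, sub_eq_zero] at h3
    exact IsUnit.of_mul_eq_one _ h3
  -- pigeonhole
  have hinfQ : Infinite Q0 := hinf0.to_subtype
  obtain ⟨u, hu⟩ := Finite.exists_infinite_fiber (fun q : Q0 => (hunit q).unit)
  let e : ℕ := Nat.card (𝓞 K ⧸ Ideal.span {((N0 : ℕ) : 𝓞 K)})ˣ
  have he : 0 < e := Nat.card_pos
  have hue : u ^ e = 1 := pow_card_eq_one'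
  let g : ℕ → Q0 := fun k => (Infinite.natEmbedding _ k : ((fun q : Q0 => (hunit q).unit) ⁻¹' {u})).1
  have hg : Function.Injective g := fun k l hkl =>
    (Infinite.natEmbedding _).injective (Subtype.ext hkl)
  have hgu : ∀ k, Ideal.Quotient.mk (Ideal.span {((N0 : ℕ) : 𝓞 K)}) (gen (V (g k))) = u := by
    intro k
    have h1 := (Infinite.natEmbedding ((fun q : Q0 => (hunit q).unit) ⁻¹' {u}) k).2
    have h2 : (hunit (g k)).unit = u := h1
    rw [← h2]
    rfl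
  -- the places and elements
  let P : ℕ → Bool → HeightOneSpectrum (𝓞 K) := fun k b => if b then tv h (V (g k)) else V (g k)
  let E : ℕ → Bool → 𝓞 K := fun k b => if b then tau h (gen (V (g k))) else gen (V (g k))
  have hPq : ∀ k b, (((g k : Q0) : ℕ) : 𝓞 K) ∈ (P k b).asIdeal := by
    intro k b
    cases b
    · exact hV (g k)
    · exact mem_tv_nat h (hV (g k))
  have hPN : ∀ k b, Ideal.absNorm (P k b).asIdeal = (g k : Q0) := fun k b =>
    (hspl (g k)).1.deg _ (hPq k b)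
  have hPinj : ∀ k b k' b', P k b = P k' b' → k = k' ∧ b = b' := by
    intro k b k' b' hP
    have h1 : ((g k : Q0) : ℕ) = (g k' : Q0) := by rw [← hPN k b, ← hPN k' b', hP]
    have h2 : k = k' := hg (Subtype.ext h1)
    subst h2
    refine ⟨rfl, ?_⟩
    have h3 := tv_ne h (hspl (g k)).1 (hV (g k))
    cases b <;> cases b'
    · rfl
    · exact absurd hP.symm h3
    · exact absurd hP h3
    · rfl
  have hspan : ∀ k b, Ideal.span {E k b} = (P k b).asIdeal := by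
    intro k b
    cases b
    · exact gen_span (V (g k))
    · show Ideal.span {tau h (gen (V (g k)))} = (tv h (V (g k))).asIdeal
      ext x
      rw [mem_tv, ← gen_dvd, Ideal.mem_span_singleton]
      constructor
      · rintro ⟨y, rfl⟩
        exact ⟨tau h y, by rw [map_mul, tau_tau]⟩
      · rintro ⟨y, hy⟩
        refine ⟨tau h y, ?_⟩
        have := congrArg (tau h) hy
        rwa [tau_tau, map_mul] at this
  refine ⟨fun i => (Finset.range e).image fun l => P (i.1 * e + l) i.2,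
    fun i => ∏ l ∈ Finset.range e, E (i.1 * e + l) i.2, ?_⟩
  have hmod0 : ∀ j, ((N0 : ℕ) : 𝓞 K) ∣ (∏ l ∈ Finset.range e, gen (V (g (j * e + l)))) - 1 := by
    intro j
    rw [← Ideal.mem_span_singleton, ← Ideal.Quotient.eq_zero_iff_mem, map_sub, map_one, map_prod,
      sub_eq_zero]
    rw [Finset.prod_congr rfl fun l _ => hgu (j * e + l), Finset.prod_const, Finset.card_range]
    have h1 := congrArg (fun z : (𝓞 K ⧸ Ideal.span {((N0 : ℕ) : 𝓞 K)})ˣ =>
      (z : 𝓞 K ⧸ Ideal.span {((N0 : ℕ) : 𝓞 K)})) hue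
    simpa using h1
  have hmod : ∀ i : ℕ × Bool, ((N0 : ℕ) : 𝓞 K) ∣ (∏ l ∈ Finset.range e, E (i.1 * e + l) i.2) - 1 := by
    rintro ⟨j, b⟩
    cases b
    · exact hmod0 j
    · obtain ⟨y, hy⟩ := hmod0 j
      refine ⟨tau h y, ?_⟩
      have h1 := congrArg (tau h) hy
      rw [map_sub, map_one, map_prod, map_mul, map_natCast] at h1
      exact h1
  have hinjl : ∀ i : ℕ × Bool, Set.InjOn (fun l => P (i.1 * e + l) i.2) (Finset.range e : Set ℕ) := by
    intro i l _ l' _ hll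
    have := (hPinj _ _ _ _ hll).1
    omega
  refine ⟨hsub, fun i => ⟨?_, ?_, ?_, ?_, ?_⟩, hmod, ?_, ?_, ?_, ?_⟩
  · intro v hv
    obtain ⟨l, _, rfl⟩ := Finset.mem_image.1 hv
    rw [hPN]
    exact (hspl (g _)).1.pr
  · intro v hv
    obtain ⟨l, _, rfl⟩ := Finset.mem_image.1 hv
    rw [hPN]
    exact (hspl (g _)).1.odd
  · intro v hv w hw hvw
    obtain ⟨l, _, rfl⟩ := Finset.mem_image.1 hv
    obtain ⟨l', _, rfl⟩ := Finset.mem_image.1 hw
    simp only [hPN] at hvw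
    rw [hg (Subtype.ext hvw)]
  · rw [Finset.prod_image (hinjl i), ← Ideal.prod_span_singleton]
    exact Finset.prod_congr rfl fun l _ => hspan _ _
  · refine dvd_trans ?_ (hmod i)
    obtain ⟨w, rfl⟩ := h8
    exact ⟨(w : 𝓞 K), by push_cast; rfl⟩
  · rintro ⟨j, b⟩ ⟨j', b'⟩ v hv hv'
    obtain ⟨l, hl, rfl⟩ := Finset.mem_image.1 hv
    obtain ⟨l', hl', he'⟩ := Finset.mem_image.1 hv'
    obtain ⟨h1, h2⟩ := hPinj _ _ _ _ he'
    rw [Finset.mem_range] at hl hl'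
    simp only at h1 h2
    have h3 : j = j' := by
      have e1 : (j * e + l) / e = j := by
        rw [mul_comm, Nat.mul_add_div he, Nat.div_eq_of_lt hl, add_zero]
      have e2 : (j' * e + l') / e = j' := by
        rw [mul_comm, Nat.mul_add_div he, Nat.div_eq_of_lt hl', add_zero]
      rw [← e1, ← e2, h1]
    rw [h3, h2]
  · intro i
    exact ⟨_, Finset.mem_image_of_mem _ (Finset.mem_range.2 he)⟩
  · intro i v hv
    obtain ⟨l, _, rfl⟩ := Finset.mem_image.1 hv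
    exact ⟨_, (g (i.1 * e + l)).2.1, hPq _ _⟩
  · intro j b
    simp only [map_prod]
    refine Finset.prod_congr rfl fun l _ => ?_
    cases b
    · rfl
    · exact (tau_tau h _).symm

end Pool.Agent.K4H15.BW
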