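import Pool.Agent.Y18.LP.Comb
import Pool.Agent.Y18.LP.Abs

/-!
Compositions with homomorphisms, and extension of finite groups on which functions do not vanish.
-/

set_option autoImplicit false

namespace Pool.Agent.K4H15.BW

open Finset Pool.Agent.Y18.LP

variable {Γ Γ' : Type} [CommGroup Γ] [CommGroup Γ'] {R : Subring ℂ} {e : ℕ} {W : Submodule R ℂ}

lemma comb_hom (hR : ∀ z : ℂ, z ^ e = 1 → z ∈ R) {A : Γ' → ℂ} (hA : A ∈ Comb Γ' e W) (h : Γ')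
    (φ : Γ →* Γ') : (fun x => A (h * φ x)) ∈ Comb Γ e W := by
  induction hA using AddSubgroup.closure_induction with
  | mem x hx =>
    obtain ⟨w, hw, E, hE, rfl⟩ := hx
    have h1 := W.smul_mem (⟨E h, hR _ (hE h)⟩ : R) hw
    have h2 : (⟨E h, hR _ (hE h)⟩ : R) • w = w * E h := by
      rw [Subring.smul_def, smul_eq_mul, mul_comm]
    rw [h2] at h1
    have h3 := Comb.gen (Γ := Γ) (e := e) h1 (E.comp φ) (fun g => hE (φ g))
    have h4 : (fun x => (fun g => w * E g) (h * φ x)) = fun g => w * E h * (E.comp φ) g := by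
      funext x
      show w * E (h * φ x) = w * E h * E (φ x)
      rw [map_mul]
      ring
    rw [h4]
    exact h3
  | zero => exact AddSubgroup.zero_mem _
  | add x y _ _ h1 h2 => exact AddSubgroup.add_mem _ h1 h2
  | neg x _ h => exact AddSubgroup.neg_mem _ h

theorem good_hom (hR : ∀ z : ℂ, z ^ e = 1 → z ∈ R) {P : Ideal R} {β : Γ' → ℂ}
    (hβ : Good e P W β) (h : Γ') (φ : Γ →* Γ') : Good e P W (fun x => β (h * φ x)) := by
  classical
  refine ⟨fun x => hβ.mem _, ?_⟩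
  obtain ⟨d, hd, hQ⟩ := hβ.ex
  refine ⟨fun x => d (h * φ x), fun x => hd _, fun Q => ?_⟩
  obtain ⟨A, hA, c, hc, h1⟩ := hQ (Q.image fun x => h * φ x)
  exact ⟨fun x => A (h * φ x), comb_hom hR hA h φ, c, hc, fun x hx =>
    h1 _ (Finset.mem_image_of_mem _ hx)⟩

/-- **Extension of finite families of translates.**  `β` is a good function, `g : S → Γ` and
`φ : S → End Γ` finite families with `β (g s) ≠ 0`; every translate of a finite set contains an `x` with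
`β (g s * φ s x) ≠ 0` for all `s` -/
theorem ext_fam (hR : ∀ z : ℂ, z ^ e = 1 → z ∈ R) [IsNoetherianRing R] {P : Ideal R}
    (hP : P.IsMaximal)
    (hP1 : ∀ z : R, (z : ℂ) ^ e = 1 → 1 - z ∈ P) (hW : W.FG) {β : Γ → ℂ} (hβ : Good e P W β)
    {S : Type} (s : Finset S) (g : S → Γ) (φ : S → Γ →* Γ) (h0 : ∀ i ∈ s, β (g i) ≠ 0) :
    ∃ K : Finset Γ, ∀ x, ∃ k ∈ K, ∀ i ∈ s, β (g i * φ i (x * k)) ≠ 0 := by
  classical
  have hg := Good.prod (Γ := Γ) (e := e) hP.isPrime s (fun _ => W)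
    (fun i x => β (g i * φ i x)) (fun i _ => good_hom hR hβ (g i) (φ i))
  have hval : ∏ i ∈ s, β (g i * φ i 1) ≠ 0 := by
    refine Finset.prod_ne_zero_iff.2 fun i hi => ?_
    rw [map_one, mul_one]
    exact h0 i hi
  obtain ⟨V, hV⟩ := krull hP.ne_top (fg_prod s _ fun _ _ => hW) (hg.mem 1) hval
  obtain ⟨K, -, hK⟩ := correction hR hP hP1 hg (V := V) hV
  refine ⟨K.toFinset, fun x => ?_⟩
  obtain ⟨k, hk, h1⟩ := hK x
  exact ⟨k, List.mem_toFinset.2 hk, fun i hi => Finset.prod_ne_zero_iff.1 h1 i hi⟩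

/-- the data of a conjugation-stable finite group -/
structure St (τ : Γ →* Γ) (β : Γ → ℂ) (F : Subgroup Γ) : Prop where
  fin : (F : Set Γ).Finite
  inv : ∀ x ∈ F, τ x ∈ F
  nv : ∀ x ∈ F, β x ≠ 0

/-- **one more generator** -/
theorem ext_one' (hR : ∀ z : ℂ, z ^ 2 = 1 → z ∈ R) [IsNoetherianRing R] {P : Ideal R}
    (hP : P.IsMaximal) (hP1 : ∀ z : R, (z : ℂ) ^ 2 = 1 → 1 - z ∈ P) (hW : W.FG) {β : Γ → ℂ}
    (hβ : Good 2 P W β) (hΓ : ∀ x : Γ, x * x = 1) (τ : Γ →* Γ) (hτ : ∀ x, τ (τ x) = x)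
    {F : Subgroup Γ} (hF : St τ β F) :
    ∃ K : Finset Γ, ∀ x, ∃ k ∈ K, ∃ F' : Subgroup Γ, F ≤ F' ∧ x * k ∈ F' ∧ St τ β F' := by
  classical
  have hcomm : ∀ x y : Γ, x * y = y * x := mul_comm
  let ψ : Fin 2 × Fin 2 → Γ →* Γ := fun p =>
    { toFun := fun x => x ^ (p.1 : ℕ) * (τ x) ^ (p.2 : ℕ)
      map_one' := by simp
      map_mul' := fun x y => by rw [map_mul, mul_pow, mul_pow]; exact mul_mul_mul_comm _ _ _ _ }
  have hψ : ∀ p x, ψ p x = x ^ (p.1 : ℕ) * (τ x) ^ (p.2 : ℕ) := fun p x => rfl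
  obtain ⟨K, hK⟩ := ext_fam hR hP hP1 hW hβ (S := Γ × (Fin 2 × Fin 2))
    (hF.fin.toFinset ×ˢ Finset.univ) (fun p => p.1) (fun p => ψ p.2) (by
      intro p hp
      exact hF.nv _ (hF.fin.mem_toFinset.1 (Finset.mem_product.1 hp).1))
  refine ⟨K, fun x => ?_⟩
  obtain ⟨k, hk, h1⟩ := hK x
  set y := x * k with hy
  -- the group generated by `F`, `y` and `τ y`
  let F' : Subgroup Γ :=
    { carrier := {z | ∃ g ∈ F, ∃ p : Fin 2 × Fin 2, z = g * ψ p y}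
      one_mem' := ⟨1, F.one_mem, (0, 0), by rw [hψ]; simp⟩
      mul_mem' := by
        rintro _ _ ⟨g, hg, p, rfl⟩ ⟨g', hg', p', rfl⟩
        have key : ∀ z : Γ, ∀ i j : Fin 2, ∃ l : Fin 2, z ^ (i : ℕ) * z ^ (j : ℕ) = z ^ (l : ℕ) := by
          intro z i j
          fin_cases i <;> fin_cases j
          · exact ⟨0, by simp⟩
          · exact ⟨1, by simp⟩
          · exact ⟨1, by simp⟩
          · exact ⟨0, by simp [hΓ z]⟩
        obtain ⟨l1, hl1⟩ := key y p.1 p'.1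
        obtain ⟨l2, hl2⟩ := key (τ y) p.2 p'.2
        refine ⟨g * g', F.mul_mem hg hg', (l1, l2), ?_⟩
        rw [hψ, hψ, hψ]
        simp only
        rw [← hl1, ← hl2]
        calc g * (y ^ (p.1 : ℕ) * τ y ^ (p.2 : ℕ)) * (g' * (y ^ (p'.1 : ℕ) * τ y ^ (p'.2 : ℕ))) =
              g * g' * ((y ^ (p.1 : ℕ) * τ y ^ (p.2 : ℕ)) * (y ^ (p'.1 : ℕ) * τ y ^ (p'.2 : ℕ))) :=
                mul_mul_mul_comm _ _ _ _
          _ = _ := by rw [mul_mul_mul_comm (y ^ (p.1 : ℕ))]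
      inv_mem' := by
        rintro z ⟨g, hg, p, rfl⟩
        refine ⟨g, hg, p, ?_⟩
        rw [inv_eq_iff_mul_eq_one]
        exact hΓ _ }
  have hF' : ∀ z, z ∈ F' ↔ ∃ g ∈ F, ∃ p : Fin 2 × Fin 2, z = g * ψ p y := fun z => Iff.rfl
  refine ⟨k, hk, F', ?_, ?_, ?_, ?_, ?_⟩
  · intro g hg
    rw [hF']
    exact ⟨g, hg, (0, 0), by rw [hψ]; simp⟩
  · rw [hF']
    exact ⟨1, F.one_mem, (1, 0), by rw [hψ]; simp [hy]⟩
  · have h2 : (F' : Set Γ) ⊆ (fun p : Γ × (Fin 2 × Fin 2) => p.1 * ψ p.2 y) ''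
        ((F : Set Γ) ×ˢ Set.univ) := by
      rintro z ⟨g, hg, p, rfl⟩
      exact ⟨(g, p), ⟨hg, Set.mem_univ _⟩, rfl⟩
    exact ((hF.fin.prod Set.finite_univ).image _).subset h2
  · rintro z ⟨g, hg, p, rfl⟩
    rw [hF']
    refine ⟨τ g, hF.inv g hg, (p.2, p.1), ?_⟩
    rw [hψ, hψ, map_mul, map_mul, map_pow, map_pow, hτ]
    simp only
    rw [mul_comm (τ y ^ (p.1 : ℕ))]
  · rintro z ⟨g, hg, p, rfl⟩
    exact h1 (g, p) (Finset.mem_product.2 ⟨hF.fin.mem_toFinset.2 hg, Finset.mem_univ _⟩)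

end Pool.Agent.K4H15.BW
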