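import Pool.Agent.K4H55.BD.Alg

/-!
Points over multiquadratic extensions.
-/

set_option autoImplicit false

namespace Pool.Agent.K4H15.BW

open WeierstrassCurve Pool.Agent.K4H55.BD

section tr

variable {N F : Type} [Field N] [Field F] [DecidableEq N] [DecidableEq F]

lemma crv_negY {k : Type} [Field k] (A B x y : k) : (crv A B).toAffine.negY x y = -y := by
  simp [Affine.negY, crv, WeierstrassCurve.toAffine]

lemma crv_ns {k : Type} [Field k] {A B x y : k} : (crv A B).toAffine.Nonsingular x y ↔
    y ^ 2 = x ^ 3 + A * x + B ∧ (3 * x ^ 2 + A ≠ 0 ∨ 2 * y ≠ 0) := by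
  rw [Affine.nonsingular_iff, equation_iff]
  refine and_congr_right fun _ => or_congr ?_ ?_
  · simp only [crv, WeierstrassCurve.toAffine]
    refine not_congr ⟨fun h => ?_, fun h => ?_⟩
    · linear_combination -h
    · linear_combination -h
  · simp only [crv, WeierstrassCurve.toAffine]
    refine not_congr ⟨fun h => ?_, fun h => ?_⟩
    · linear_combination h
    · linear_combination h

lemma slope_tr (f : N →+* F) {s : F} (hs : s ≠ 0) {A B : N} {A' B' : F} (hA : A' = s ^ 4 * f A)
    (x1 x2 y1 y2 : N) :
    (crv A' B').toAffine.slope (s ^ 2 * f x1) (s ^ 2 * f x2) (s ^ 3 * f y1) (s ^ 3 * f y2) =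
      s * f ((crv A B).toAffine.slope x1 x2 y1 y2) := by
  have h2 : ∀ u w : N, s ^ 2 * f u = s ^ 2 * f w ↔ u = w := fun u w =>
    ⟨fun h => f.injective (mul_left_cancel₀ (pow_ne_zero 2 hs) h), fun h => by rw [h]⟩
  have h3 : ∀ u w : N, s ^ 3 * f u = -(s ^ 3 * f w) ↔ u = -w := fun u w =>
    ⟨fun h => f.injective (mul_left_cancel₀ (pow_ne_zero 3 hs) (by rw [h, map_neg]; ring)),
      fun h => by rw [h, map_neg]; ring⟩
  by_cases hx : x1 = x2
  · subst hx
    by_cases hy : y1 = -y2
    · rw [Affine.slope_of_Y_eq rfl (by rw [crv_negY]; exact (h3 _ _).2 hy),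
        Affine.slope_of_Y_eq rfl (by rw [crv_negY]; exact hy), map_zero, mul_zero]
    · rw [Affine.slope_of_Y_ne rfl (by rw [crv_negY]; exact fun h => hy ((h3 _ _).1 h)),
        Affine.slope_of_Y_ne rfl (by rw [crv_negY]; exact hy), crv_negY, crv_negY]
      simp only [crv, WeierstrassCurve.toAffine, map_div₀, map_add, map_sub, map_mul, map_pow,
        map_ofNat, map_zero, map_neg, hA]
      by_cases h0 : f y1 = 0
      · rw [h0]
        simp
      · by_cases h2' : (2 : F) = 0
        · have e1 : s ^ 3 * f y1 - -(s ^ 3 * f y1) = 0 := by linear_combination (s ^ 3 * f y1) * h2'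
          have e2 : f y1 - -f y1 = 0 := by linear_combination (f y1) * h2'
          rw [e1, e2, div_zero, div_zero, mul_zero]
        · have e2 : f y1 - -f y1 ≠ 0 := by
            have : f y1 - -f y1 = 2 * f y1 := by ring
            rw [this]
            exact mul_ne_zero h2' h0
          have e1 : s ^ 3 * f y1 - -(s ^ 3 * f y1) ≠ 0 := by
            have : s ^ 3 * f y1 - -(s ^ 3 * f y1) = s ^ 3 * (f y1 - -f y1) := by ring
            rw [this]
            exact mul_ne_zero (pow_ne_zero 3 hs) e2
          rw [div_eq_iff e1, mul_div_assoc', div_mul_eq_mul_div, eq_div_iff e2]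
          ring
  · rw [Affine.slope_of_X_ne (fun h => hx ((h2 _ _).1 h)), Affine.slope_of_X_ne hx]
    have e2 : f x1 - f x2 ≠ 0 := sub_ne_zero.2 fun h => hx (f.injective h)
    have e1 : s ^ 2 * f x1 - s ^ 2 * f x2 ≠ 0 := by
      rw [← mul_sub]
      exact mul_ne_zero (pow_ne_zero 2 hs) e2
    rw [map_div₀, map_sub, map_sub, div_eq_iff e1, mul_assoc, div_mul_eq_mul_div, eq_comm,
      mul_div_assoc', div_eq_iff e2]
    ring

/-- the transfer of points along a field homomorphism and a scaling -/
theorem exists_tr (f : N →+* F) {s : F} (hs : s ≠ 0) {A B : N} {A' B' : F}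
    (hA : A' = s ^ 4 * f A) (hB : B' = s ^ 6 * f B) :
    ∃ g : (crv A B).toAffine.Point →+ (crv A' B').toAffine.Point, Function.Injective g ∧
      ∀ x y h, ∃ h', g (Affine.Point.some x y h) =
        Affine.Point.some (s ^ 2 * f x) (s ^ 3 * f y) h' := by
  have hns : ∀ {x y : N}, (crv A B).toAffine.Nonsingular x y →
      (crv A' B').toAffine.Nonsingular (s ^ 2 * f x) (s ^ 3 * f y) := by
    intro x y h
    rw [crv_ns] at h ⊢
    obtain ⟨h1, h2⟩ := h
    refine ⟨?_, ?_⟩
    · have h3 := congrArg f h1
      simp only [map_add, map_mul, map_pow] at h3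
      rw [hA, hB]
      linear_combination s ^ 6 * h3
    · rcases h2 with h2 | h2
      · left
        have h3 : f (3 * x ^ 2 + A) ≠ 0 := (map_ne_zero f).2 h2
        have e : 3 * (s ^ 2 * f x) ^ 2 + A' = s ^ 4 * f (3 * x ^ 2 + A) := by
          rw [hA]
          simp only [map_add, map_mul, map_pow, map_ofNat]
          ring
        rw [e]
        exact mul_ne_zero (pow_ne_zero 4 hs) h3
      · right
        have h3 : f (2 * y) ≠ 0 := (map_ne_zero f).2 h2
        have e : 2 * (s ^ 3 * f y) = s ^ 3 * f (2 * y) := by
          simp only [map_mul, map_ofNat]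
          ring
        rw [e]
        exact mul_ne_zero (pow_ne_zero 3 hs) h3
  let g0 : (crv A B).toAffine.Point → (crv A' B').toAffine.Point := fun P => match P with
    | 0 => 0
    | Affine.Point.some _ _ h => Affine.Point.some _ _ (hns h)
  have hadd : ∀ P Q, g0 (P + Q) = g0 P + g0 Q := by
    rintro (_ | ⟨x1, y1, h1⟩) (_ | ⟨x2, y2, h2⟩)
    any_goals rfl
    have e2 : ∀ u w : N, s ^ 2 * f u = s ^ 2 * f w ↔ u = w := fun u w =>
      ⟨fun h => f.injective (mul_left_cancel₀ (pow_ne_zero 2 hs) h), fun h => by rw [h]⟩
    have e3 : ∀ u w : N, s ^ 3 * f u = -(s ^ 3 * f w) ↔ u = -w := fun u w =>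
      ⟨fun h => f.injective (mul_left_cancel₀ (pow_ne_zero 3 hs) (by rw [h, map_neg]; ring)),
        fun h => by rw [h, map_neg]; ring⟩
    by_cases hxy : x1 = x2 ∧ y1 = (crv A B).toAffine.negY x2 y2
    · have h3 : s ^ 2 * f x1 = s ^ 2 * f x2 := (e2 _ _).2 hxy.1
      have h4 : s ^ 3 * f y1 = (crv A' B').toAffine.negY (s ^ 2 * f x2) (s ^ 3 * f y2) := by
        rw [crv_negY]
        have := hxy.2
        rw [crv_negY] at this
        exact (e3 _ _).2 this
      show g0 _ = Affine.Point.some _ _ (hns h1) + Affine.Point.some _ _ (hns h2)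
      rw [Affine.Point.add_of_Y_eq hxy.1 hxy.2, Affine.Point.add_of_Y_eq h3 h4]
    · have hxy' : ¬ (s ^ 2 * f x1 = s ^ 2 * f x2 ∧
          s ^ 3 * f y1 = (crv A' B').toAffine.negY (s ^ 2 * f x2) (s ^ 3 * f y2)) := by
        rintro ⟨h3, h4⟩
        rw [crv_negY] at h4
        exact hxy ⟨(e2 _ _).1 h3, by rw [crv_negY]; exact (e3 _ _).1 h4⟩
      show g0 _ = Affine.Point.some _ _ (hns h1) + Affine.Point.some _ _ (hns h2)
      rw [Affine.Point.add_some hxy, Affine.Point.add_some hxy']
      show Affine.Point.some _ _ _ = Affine.Point.some _ _ _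
      have hsl := slope_tr (B := B) (B' := B') f hs hA x1 x2 y1 y2
      have hX : s ^ 2 * f ((crv A B).toAffine.addX x1 x2 ((crv A B).toAffine.slope x1 x2 y1 y2)) =
          (crv A' B').toAffine.addX (s ^ 2 * f x1) (s ^ 2 * f x2)
            ((crv A' B').toAffine.slope (s ^ 2 * f x1) (s ^ 2 * f x2) (s ^ 3 * f y1)
              (s ^ 3 * f y2)) := by
        rw [hsl]
        simp only [Affine.addX, crv, WeierstrassCurve.toAffine, map_add, map_sub, map_mul, map_pow,
          map_zero]
        ring
      have hY : s ^ 3 * f ((crv A B).toAffine.addY x1 x2 y1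
            ((crv A B).toAffine.slope x1 x2 y1 y2)) =
          (crv A' B').toAffine.addY (s ^ 2 * f x1) (s ^ 2 * f x2) (s ^ 3 * f y1)
            ((crv A' B').toAffine.slope (s ^ 2 * f x1) (s ^ 2 * f x2) (s ^ 3 * f y1)
              (s ^ 3 * f y2)) := by
        rw [hsl]
        simp only [Affine.addY, Affine.negAddY, Affine.negY, Affine.addX, crv,
          WeierstrassCurve.toAffine, map_add, map_sub, map_mul, map_pow, map_zero, map_neg]
        ring
      simp only [Affine.Point.some.injEq]
      exact ⟨hX, hY⟩
  let g : (crv A B).toAffine.Point →+ (crv A' B').toAffine.Point :=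
    { toFun := g0
      map_zero' := rfl
      map_add' := hadd }
  refine ⟨g, ?_, fun x y h => ⟨hns h, rfl⟩⟩
  rw [injective_iff_map_eq_zero]
  rintro (_ | ⟨x, y, h⟩) h0
  · rfl
  · exact absurd h0 (Affine.Point.some_ne_zero _)

lemma some_eq {k : Type} [Field k] {A B x y x' y' : k} {h : (crv A B).toAffine.Nonsingular x y}
    {h' : (crv A B).toAffine.Nonsingular x' y'} (hx : x = x') (hy : y = y') :
    (Affine.Point.some x y h : (crv A B).toAffine.Point) = Affine.Point.some x' y' h' := by
  subst hx hy
  rfl

/-- all points have finite order -/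
def Tor {k : Type} [Field k] [DecidableEq k] (A B : k) : Prop :=
  ∀ P : (crv A B).toAffine.Point, IsOfFinAddOrder P

/-- points with coordinates in the subfield -/
lemma tor_sub (i : N →+* F) {A B : N} (h1 : Tor A B) {u w : N}
    (h : (crv (i A) (i B)).toAffine.Nonsingular (i u) (i w)) :
    IsOfFinAddOrder (Affine.Point.some _ _ h : (crv (i A) (i B)).toAffine.Point) := by
  have hns : (crv A B).toAffine.Nonsingular u w := by
    rw [crv_ns] at h ⊢
    refine ⟨i.injective ?_, ?_⟩
    · simp only [map_add, map_mul, map_pow]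
      exact h.1
    · rcases h.2 with h3 | h3
      · left
        intro h4
        apply h3
        have := congrArg i h4
        simpa only [map_add, map_mul, map_pow, map_ofNat, map_zero] using this
      · right
        intro h4
        apply h3
        have := congrArg i h4
        simpa only [map_mul, map_ofNat, map_zero] using this
  obtain ⟨g, -, hg⟩ := exists_tr i (s := 1) one_ne_zero (A := A) (B := B) (A' := i A) (B' := i B)
    (by rw [one_pow, one_mul]) (by rw [one_pow, one_mul])
  obtain ⟨h', he⟩ := hg u w hns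
  have h5 : g (Affine.Point.some u w hns) = Affine.Point.some _ _ h := by
    rw [he]
    exact some_eq (by rw [one_pow, one_mul]) (by rw [one_pow, one_mul])
  rw [← h5]
  exact g.isOfFinAddOrder (h1 _)

/-- points of the twist -/
lemma tor_tw (i : N →+* F) {A B d : N} {x : F} (hx : x ^ 2 = i d) (hx0 : x ≠ 0)
    (h1 : Tor (A * d ^ 2) (B * d ^ 3)) {u w : N}
    (h : (crv (i A) (i B)).toAffine.Nonsingular (i u) (i w * x)) :
    IsOfFinAddOrder (Affine.Point.some _ _ h : (crv (i A) (i B)).toAffine.Point) := by
  have hd : i d ≠ 0 := by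
    rw [← hx]
    exact pow_ne_zero 2 hx0
  have hd0 : d ≠ 0 := fun h => hd (by rw [h, map_zero])
  have hx4 : x ^ 4 = i d ^ 2 := by rw [← hx]; ring
  have hx6 : x ^ 6 = i d ^ 3 := by rw [← hx]; ring
  have hns : (crv (A * d ^ 2) (B * d ^ 3)).toAffine.Nonsingular (d * u) (d ^ 2 * w) := by
    rw [crv_ns] at h ⊢
    refine ⟨i.injective ?_, ?_⟩
    · simp only [map_add, map_mul, map_pow]
      linear_combination (i d) ^ 3 * h.1 - (i d) ^ 3 * (i w) ^ 2 * hx
    · rcases h.2 with h3 | h3
      · left
        intro h4
        apply h3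
        have h5 := congrArg i h4
        simp only [map_add, map_mul, map_pow, map_ofNat, map_zero] at h5
        have h6 : (i d) ^ 2 * (3 * i u ^ 2 + i A) = 0 := by linear_combination h5
        exact (mul_eq_zero.1 h6).resolve_left (pow_ne_zero 2 hd)
      · right
        intro h4
        apply h3
        have h5 := congrArg i h4
        simp only [map_mul, map_pow, map_ofNat, map_zero] at h5
        have h6 : (i d) ^ 2 * (2 * i w) = 0 := by linear_combination h5
        have h7 := (mul_eq_zero.1 h6).resolve_left (pow_ne_zero 2 hd)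
        linear_combination x * h7
  obtain ⟨g, -, hg⟩ := exists_tr i (s := x⁻¹) (inv_ne_zero hx0) (A := A * d ^ 2) (B := B * d ^ 3)
    (A' := i A) (B' := i B)
    (by
      rw [map_mul, map_pow, ← hx4, inv_pow]
      field_simp)
    (by
      rw [map_mul, map_pow, ← hx6, inv_pow]
      field_simp)
  obtain ⟨h', he⟩ := hg _ _ hns
  have h5 : g (Affine.Point.some _ _ hns) = Affine.Point.some _ _ h := by
    rw [he]
    refine some_eq ?_ ?_
    · rw [map_mul, ← hx, inv_pow]
      field_simp
    · rw [map_mul, map_pow, ← hx, inv_pow]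
      field_simp
  rw [← h5]
  exact g.isOfFinAddOrder (h1 _)

lemma tor_two {G : Type} [AddCommGroup G] {P : G} (h : IsOfFinAddOrder (P + P)) :
    IsOfFinAddOrder P := by
  rw [isOfFinAddOrder_iff_nsmul_eq_zero] at h ⊢
  obtain ⟨m, hm, h1⟩ := h
  refine ⟨m * 2, by omega, ?_⟩
  rw [mul_nsmul', two_nsmul, nsmul_add]
  rwa [nsmul_add] at h1

/-- **Quadratic extensions** -/
theorem quad_step (i : N →+* F) (h2 : (2 : N) ≠ 0) {d : N} {x : F} (hx : x ^ 2 = i d) (hx0 : x ≠ 0)
    (hspan : ∀ z : F, ∃ u v : N, z = i u + i v * x) {A B : N} (h1 : Tor A B)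
    (h1' : Tor (A * d ^ 2) (B * d ^ 3)) : Tor (i A) (i B) := by
  classical
  by_cases hr : ∃ m, i m = x
  · obtain ⟨m, rfl⟩ := hr
    rintro (_ | ⟨X, Y, h⟩)
    · exact IsOfFinAddOrder.zero
    · obtain ⟨u, v, rfl⟩ := hspan X
      obtain ⟨u', v', rfl⟩ := hspan Y
      have e1 : i u + i v * i m = i (u + v * m) := by rw [map_add, map_mul]
      have e2 : i u' + i v' * i m = i (u' + v' * m) := by rw [map_add, map_mul]
      have h' : (crv (i A) (i B)).toAffine.Nonsingular (i (u + v * m)) (i (u' + v' * m)) := by
        rw [← e1, ← e2]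
        exact h
      have h3 := tor_sub i h1 h'
      have h4 : (Affine.Point.some _ _ h : (crv (i A) (i B)).toAffine.Point) =
          Affine.Point.some _ _ h' := some_eq e1 e2
      rw [h4]
      exact h3
  · -- unique coordinates
    have huniq : ∀ a b a' b' : N, i a + i b * x = i a' + i b' * x → a = a' ∧ b = b' := by
      intro a b a' b' he
      have hb : b = b' := by
        by_contra hne
        apply hr
        refine ⟨(a' - a) / (b - b'), ?_⟩
        have h3 : i (b - b') ≠ 0 := (map_ne_zero i).2 (sub_ne_zero.2 hne)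
        rw [map_div₀, div_eq_iff h3, map_sub, map_sub]
        linear_combination -he
      subst hb
      exact ⟨i.injective (by linear_combination he), rfl⟩
    choose U V hUV using hspan
    have hU : ∀ a b : N, U (i a + i b * x) = a ∧ V (i a + i b * x) = b := fun a b =>
      huniq _ _ _ _ (hUV (i a + i b * x)).symm
    let σ : F →+* F :=
      { toFun := fun z => i (U z) - i (V z) * x
        map_one' := by
          obtain ⟨e1, e2⟩ := hU 1 0
          rw [map_one, map_zero, zero_mul, add_zero] at e1 e2
          rw [e1, e2, map_one, map_zero, zero_mul, sub_zero]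
        map_zero' := by
          obtain ⟨e1, e2⟩ := hU 0 0
          rw [map_zero, zero_mul, add_zero] at e1 e2
          rw [e1, e2, map_zero, zero_mul, sub_zero]
        map_mul' := fun z w => by
          have e0 : z * w = i (U z * U w + V z * V w * d) + i (U z * V w + V z * U w) * x := by
            conv_lhs => rw [hUV z, hUV w]
            simp only [map_add, map_mul]
            linear_combination (i (V z)) * (i (V w)) * hx
          obtain ⟨e1, e2⟩ := hU (U z * U w + V z * V w * d) (U z * V w + V z * U w)
          rw [← e0] at e1 e2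
          rw [e1, e2]
          simp only [map_add, map_mul]
          linear_combination -(i (V z)) * (i (V w)) * hx
        map_add' := fun z w => by
          have e0 : z + w = i (U z + U w) + i (V z + V w) * x := by
            conv_lhs => rw [hUV z, hUV w]
            simp only [map_add]
            ring
          obtain ⟨e1, e2⟩ := hU (U z + U w) (V z + V w)
          rw [← e0] at e1 e2
          rw [e1, e2]
          simp only [map_add]
          ring }
    have hσ : ∀ a b : N, σ (i a + i b * x) = i a - i b * x := by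
      intro a b
      show i (U _) - i (V _) * x = _
      rw [(hU a b).1, (hU a b).2]
    have hσi : ∀ a : N, σ (i a) = i a := by
      intro a
      have := hσ a 0
      rwa [map_zero, zero_mul, add_zero, sub_zero] at this
    have hσσ : ∀ z, σ (σ z) = z := by
      intro z
      have e1 : σ z = i (U z) + i (-(V z)) * x := by
        rw [map_neg]
        show i (U z) - i (V z) * x = _
        ring
      rw [e1, hσ, map_neg, neg_mul, sub_neg_eq_add, ← hUV]
    have hi2 : (2 : F) ≠ 0 := by
      intro h3
      apply h2
      apply i.injective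
      rw [map_ofNat, map_zero]
      exact h3
    have hfix : ∀ z, σ z = z → z = i (U z) := by
      intro z hz
      have e1 : i (U z) - i (V z) * x = z := hz
      have e2 := hUV z
      have e3 : 2 * (i (V z) * x) = 0 := by linear_combination -e1 - e2
      have e4 : i (V z) * x = 0 := (mul_eq_zero.1 e3).resolve_left hi2
      rw [e4, add_zero] at e2
      exact e2
    have hanti : ∀ z, σ z = -z → z = i (V z) * x := by
      intro z hz
      have e1 : i (U z) - i (V z) * x = -z := hz
      have e2 := hUV z
      have e3 : 2 * i (U z) = 0 := by linear_combination e1 - e2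
      have e4 : i (U z) = 0 := (mul_eq_zero.1 e3).resolve_left hi2
      rw [e4, zero_add] at e2
      exact e2
    obtain ⟨g, -, hg⟩ := exists_tr σ (s := 1) one_ne_zero (A := i A) (B := i B) (A' := i A)
      (B' := i B) (by rw [hσi, one_pow, one_mul]) (by rw [hσi, one_pow, one_mul])
    have hgg : ∀ P, g (g P) = P := by
      rintro (_ | ⟨X, Y, h⟩)
      · show g (g 0) = 0
        rw [map_zero, map_zero]
      · obtain ⟨h', he⟩ := hg X Y h
        obtain ⟨h'', he'⟩ := hg _ _ h'
        rw [he, he']
        refine some_eq ?_ ?_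
        · rw [one_pow, one_mul, one_mul, hσσ]
        · rw [one_pow, one_mul, one_mul, hσσ]
    intro P
    apply tor_two
    have hsum : P + P = (P + g P) + (P - g P) := by abel
    rw [hsum]
    have hR : IsOfFinAddOrder (P + g P) := by
      have h3 : g (P + g P) = P + g P := by rw [map_add, hgg, add_comm]
      revert h3
      generalize P + g P = R
      intro h3
      rcases R with _ | ⟨X, Y, h⟩
      · exact IsOfFinAddOrder.zero
      · obtain ⟨h', he⟩ := hg X Y h
        rw [he] at h3
        simp only [one_pow, one_mul, Affine.Point.some.injEq] at h3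
        have hX := hfix X h3.1
        have hY := hfix Y h3.2
        have h4 : (crv (i A) (i B)).toAffine.Nonsingular (i (U X)) (i (U Y)) := by
          rw [← hX, ← hY]
          exact h
        have h5 := tor_sub i h1 h4
        have h6 : (Affine.Point.some _ _ h : (crv (i A) (i B)).toAffine.Point) =
          Affine.Point.some _ _ h4 := some_eq hX hY
        rw [h6]
        exact h5
    have hS : IsOfFinAddOrder (P - g P) := by
      have h3 : g (P - g P) = -(P - g P) := by rw [map_sub, hgg]; abel
      revert h3
      generalize P - g P = R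
      intro h3
      rcases R with _ | ⟨X, Y, h⟩
      · exact IsOfFinAddOrder.zero
      · obtain ⟨h', he⟩ := hg X Y h
        rw [he, Affine.Point.neg_some] at h3
        simp only [one_pow, one_mul, Affine.Point.some.injEq, crv_negY] at h3
        have hX := hfix X h3.1
        have hY := hanti Y h3.2
        have h4 : (crv (i A) (i B)).toAffine.Nonsingular (i (U X)) (i (V Y) * x) := by
          rw [← hX, ← hY]
          exact h
        have h5 := tor_tw i hx hx0 h1' h4
        have h6 : (Affine.Point.some _ _ h : (crv (i A) (i B)).toAffine.Point) =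
          Affine.Point.some _ _ h4 := some_eq hX hY
        rw [h6]
        exact h5
    exact hR.add hS

/-- scaling -/
lemma tor_scale {A B g : N} (hg : g ≠ 0) (h : Tor A B) : Tor (A * g ^ 4) (B * g ^ 6) := by
  obtain ⟨φ, -, hφ⟩ := exists_tr (RingHom.id N) (s := g) hg (A := A) (B := B) (A' := A * g ^ 4)
    (B' := B * g ^ 6) (by rw [RingHom.id_apply, mul_comm]) (by rw [RingHom.id_apply, mul_comm])
  obtain ⟨ψ, hψ, -⟩ := exists_tr (RingHom.id N) (s := g⁻¹) (inv_ne_zero hg) (A := A * g ^ 4)
    (B := B * g ^ 6) (A' := A) (B' := B)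
    (by
      rw [RingHom.id_apply, inv_pow]
      field_simp)
    (by
      rw [RingHom.id_apply, inv_pow]
      field_simp)
  intro P
  have h1 := h (ψ P)
  exact (hψ.isOfFinAddOrder_iff (f := ψ)).1 h1

end tr

end Pool.Agent.K4H15.BW
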