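import Pool.Agent.K4H15.BW.Main

/-!
The Galois group of the tower.
-/

set_option autoImplicit false

namespace Pool.Agent.K4H15.BW

open NumberField IsDedekindDomain ComplexConjugate IntermediateField
open Pool.Agent.K4H55.BI (IQ trace_iq norm_iq)
open Pool.Agent.K4H55.BD (tau sg_tau tau_tau cjK sg_cjK cjK_cjK coe_tau crv mw)

variable {K : Type} [Field K] [NumberField K] {σ : K →+* ℂ} {δ : K}

/-- ring homomorphisms and conjugation -/
lemma hom_conj (h : IQ K σ δ) {E : Type} [Field E] [CharZero E] (i : K →+* E) (s : E →+* E)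
    (k : K) : s (i k) = i k ∨ s (i k) = i (cjK h k) := by
  have h1 : k + cjK h k = algebraMap ℚ K (Algebra.trace ℚ K k) := by
    show k + (algebraMap ℚ K (Algebra.trace ℚ K k) - k) = _
    ring
  have h2 : k * cjK h k = algebraMap ℚ K (Algebra.norm ℚ k) := by
    apply σ.injective
    rw [map_mul, sg_cjK, ← norm_iq h]
    simp
  have e : ∀ q : ℚ, s (i (algebraMap ℚ K q)) = i (algebraMap ℚ K q) := by
    intro q
    simp
  have hx : i k + i (cjK h k) = i (algebraMap ℚ K (Algebra.trace ℚ K k)) := by rw [← map_add, h1]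
  have hx' : i k * i (cjK h k) = i (algebraMap ℚ K (Algebra.norm ℚ k)) := by rw [← map_mul, h2]
  have h6 : s (i k) ^ 2 - i (algebraMap ℚ K (Algebra.trace ℚ K k)) * s (i k) +
      i (algebraMap ℚ K (Algebra.norm ℚ k)) = 0 := by
    have h5 : k ^ 2 - algebraMap ℚ K (Algebra.trace ℚ K k) * k +
        algebraMap ℚ K (Algebra.norm ℚ k) = 0 := by
      rw [← h1, ← h2]
      ring
    have h7 := congrArg (fun z => s (i z)) h5
    simp only [map_add, map_sub, map_mul, map_pow, map_zero, e] at h7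
    exact h7
  have h3 : (s (i k) - i k) * (s (i k) - i (cjK h k)) = 0 := by
    linear_combination h6 - s (i k) * hx + hx'
  rcases mul_eq_zero.1 h3 with h4 | h4
  · exact Or.inl (sub_eq_zero.1 h4)
  · exact Or.inr (sub_eq_zero.1 h4)

/-- the square roots of the elements of `𝒟` -/
def roots (𝒟 : Set (𝓞 K)) : Set (AlgebraicClosure K) :=
  {x | ∃ D ∈ 𝒟, x ^ 2 = algebraMap K (AlgebraicClosure K) D}

/-- the tower -/
noncomputable def tower (𝒟 : Set (𝓞 K)) : IntermediateField K (AlgebraicClosure K) :=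
  IntermediateField.adjoin K (roots 𝒟)

omit [NumberField K] in
lemma root_mem {𝒟 : Set (𝓞 K)} {D : 𝓞 K} (hD : D ∈ 𝒟) {x : AlgebraicClosure K}
    (hx : x ^ 2 = algebraMap K (AlgebraicClosure K) D) : x ∈ tower 𝒟 :=
  IntermediateField.subset_adjoin K _ ⟨D, hD, hx⟩

theorem tower_normal (h : IQ K σ δ) {𝒟 : Set (𝓞 K)} (hcj : ∀ D ∈ 𝒟, tau h D ∈ 𝒟)
    (s : AlgebraicClosure K →+* AlgebraicClosure K) (z : AlgebraicClosure K) (hz : z ∈ tower 𝒟) :
    s z ∈ tower 𝒟 := by
  have hK : ∀ k : K, s (algebraMap K _ k) ∈ tower 𝒟 := by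
    intro k
    rcases hom_conj h (algebraMap K (AlgebraicClosure K)) s k with h1 | h1
    · rw [h1]; exact IntermediateField.algebraMap_mem _ _
    · rw [h1]; exact IntermediateField.algebraMap_mem _ _
  refine IntermediateField.adjoin_induction K (s := roots 𝒟)
    (p := fun z _ => s z ∈ tower 𝒟) ?_ hK ?_ ?_ ?_ hz
  · rintro x ⟨D, hD, hx⟩
    have h1 : s x ^ 2 = s (algebraMap K _ (D : K)) := by rw [← map_pow, hx]
    rcases hom_conj h (algebraMap K (AlgebraicClosure K)) s (D : K) with h2 | h2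
    · exact root_mem hD (h1.trans h2)
    · refine root_mem (hcj D hD) ?_
      rw [h1, h2, coe_tau]
  · intro x y _ _ hx hy
    rw [map_add]
    exact IntermediateField.add_mem _ hx hy
  · intro x _ hx
    rw [map_inv₀]
    exact IntermediateField.inv_mem _ hx
  · intro x y _ _ hx hy
    rw [map_mul]
    exact IntermediateField.mul_mem _ hx hy

theorem tower_galois (h : IQ K σ δ) {𝒟 : Set (𝓞 K)} (hcj : ∀ D ∈ 𝒟, tau h D ∈ 𝒟) :
    IsGalois ℚ (tower 𝒟) := by
  have h1 : Algebra.IsAlgebraic ℚ (AlgebraicClosure K) := Algebra.IsAlgebraic.trans ℚ K _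
  have h2 : IsAlgClosure ℚ (AlgebraicClosure K) := ⟨inferInstance, h1⟩
  have h3 : Normal ℚ (AlgebraicClosure K) := IsAlgClosure.normal ℚ (AlgebraicClosure K)
  have h4 := (IntermediateField.normal_iff_forall_map_le (K := (tower 𝒟).restrictScalars ℚ)).2 (by
    rintro s _ ⟨z, hz, rfl⟩
    exact tower_normal h hcj (s : AlgebraicClosure K →+* AlgebraicClosure K) z hz)
  have key : ∀ (A B : Algebra ℚ (tower 𝒟)), @Normal ℚ (tower 𝒟) _ _ A →
      @Normal ℚ (tower 𝒟) _ _ B := by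
    intro A B hA
    rwa [Subsingleton.elim B A]
  have h5 : Normal ℚ (tower 𝒟) := key _ _ h4
  exact ⟨⟩

theorem tower_noncomm (h : IQ K σ δ) {𝒟 : Set (𝓞 K)} (hcj : ∀ D ∈ 𝒟, tau h D ∈ 𝒟) {D : 𝓞 K}
    (hD : D ∈ 𝒟) (h1 : ¬ IsSquare (D : K)) (h2 : ¬ IsSquare ((D : K) * (tau h D : K))) :
    ∃ s t : tower 𝒟 ≃ₐ[ℚ] tower 𝒟, s * t ≠ t * s := by
  classical
  have hgal := tower_galois h hcj
  have hgalK : IsGalois K (tower 𝒟) := IsGalois.tower_top_of_isGalois ℚ K (tower 𝒟)
  -- the roots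
  obtain ⟨x, hx⟩ : ∃ x : tower 𝒟, x ^ 2 = algebraMap K (tower 𝒟) D := by
    obtain ⟨x, hx⟩ := IsAlgClosed.exists_pow_nat_eq (algebraMap K (AlgebraicClosure K) (D : K))
      two_pos
    exact ⟨⟨x, root_mem hD hx⟩, Subtype.ext hx⟩
  obtain ⟨x', hx'⟩ : ∃ x : tower 𝒟, x ^ 2 = algebraMap K (tower 𝒟) (tau h D) := by
    obtain ⟨x, hx⟩ := IsAlgClosed.exists_pow_nat_eq
      (algebraMap K (AlgebraicClosure K) (tau h D : K)) two_pos
    exact ⟨⟨x, root_mem (hcj D hD) hx⟩, Subtype.ext hx⟩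
  have hD0 : (D : K) ≠ 0 := fun h0 => h1 (by rw [h0]; exact ⟨0, by simp⟩)
  have hx0 : x ≠ 0 := by
    rintro rfl
    rw [zero_pow two_ne_zero] at hx
    exact hD0 ((map_eq_zero _).1 hx.symm)
  -- `x ∉ K(x')`
  have hxn : x ∉ IntermediateField.adjoin K {x'} := by
    intro hmem
    obtain ⟨u, hu, v, hv, huv⟩ := adjoin_insert (K := K) (∅ : Set (tower 𝒟)) (x := x')
      (by rw [hx']; exact IntermediateField.algebraMap_mem _ _) (z := x) (by
        rw [insert_empty_eq]
        exact hmem)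
    rw [IntermediateField.adjoin_empty, IntermediateField.mem_bot] at hu hv
    obtain ⟨u, rfl⟩ := hu
    obtain ⟨v, rfl⟩ := hv
    have h3 : algebraMap K (tower 𝒟) (D : K) = algebraMap K (tower 𝒟) (u ^ 2 + v ^ 2 * (tau h D : K)) +
        algebraMap K (tower 𝒟) (2 * u * v) * x' := by
      rw [← hx, huv]
      simp only [map_add, map_mul, map_pow, map_ofNat]
      linear_combination algebraMap K (tower 𝒟) v ^ 2 * hx'
    have hnsq' : ∀ w : K, algebraMap K (tower 𝒟) w ≠ x' := by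
      rintro w rfl
      rw [← map_pow] at hx'
      have h4 := (algebraMap K (tower 𝒟)).injective hx'
      have h5 := congrArg (cjK h) h4
      rw [map_pow, coe_tau, cjK_cjK] at h5
      exact h1 ⟨cjK h w, by rw [← h5, sq]⟩
    by_cases huv0 : 2 * u * v = 0
    · have h4 : u = 0 ∨ v = 0 := by
        rcases mul_eq_zero.1 huv0 with h5 | h5
        · left
          rcases mul_eq_zero.1 h5 with h6 | h6
          · norm_num at h6
          · exact h6
        · exact Or.inr h5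
      rw [huv0, map_zero, zero_mul, add_zero] at h3
      have h5 := (algebraMap K (tower 𝒟)).injective h3
      rcases h4 with rfl | rfl
      · apply h2
        refine ⟨v * (tau h D : K), ?_⟩
        rw [h5]
        ring
      · apply h1
        exact ⟨u, by rw [h5]; ring⟩
    · apply hnsq' (((D : K) - (u ^ 2 + v ^ 2 * (tau h D : K))) / (2 * u * v))
      have h4 : algebraMap K (tower 𝒟) (2 * u * v) ≠ 0 := (map_ne_zero _).2 huv0
      rw [map_div₀, map_sub, h3, add_sub_cancel_left, mul_div_cancel_left₀ _ h4]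
  -- `t`
  obtain ⟨t, ht, htx'⟩ : ∃ t : tower 𝒟 ≃ₐ[K] tower 𝒟, t x ≠ x ∧ t x' = x' := by
    have h3 : IsGalois (IntermediateField.adjoin K {x'}) (tower 𝒟) :=
      IsGalois.tower_top_of_isGalois K _ _
    have h4 : ¬ ∀ f : tower 𝒟 ≃ₐ[IntermediateField.adjoin K {x'}] tower 𝒟, f x = x := by
      intro h5
      obtain ⟨y, hy⟩ := (InfiniteGalois.mem_range_algebraMap_iff_fixed x).2 h5
      apply hxn
      rw [← hy]
      exact y.2
    push Not at h4
    obtain ⟨f, hf⟩ := h4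
    refine ⟨f.restrictScalars K, hf, ?_⟩
    exact f.commutes ⟨x', IntermediateField.mem_adjoin_simple_self K x'⟩
  have htneg : t x = -x := by
    have h3 : t x ^ 2 = x ^ 2 := by rw [← map_pow, hx, t.commutes]
    rcases sq_eq_sq_iff_eq_or_eq_neg.1 h3 with h4 | h4
    · exact absurd h4 ht
    · exact h4
  -- `s`
  obtain ⟨s, hs⟩ : ∃ s : tower 𝒟 ≃ₐ[ℚ] tower 𝒟, s (algebraMap K (tower 𝒟) D) =
      algebraMap K (tower 𝒟) (tau h D) := by
    by_contra hcon
    push Not at hcon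
    have h3 : ∀ s : tower 𝒟 ≃ₐ[ℚ] tower 𝒟, s (algebraMap K (tower 𝒟) D) =
        algebraMap K (tower 𝒟) D := by
      intro s
      rcases hom_conj h (algebraMap K (tower 𝒟)) (s : tower 𝒟 →+* tower 𝒟) (D : K) with h4 | h4
      · exact h4
      · rw [← coe_tau] at h4
        exact absurd h4 (hcon s)
    obtain ⟨q, hq⟩ := (InfiniteGalois.mem_range_algebraMap_iff_fixed _).2 h3
    rw [IsScalarTower.algebraMap_apply ℚ K (tower 𝒟)] at hq
    have h4 := (algebraMap K (tower 𝒟)).injective hq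
    apply h2
    refine ⟨(D : K), ?_⟩
    rw [coe_tau, ← h4, AlgHom.commutes]
  refine ⟨s, t.restrictScalars ℚ, fun hst => hx0 ?_⟩
  have h3 := DFunLike.congr_fun hst x
  have h4 : s (t x) = t (s x) := h3
  rw [htneg, map_neg] at h4
  have h5 : s x ^ 2 = x' ^ 2 := by rw [← map_pow, hx, hs, hx']
  have h6 : t (s x) = s x := by
    rcases sq_eq_sq_iff_eq_or_eq_neg.1 h5 with h7 | h7
    · rw [h7, htx']
    · rw [h7, map_neg, htx']
  rw [h6] at h4
  have h7 : (2 : tower 𝒟) * s x = 0 := by linear_combination -h4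
  rcases mul_eq_zero.1 h7 with h8 | h8
  · norm_num at h8
  · exact (map_eq_zero _).1 h8

theorem tower_inf (h : IQ K σ δ) {𝒟 : Set (𝓞 K)} (hcj : ∀ D ∈ 𝒟, tau h D ∈ 𝒟) {D : ℕ → 𝓞 K}
    (hD : ∀ j, D j ∈ 𝒟) (h1 : ∀ i j, i ≠ j → ¬ IsSquare ((D i : K) * (D j : K))) :
    ¬ FiniteDimensional K (tower 𝒟) := by
  intro hfin
  have hgal := tower_galois h hcj
  have hgalK : IsGalois K (tower 𝒟) := IsGalois.tower_top_of_isGalois ℚ K (tower 𝒟)
  have hroot : ∀ j, ∃ x : tower 𝒟, x ^ 2 = algebraMap K (tower 𝒟) (D j) := by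
    intro j
    obtain ⟨x, hx⟩ := IsAlgClosed.exists_pow_nat_eq (algebraMap K (AlgebraicClosure K) (D j : K))
      two_pos
    exact ⟨⟨x, root_mem (hD j) hx⟩, Subtype.ext hx⟩
  choose x hx using hroot
  have hfg : Finite (tower 𝒟 ≃ₐ[K] tower 𝒟) := inferInstance
  obtain ⟨i, j, hij, he⟩ := Finite.exists_ne_map_eq_of_infinite
    (fun (j : ℕ) => {g : tower 𝒟 ≃ₐ[K] tower 𝒟 | g (x j) = x j})
  apply h1 i j hij
  have hpm : ∀ (g : tower 𝒟 ≃ₐ[K] tower 𝒟) k, g (x k) ≠ x k → g (x k) = -x k := by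
    intro g k hk
    have h3 : g (x k) ^ 2 = x k ^ 2 := by rw [← map_pow, hx, g.commutes]
    rcases sq_eq_sq_iff_eq_or_eq_neg.1 h3 with h4 | h4
    · exact absurd h4 hk
    · exact h4
  have hfix : ∀ g : tower 𝒟 ≃ₐ[K] tower 𝒟, g (x i * x j) = x i * x j := by
    intro g
    have h2 : g (x i) = x i ↔ g (x j) = x j := by
      have := Set.ext_iff.1 he g
      exact this
    rw [map_mul]
    by_cases h3 : g (x i) = x i
    · rw [h3, h2.1 h3]
    · rw [hpm g i h3, hpm g j (fun h4 => h3 (h2.2 h4)), neg_mul_neg]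
  obtain ⟨y, hy⟩ := (InfiniteGalois.mem_range_algebraMap_iff_fixed _).2 hfix
  refine ⟨y, (algebraMap K (tower 𝒟)).injective ?_⟩
  rw [map_mul, map_mul, ← hx i, ← hx j, hy]
  ring

/-- the finite layers -/
theorem tower_fin {𝒟 : Set (𝓞 K)} (h0 : ∀ D ∈ 𝒟, D ≠ 0) (h1 : 1 ∈ 𝒟)
    (hmul : ∀ D ∈ 𝒟, ∀ D' ∈ 𝒟, ∃ D'' ∈ 𝒟, ∃ g : 𝓞 K, g ≠ 0 ∧ D'' * g ^ 2 = D * D') {a b : K}
    (hab : 4 * a ^ 3 + 27 * b ^ 2 ≠ 0)
    (hfin : ∀ D ∈ 𝒟, Finite (crv (a * (D : K) ^ 2) (b * (D : K) ^ 3)).toAffine.Point)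
    (F : IntermediateField K (AlgebraicClosure K)) (hF : F ≤ tower 𝒟) [FiniteDimensional K F] :
    Finite (crv (algebraMap K F a) (algebraMap K F b)).toAffine.Point := by
  classical
  have : NumberField F := NumberField.of_module_finite K F
  -- a generator
  obtain ⟨z, hz⟩ := Field.exists_primitive_element K F
  have hzm : (z : AlgebraicClosure K) ∈ IntermediateField.adjoin K (roots 𝒟) := hF z.2
  obtain ⟨T, hT, hzT⟩ := IntermediateField.exists_finset_of_mem_adjoin hzm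
  have hFT : F ≤ IntermediateField.adjoin K (T : Set (AlgebraicClosure K)) := by
    intro y hy
    have h2 : (⟨y, hy⟩ : F) ∈ IntermediateField.adjoin K {z} := by rw [hz]; trivial
    have h3 : y ∈ (IntermediateField.adjoin K {z}).map F.val := ⟨⟨y, hy⟩, h2, rfl⟩
    rw [IntermediateField.adjoin_map, Set.image_singleton] at h3
    have h4 : IntermediateField.adjoin K {F.val z} ≤
        IntermediateField.adjoin K (T : Set (AlgebraicClosure K)) := by
      rw [IntermediateField.adjoin_le_iff]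
      rintro _ rfl
      exact hzT
    exact h4 h3
  -- torsion
  have h3 := tor_multi (Ω := AlgebraicClosure K) (A := a) (B := b) two_ne_zero
    {D : K | ∃ D' ∈ 𝒟, (D' : K) = D}
    (by
      rintro _ ⟨D, hD, rfl⟩ h2
      exact h0 D hD (RingOfIntegers.ext h2))
    (by
      rintro _ ⟨D, hD, rfl⟩ _ ⟨D', hD', rfl⟩
      obtain ⟨D'', hD'', g, hg, h2⟩ := hmul D hD D' hD'
      refine ⟨_, ⟨D'', hD'', rfl⟩, (g : K), fun h3 => hg (RingOfIntegers.ext h3), ?_⟩
      rw [← map_mul, ← h2, map_mul, map_pow])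
    (by
      rintro _ ⟨D, hD, rfl⟩
      have := hfin D hD
      exact fun P => isOfFinAddOrder_of_finite P)
    T (fun x hx => by
      obtain ⟨D, hD, h2⟩ := hT hx
      exact ⟨_, ⟨D, hD, rfl⟩, h2⟩) 1 ⟨1, h1, map_one _⟩
  rw [one_pow, one_pow, mul_one, mul_one] at h3
  obtain ⟨f, hf, -⟩ := exists_tr (IntermediateField.inclusion hFT).toRingHom (s := 1) one_ne_zero
    (A := algebraMap K F a) (B := algebraMap K F b)
    (A' := algebraMap K (IntermediateField.adjoin K (T : Set (AlgebraicClosure K))) a)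
    (B' := algebraMap K (IntermediateField.adjoin K (T : Set (AlgebraicClosure K))) b)
    (by rw [one_pow, one_mul]; rfl) (by rw [one_pow, one_mul]; rfl)
  have hfg := mw F (algebraMap K F a) (algebraMap K F b) (by
    intro h4
    apply hab
    apply (algebraMap K F).injective
    rw [map_zero, ← h4]
    simp only [map_add, map_mul, map_pow, map_ofNat])
  have htor : IsAddTorsion (crv (algebraMap K F a) (algebraMap K F b)).toAffine.Point := by
    intro P
    exact hf.isOfFinAddOrder_iff.1 (h3 (f P))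
  exact AddCommGroup.finite_of_fg_isAddTorsion _ htor

end Pool.Agent.K4H15.BW
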