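import Pool.Agent.K4H15.BW.Cmp

/-!
Finitely supported families of signs, and infinite conjugation-stable groups.
-/

set_option autoImplicit false

namespace Pool.Agent.K4H15.BW

open Finset Pool.Agent.Y18.LP

section fs

variable (I : Type)

/-- the finitely supported families of signs -/
def FS : Subgroup (I → ℤˣ) where
  carrier := {γ | {i | γ i ≠ 1}.Finite}
  one_mem' := by simp
  mul_mem' := by
    intro a b ha hb
    refine (Set.Finite.union ha hb).subset ?_
    intro i hi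
    by_contra hcon
    rw [Set.mem_union, not_or] at hcon
    have h1 : a i = 1 := by simpa using hcon.1
    have h2 : b i = 1 := by simpa using hcon.2
    apply hi
    rw [Pi.mul_apply, h1, h2, one_mul]
  inv_mem' := by
    intro a ha
    refine Set.Finite.subset ha ?_
    intro i hi h1
    apply hi
    rw [Pi.inv_apply, h1, inv_one]

variable {I}

/-- the support -/
noncomputable def su (γ : FS I) : Finset I := γ.2.toFinset

lemma mem_su {γ : FS I} {i : I} : i ∈ su γ ↔ γ.1 i ≠ 1 := by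
  unfold su
  rw [Set.Finite.mem_toFinset]
  rfl

lemma fs_sq (γ : FS I) : γ * γ = 1 := by
  apply Subtype.ext
  funext i
  show γ.1 i * γ.1 i = 1
  exact Int.units_mul_self _

lemma su_one : su (1 : FS I) = ∅ := by
  ext i
  rw [mem_su]
  simp

open scoped symmDiff in
lemma su_mul [DecidableEq I] (γ γ' : FS I) : su (γ * γ') = su γ ∆ su γ' := by
  ext i
  rw [Finset.mem_symmDiff, mem_su, mem_su, mem_su]
  have h : (γ * γ').1 i = γ.1 i * γ'.1 i := rfl
  rw [h]
  rcases Int.units_eq_one_or (γ.1 i) with h1 | h1 <;> rcases Int.units_eq_one_or (γ'.1 i) with h2 | h2 <;>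
    simp [h1, h2]

/-- the conjugation -/
def tw (s : Equiv.Perm I) : FS I →* FS I where
  toFun γ := ⟨fun i => γ.1 (s i), by
    have h : {i | γ.1 (s i) ≠ 1} = s ⁻¹' {i | γ.1 i ≠ 1} := rfl
    show {i | γ.1 (s i) ≠ 1}.Finite
    rw [h]
    exact γ.2.preimage s.injective.injOn⟩
  map_one' := rfl
  map_mul' _ _ := rfl

lemma tw_apply (s : Equiv.Perm I) (γ : FS I) (i : I) : (tw s γ).1 i = γ.1 (s i) := rfl

lemma tw_tw {s : Equiv.Perm I} (hs : ∀ i, s (s i) = i) (γ : FS I) : tw s (tw s γ) = γ := by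
  apply Subtype.ext
  funext i
  rw [tw_apply, tw_apply, hs]

open Classical in
/-- one sign -/
noncomputable def sg (i : I) : FS I := ⟨fun j => if j = i then -1 else 1, by
  refine (Set.finite_singleton i).subset ?_
  intro j hj
  by_contra hne
  apply hj
  have : j ≠ i := hne
  simp [this]⟩

lemma sg_self (i : I) : (sg i).1 i = -1 := by
  unfold sg
  simp

lemma sg_ne {i j : I} (h : j ≠ i) : (sg i).1 j = 1 := by
  unfold sg
  simp [h]

end fs

variable {I : Type} {R : Subring ℂ} {W : Submodule R ℂ}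

/-- **Infinite conjugation-stable groups.** -/
theorem exists_group (hR : ∀ z : ℂ, z ^ 2 = 1 → z ∈ R) [IsNoetherianRing R] {P : Ideal R}
    (hP : P.IsMaximal) (hP1 : ∀ z : R, (z : ℂ) ^ 2 = 1 → 1 - z ∈ P) (hW : W.FG) {β : FS I → ℂ}
    (hβ : Good 2 P W β) (h1 : β 1 ≠ 0) [Infinite I] (s : Equiv.Perm I) (hs : ∀ i, s (s i) = i)
    (hs1 : ∀ i, s i ≠ i) :
    ∃ (G : Subgroup (FS I)) (y : ℕ → FS I) (i : ℕ → I), (∀ x ∈ G, tw s x ∈ G) ∧
      (∀ x ∈ G, β x ≠ 0) ∧ (∀ m, y m ∈ G) ∧ (∀ m, (y m).1 (i m) = -1 ∧ (y m).1 (s (i m)) = 1) ∧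
      ∀ k m, k < m → (y k).1 (i m) = 1 ∧ (y k).1 (s (i m)) = 1 := by
  classical
  have step : ∀ F : {F : Subgroup (FS I) // St (tw s) β F},
      ∃ F' : {F : Subgroup (FS I) // St (tw s) β F}, F.1 ≤ F'.1 ∧ ∃ y ∈ F'.1, ∃ i : I,
        (y.1 i = -1 ∧ y.1 (s i) = 1) ∧ ∀ g ∈ F.1, g.1 i = 1 ∧ g.1 (s i) = 1 := by
    rintro ⟨F, hF⟩
    obtain ⟨K, hK⟩ := ext_one' hR hP hP1 hW hβ fs_sq (tw s) (tw_tw hs) hF
    -- an index outside of everything
    let J : Finset I := (K ∪ hF.fin.toFinset).biUnion fun γ => su γ ∪ su (tw s γ)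
    obtain ⟨i, hi⟩ := Infinite.exists_notMem_finset J
    have hout : ∀ γ ∈ K ∪ hF.fin.toFinset, γ.1 i = 1 ∧ γ.1 (s i) = 1 := by
      intro γ hγ
      constructor
      · by_contra hne
        exact hi (Finset.mem_biUnion.2 ⟨γ, hγ, Finset.mem_union_left _ (mem_su.2 hne)⟩)
      · by_contra hne
        exact hi (Finset.mem_biUnion.2 ⟨γ, hγ, Finset.mem_union_right _ (mem_su.2 hne)⟩)
    obtain ⟨k, hk, F', hFF', hy, hF'⟩ := hK (sg i)
    refine ⟨⟨F', hF'⟩, hFF', sg i * k, hy, i, ⟨?_, ?_⟩, fun g hg => ?_⟩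
    · show (sg i).1 i * k.1 i = -1
      rw [sg_self, (hout k (Finset.mem_union_left _ hk)).1, mul_one]
    · show (sg i).1 (s i) * k.1 (s i) = 1
      rw [sg_ne (hs1 i), (hout k (Finset.mem_union_left _ hk)).2, mul_one]
    · exact hout g (Finset.mem_union_right _ (hF.fin.mem_toFinset.2 hg))
  choose nx hle y hy i hi hout using step
  let F0 : {F : Subgroup (FS I) // St (tw s) β F} := ⟨⊥, by
    refine ⟨by simp, fun x hx => ?_, fun x hx => ?_⟩
    · rw [Subgroup.mem_bot] at hx ⊢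
      rw [hx, map_one]
    · rw [Subgroup.mem_bot] at hx
      rwa [hx]⟩
  let S : ℕ → {F : Subgroup (FS I) // St (tw s) β F} := fun n => Nat.rec F0 (fun _ F => nx F) n
  have hS : ∀ n, S (n + 1) = nx (S n) := fun n => rfl
  have hmono : Monotone fun n => (S n).1 := by
    refine monotone_nat_of_le_succ fun n => ?_
    rw [hS]
    exact hle _
  have hmem : ∀ x, x ∈ ⨆ n, (S n).1 ↔ ∃ n, x ∈ (S n).1 := fun x =>
    Subgroup.mem_iSup_of_directed hmono.directed_le
  refine ⟨⨆ n, (S n).1, fun m => y (S m), fun m => i (S m), ?_, ?_, ?_, ?_, ?_⟩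
  · intro x hx
    rw [hmem] at hx ⊢
    obtain ⟨n, hn⟩ := hx
    exact ⟨n, (S n).2.inv x hn⟩
  · intro x hx
    obtain ⟨n, hn⟩ := (hmem x).1 hx
    exact (S n).2.nv x hn
  · intro m
    rw [hmem]
    exact ⟨m + 1, hy (S m)⟩
  · exact fun m => hi (S m)
  · intro k m hkm
    have h2 : y (S k) ∈ (S m).1 := hmono (show k + 1 ≤ m from hkm) (hy (S k))
    exact hout (S m) _ h2

end Pool.Agent.K4H15.BW
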