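import Mathlib

/-!
Jacobi symbols and binary quadratic forms.
-/

set_option autoImplicit false

namespace Pool.Agent.K4H15.BW

open scoped NumberTheorySymbols

lemma two_pow_odd {n : ℤ} (hn : n ≠ 0) : ∃ (k : ℕ) (m : ℤ), Odd m ∧ n = 2 ^ k * m := by
  obtain ⟨k, m, hm, he⟩ := Nat.exists_eq_two_pow_mul_odd (n := n.natAbs) (Int.natAbs_ne_zero.2 hn)
  rcases Int.natAbs_eq n with h | h
  · refine ⟨k, m, by exact_mod_cast hm, ?_⟩
    rw [h, he]
    push_cast
    ring
  · refine ⟨k, -m, ?_, ?_⟩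
    · rw [odd_neg]
      exact_mod_cast hm
    · rw [h, he]
      push_cast
      ring

/-- reciprocity for signed odd integers -/
lemma jac_signed {p : ℕ} (hp : Odd p) {n : ℤ} (hn : Odd n) (h : p % 4 = 1 ∨ n % 4 = 1) :
    jacobiSym n p = jacobiSym p n.natAbs := by
  have hm : Odd n.natAbs := Int.natAbs_odd.2 hn
  rcases le_or_gt 0 n with h0 | h0
  · obtain ⟨m, rfl⟩ := Int.eq_ofNat_of_zero_le h0
    simp only [Int.natAbs_natCast] at hm ⊢
    rcases h with h | h
    · exact (jacobiSym.quadratic_reciprocity_one_mod_four h hm).symm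
    · exact jacobiSym.quadratic_reciprocity_one_mod_four (by omega) hp
  · obtain ⟨m, hm'⟩ : ∃ m : ℕ, n = -(m : ℤ) := ⟨n.natAbs, by omega⟩
    subst hm'
    simp only [Int.natAbs_neg, Int.natAbs_natCast] at hm ⊢
    have h1 : jacobiSym (-(m : ℤ)) p = jacobiSym (-1) p * jacobiSym m p := by
      rw [← jacobiSym.mul_left]
      congr 1
      ring
    rw [h1, jacobiSym.at_neg_one hp]
    have hp2 := Nat.odd_iff.1 hp
    have hm2 := Nat.odd_iff.1 hm
    rcases Nat.lt_or_ge (p % 4) 2 with h2 | h2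
    · have h3 : p % 4 = 1 := by omega
      rw [ZMod.χ₄_nat_one_mod_four h3, one_mul]
      exact (jacobiSym.quadratic_reciprocity_one_mod_four h3 hm).symm
    · have h3 : p % 4 = 3 := by omega
      have h4 : m % 4 = 3 := by omega
      rw [ZMod.χ₄_nat_three_mod_four h3, jacobiSym.quadratic_reciprocity_three_mod_four h4 h3]
      ring

/-- reciprocity for `q = 1 mod 8` -/
lemma jac_one {q : ℕ} (hq : q % 8 = 1) {k : ℕ} {m : ℤ} (hm : Odd m) :
    jacobiSym (2 ^ k * m) q = jacobiSym q m.natAbs := by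
  have hqo : Odd q := Nat.odd_iff.2 (by omega)
  rw [jacobiSym.mul_left, jacobiSym.pow_left, jacobiSym.at_two hqo,
    ZMod.χ₈_nat_eq_if_mod_eight, if_neg (by omega), if_pos (Or.inl hq), one_pow, one_mul]
  exact jac_signed hqo hm (Or.inl (by omega))

/-- a value of a form is a square modulo `d` -/
lemma jac_sq {c d t N : ℤ} {q : ℕ} (hq : (q : ℤ) = c ^ 2 + t * c * d + N * d ^ 2)
    (hcop : IsCoprime c d) {m : ℤ} (hm : m ∣ d) : jacobiSym q m.natAbs = 1 := by
  have h1 : (q : ℤ) % (m.natAbs : ℕ) = (c ^ 2) % (m.natAbs : ℕ) := by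
    apply Int.ModEq.eq
    refine Int.modEq_of_dvd ?_
    rw [Int.natAbs_dvd, hq]
    obtain ⟨e, rfl⟩ := hm
    exact ⟨-(t * c * e + N * e * (m * e)), by ring⟩
  rw [jacobiSym.mod_left, h1, ← jacobiSym.mod_left]
  have h2 : IsCoprime c m := hcop.of_isCoprime_of_dvd_right hm
  rw [jacobiSym.pow_left]
  apply jacobiSym.sq_one
  rw [Int.gcd, Int.natAbs_natCast]
  exact Int.isCoprime_iff_gcd_eq_one.1 h2

lemma jac_ne {n : ℤ} {q : ℕ} (h : IsCoprime n q) : jacobiSym n q = 1 ∨ jacobiSym n q = -1 := by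
  apply jacobiSym.eq_one_or_neg_one
  exact Int.isCoprime_iff_gcd_eq_one.1 h

/-- the symbol of the determinant -/
lemma jac_det {a b c d t N : ℤ} {q P : ℕ} (hq : (q : ℤ) = c ^ 2 + t * c * d + N * d ^ 2)
    (hP : (P : ℤ) = a ^ 2 + t * a * b + N * b ^ 2) (hcd : IsCoprime c d) (hq8 : q % 8 = 1)
    (hy0 : b * c - a * d ≠ 0) (hyq : IsCoprime (b * c - a * d) (q : ℤ))
    (hyP : IsCoprime (b * c - a * d) (P : ℤ)) :
    ∃ (k : ℕ) (m : ℤ), Odd m ∧ b * c - a * d = 2 ^ k * m ∧
      jacobiSym d q * jacobiSym (a * d - b * c) q = jacobiSym P m.natAbs := by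
  have hqo : Odd q := Nat.odd_iff.2 (by omega)
  obtain ⟨k, m, hm, he⟩ := two_pow_odd hy0
  refine ⟨k, m, hm, he, ?_⟩
  have hm0 : m ∣ b * c - a * d := ⟨2 ^ k, by rw [he]; ring⟩
  have hd1 : jacobiSym d q = 1 := by
    by_cases hd : d = 0
    · subst hd
      have hc : IsUnit c := isCoprime_zero_right.1 hcd
      have h1 : q = 1 := by
        rcases Int.isUnit_iff.1 hc with rfl | rfl
        · have : (q : ℤ) = 1 := by rw [hq]; ring
          exact_mod_cast this
        · have : (q : ℤ) = 1 := by rw [hq]; ring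
          exact_mod_cast this
      rw [h1, jacobiSym.one_right]
    · obtain ⟨k', m', hm', he'⟩ := two_pow_odd hd
      rw [he', jac_one hq8 hm']
      exact jac_sq hq hcd ⟨2 ^ k', by rw [he']; ring⟩
  have h2 : jacobiSym (a * d - b * c) q = jacobiSym q m.natAbs := by
    have e : a * d - b * c = (-1) * (2 ^ k * m) := by rw [← he]; ring
    rw [e, jacobiSym.mul_left, jacobiSym.at_neg_one hqo, ZMod.χ₄_nat_one_mod_four (by omega),
      one_mul, jac_one hq8 hm]
  rw [hd1, one_mul, h2]
  -- the product is a square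
  have hprod : jacobiSym ((P : ℤ) * q) m.natAbs = 1 := by
    have h3 : ((P * q : ℕ) : ℤ) = (a * c + b * d * N + a * d * t) ^ 2 +
        t * (a * c + b * d * N + a * d * t) * (b * c - a * d) + N * (b * c - a * d) ^ 2 := by
      push_cast
      rw [hP, hq]
      ring
    have h4 : IsCoprime (a * c + b * d * N + a * d * t) (b * c - a * d) := by
      have h5 : IsCoprime ((P * q : ℕ) : ℤ) (b * c - a * d) := by
        push_cast
        exact (hyP.mul_right hyq).symm
      rw [h3] at h5
      have h6 : IsCoprime ((a * c + b * d * N + a * d * t) ^ 2 + (b * c - a * d) *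
          (t * (a * c + b * d * N + a * d * t) + N * (b * c - a * d))) (b * c - a * d) := by
        have e : (a * c + b * d * N + a * d * t) ^ 2 + (b * c - a * d) *
          (t * (a * c + b * d * N + a * d * t) + N * (b * c - a * d)) =
          (a * c + b * d * N + a * d * t) ^ 2 +
          t * (a * c + b * d * N + a * d * t) * (b * c - a * d) + N * (b * c - a * d) ^ 2 := by ring
        rw [e]
        exact h5
      have h7 := IsCoprime.of_add_mul_left_left h6
      exact (IsCoprime.pow_left_iff two_pos).1 h7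
    have h8 := jac_sq h3 h4 hm0
    push_cast at h8
    exact h8
  rw [jacobiSym.mul_left] at hprod
  have h9 : jacobiSym P m.natAbs * jacobiSym P m.natAbs = 1 := by
    have h10 : IsCoprime (P : ℤ) (m.natAbs : ℕ) := by
      have h11 : IsCoprime (P : ℤ) m := (hyP.symm).of_isCoprime_of_dvd_right hm0
      rcases Int.natAbs_eq m with h | h
      · rw [← h]; exact h11
      · have : ((m.natAbs : ℕ) : ℤ) = -m := by omega
        rw [this]
        exact h11.neg_right
    rcases jac_ne h10 with h | h <;> rw [h] <;> norm_num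
  calc jacobiSym q m.natAbs = (jacobiSym P m.natAbs * jacobiSym P m.natAbs) *
        jacobiSym q m.natAbs := by rw [h9, one_mul]
    _ = jacobiSym P m.natAbs * (jacobiSym P m.natAbs * jacobiSym q m.natAbs) := by ring
    _ = jacobiSym P m.natAbs := by rw [hprod, mul_one]

/-- **Reciprocity** -/
theorem jac_recip {a b c d t N : ℤ} {q p : ℕ} (hq : (q : ℤ) = c ^ 2 + t * c * d + N * d ^ 2)
    (hp : (p : ℤ) = a ^ 2 + t * a * b + N * b ^ 2) (hcd : IsCoprime c d) (hab : IsCoprime a b)
    (hc : (8 : ℤ) ∣ c - 1) (hd : (8 : ℤ) ∣ d) (hpo : Odd p) (hb : b ≠ 0)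
    (hy0 : b * c - a * d ≠ 0) (hyq : IsCoprime (b * c - a * d) (q : ℤ))
    (hyp : IsCoprime (b * c - a * d) (p : ℤ)) :
    jacobiSym d q * jacobiSym (a * d - b * c) q = jacobiSym b p * jacobiSym (b * c - a * d) p := by
  obtain ⟨c', hc'⟩ := hc
  obtain ⟨d', hd'⟩ := hd
  have hq8 : q % 8 = 1 := by
    have h1 : (q : ℤ) % 8 = 1 := by
      have : (q : ℤ) = 1 + 8 * (8 * c' ^ 2 + 2 * c' + t * c * d' + 8 * N * d' ^ 2) := by
        rw [hq, hd', show c = 8 * c' + 1 by omega]
        ring
      omega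
    omega
  obtain ⟨k, m, hm, he, h1⟩ := jac_det hq hp hcd hq8 hy0 hyq hyp
  rw [h1]
  obtain ⟨j, b1, hb1, heb⟩ := two_pow_odd hb
  have hpb : jacobiSym p b1.natAbs = 1 := jac_sq hp hab ⟨2 ^ j, by rw [heb]; ring⟩
  have hp2 := Nat.odd_iff.1 hpo
  by_cases h8 : (8 : ℤ) ∣ b
  · -- `p = 1 mod 8`
    obtain ⟨b', hb'⟩ := h8
    have ha : a % 2 = 1 := by
      by_contra hne
      have ha2 : a % 2 = 0 := by omega
      obtain ⟨a', ha'⟩ : ∃ a', a = 2 * a' := ⟨a / 2, by omega⟩
      have : (p : ℤ) = 2 * (2 * a' ^ 2 + 8 * t * a' * b' + 32 * N * b' ^ 2) := by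
        rw [hp, ha', hb']
        ring
      omega
    obtain ⟨a', ha'⟩ : ∃ a', a = 2 * a' + 1 := ⟨a / 2, by omega⟩
    have hp8 : p % 8 = 1 := by
      obtain ⟨e, he'⟩ : ∃ e, a' * (a' + 1) = 2 * e := by
        obtain ⟨e, he'⟩ := (Int.even_mul_succ_self a')
        exact ⟨e, by rw [he']; ring⟩
      have : (p : ℤ) = 1 + 8 * (e + t * a * b' + 8 * N * b' ^ 2) := by
        rw [hp, hb']
        have : a ^ 2 = 1 + 4 * (a' * (a' + 1)) := by rw [ha']; ring
        rw [this, he']
        ring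
      omega
    rw [he, jac_one hp8 hm, heb, jac_one hp8 hb1, hpb, one_mul]
  · -- the 2-adic valuations agree
    have hj : j ≤ 2 := by
      by_contra hcon
      apply h8
      rw [heb]
      obtain ⟨i, hi⟩ := Nat.exists_eq_add_of_le (show 3 ≤ j by omega)
      refine ⟨2 ^ i * b1, ?_⟩
      rw [hi, pow_add]
      ring
    have hmod : (8 : ℤ) ∣ 2 ^ k * m - 2 ^ j * b1 := by
      rw [← he, ← heb, hd', show c = 8 * c' + 1 by omega]
      exact ⟨b * c' - a * d', by ring⟩
    have hb12 : b1 % 2 = 1 := Int.odd_iff.1 hb1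
    have hm2 : m % 2 = 1 := Int.odd_iff.1 hm
    have hkj : k = j := by
      rcases Nat.lt_trichotomy k j with h | h | h
      · exfalso
        obtain ⟨i, hi⟩ := Nat.exists_eq_add_of_lt h
        obtain ⟨w, hw⟩ := hmod
        have h2 : (2 : ℤ) ^ k * m = 2 ^ k * (2 * (2 ^ i * b1)) + 8 * w := by
          have : (2 : ℤ) ^ j = 2 ^ k * (2 * 2 ^ i) := by rw [hi]; ring
          rw [this] at hw
          linear_combination hw
        have hk : k ≤ 1 := by omega
        interval_cases k
        · omega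
        · omega
      · exact h
      · exfalso
        obtain ⟨i, hi⟩ := Nat.exists_eq_add_of_lt h
        obtain ⟨w, hw⟩ := hmod
        have h2 : (2 : ℤ) ^ j * b1 = 2 ^ j * (2 * (2 ^ i * m)) - 8 * w := by
          have : (2 : ℤ) ^ k = 2 ^ j * (2 * 2 ^ i) := by rw [hi]; ring
          rw [this] at hw
          linear_combination -hw
        interval_cases j
        · omega
        · omega
        · omega
    subst hkj
    have h2k : jacobiSym (2 ^ k) p * jacobiSym (2 ^ k) p = 1 := by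
      have h3 : IsCoprime (2 : ℤ) (p : ℤ) := by
        have := Int.isCoprime_iff_gcd_eq_one.2 (show Int.gcd 2 (p : ℤ) = 1 by
          rw [Int.gcd]
          simp only [Int.natAbs_natCast]
          exact (Nat.coprime_two_left).2 hpo)
        exact this
      rcases jac_ne (h3.pow_left (m := k)) with h | h <;> rw [h] <;> norm_num
    have hsplit : jacobiSym b p * jacobiSym (b * c - a * d) p =
        jacobiSym b1 p * jacobiSym m p := by
      rw [heb, ← heb, he, heb, jacobiSym.mul_left, jacobiSym.mul_left]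
      calc jacobiSym (2 ^ k) p * jacobiSym b1 p * (jacobiSym (2 ^ k) p * jacobiSym m p) =
            (jacobiSym (2 ^ k) p * jacobiSym (2 ^ k) p) * (jacobiSym b1 p * jacobiSym m p) := by ring
        _ = _ := by rw [h2k, one_mul]
    rw [hsplit]
    by_cases h4 : p % 4 = 1
    · rw [jac_signed hpo hb1 (Or.inl h4), jac_signed hpo hm (Or.inl h4), hpb, one_mul]
    · have hk1 : k ≤ 1 := by
        by_contra hcon
        apply h4
        have hk2 : k = 2 := by omega
        subst hk2
        have ha : a % 2 = 1 := by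
          by_contra hne
          obtain ⟨a', ha'⟩ : ∃ a', a = 2 * a' := ⟨a / 2, by omega⟩
          have : (p : ℤ) = 2 * (2 * a' ^ 2 + t * a' * b + 2 * N * b * b1) := by
            have hb4 : b = 4 * b1 := by rw [heb]; ring
            rw [hp, ha', hb4]
            ring
          omega
        obtain ⟨a', ha'⟩ : ∃ a', a = 2 * a' + 1 := ⟨a / 2, by omega⟩
        have : (p : ℤ) = 1 + 4 * (a' ^ 2 + a' + t * a * b1 + N * b * b1) := by
          have hb4 : b = 4 * b1 := by rw [heb]; ring
          rw [hp, ha', hb4]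
          ring
        omega
      have h5 : (m - b1) % 4 = 0 := by
        obtain ⟨w, hw⟩ := hmod
        interval_cases k
        · omega
        · omega
      rw [← jacobiSym.mul_left, jac_signed hpo (hb1.mul hm) (Or.inr ?_), Int.natAbs_mul,
        jacobiSym.mul_right' _ (Int.natAbs_ne_zero.2 (by rintro rfl; simp at hb12))
          (Int.natAbs_ne_zero.2 (by rintro rfl; simp at hm2)), hpb, one_mul]
      obtain ⟨w, hw⟩ : ∃ w, m = b1 + 4 * w := ⟨(m - b1) / 4, by omega⟩
      obtain ⟨u, hu⟩ : ∃ u, b1 = 2 * u + 1 := ⟨b1 / 2, by omega⟩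
      have : b1 * m = 1 + 4 * (u ^ 2 + u + b1 * w) := by
        rw [hw, hu]
        ring
      omega

/-- the units and the places over 2 -/
theorem jac_small {a b c d t N : ℤ} {q P : ℕ} (hq : (q : ℤ) = c ^ 2 + t * c * d + N * d ^ 2)
    (hP : (P : ℤ) = a ^ 2 + t * a * b + N * b ^ 2) (hcd : IsCoprime c d)
    (hc : (8 : ℤ) ∣ c - 1) (hd : (8 : ℤ) ∣ d) (hyq : IsCoprime (b * c - a * d) (q : ℤ))
    (hy0 : b * c - a * d ≠ 0) (h : P = 1 ∨ P = 2 ∧ (b = 1 ∨ b = -1)) :
    jacobiSym d q * jacobiSym (a * d - b * c) q = 1 := by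
  obtain ⟨c', hc'⟩ := hc
  obtain ⟨d', hd'⟩ := hd
  have hq8 : q % 8 = 1 := by
    have h1 : (q : ℤ) % 8 = 1 := by
      have : (q : ℤ) = 1 + 8 * (8 * c' ^ 2 + 2 * c' + t * c * d' + 8 * N * d' ^ 2) := by
        rw [hq, hd', show c = 8 * c' + 1 by omega]
        ring
      omega
    omega
  have hyP : IsCoprime (b * c - a * d) (P : ℤ) := by
    rcases h with h | ⟨h, hb⟩
    · rw [h]
      exact isCoprime_one_right
    · rw [h]
      have h1 : Odd (b * c - a * d) := by
        rw [hd', show c = 8 * c' + 1 by omega]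
        rcases hb with rfl | rfl
        · exact ⟨4 * c' - 4 * a * d', by ring⟩
        · exact ⟨-4 * c' - 4 * a * d' - 1, by ring⟩
      obtain ⟨w, hw⟩ := h1
      exact ⟨1, -w, by rw [hw]; push_cast; ring⟩
  obtain ⟨k, m, hm, he, h1⟩ := jac_det hq hP hcd hq8 hy0 hyq hyP
  rw [h1]
  rcases h with h | ⟨h, hb⟩
  · rw [h, Nat.cast_one]
    exact jacobiSym.one_left _
  · rw [h]
    have hodd : Odd m.natAbs := Int.natAbs_odd.2 hm
    have h2 := jacobiSym.at_two hodd
    rw [show ((2 : ℕ) : ℤ) = 2 from rfl, h2, ZMod.χ₈_nat_eq_if_mod_eight]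
    have hk0 : k = 0 := by
      by_contra hk
      obtain ⟨i, rfl⟩ := Nat.exists_eq_succ_of_ne_zero hk
      have h3 : b * c - a * d = 2 * (2 ^ i * m) := by rw [he, Nat.succ_eq_add_one, pow_succ]; ring
      rw [hd', show c = 8 * c' + 1 by omega] at h3
      rcases hb with rfl | rfl
      · have : (1 : ℤ) = 2 * (2 ^ i * m - 4 * c' + 4 * a * d') := by linear_combination h3
        omega
      · have : (-1 : ℤ) = 2 * (2 ^ i * m + 4 * c' + 4 * a * d') := by linear_combination h3
        omega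
    rw [hk0, pow_zero, one_mul, hd', show c = 8 * c' + 1 by omega] at he
    have h3 : (m - b) % 8 = 0 := by
      have : m - b = 8 * (b * c' - a * d') := by rw [← he]; ring
      omega
    rw [if_neg (by
      rw [Nat.odd_iff] at hodd
      omega), if_pos]
    rcases hb with rfl | rfl
    · omega
    · omega

end Pool.Agent.K4H15.BW
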