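import Pool.Agent.K4H15.BW.Fld

/-!
Points over multiquadratic extensions.
-/

set_option autoImplicit false

namespace Pool.Agent.K4H15.BW

open WeierstrassCurve Pool.Agent.K4H55.BD NumberField

variable {K Ω : Type} [Field K] [Field Ω] [Algebra K Ω] [DecidableEq K] [DecidableEq Ω]

/-- the field `M(x)`, `x² ∈ M` -/
def qf (M : IntermediateField K Ω) (x : Ω) (hx : x ^ 2 ∈ M) : IntermediateField K Ω where
  carrier := {z | ∃ u ∈ M, ∃ v ∈ M, z = u + v * x}
  mul_mem' := by
    rintro _ _ ⟨u, hu, v, hv, rfl⟩ ⟨u', hu', v', hv', rfl⟩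
    refine ⟨u * u' + v * v' * x ^ 2, M.add_mem (M.mul_mem hu hu') (M.mul_mem (M.mul_mem hv hv') hx),
      u * v' + v * u', M.add_mem (M.mul_mem hu hv') (M.mul_mem hv hu'), by ring⟩
  add_mem' := by
    rintro _ _ ⟨u, hu, v, hv, rfl⟩ ⟨u', hu', v', hv', rfl⟩
    exact ⟨u + u', M.add_mem hu hu', v + v', M.add_mem hv hv', by ring⟩
  algebraMap_mem' r := ⟨algebraMap K Ω r, M.algebraMap_mem r, 0, M.zero_mem, by ring⟩
  inv_mem' := by
    rintro _ ⟨u, hu, v, hv, rfl⟩
    by_cases h0 : u ^ 2 - v ^ 2 * x ^ 2 = 0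
    · have h1 : (u + v * x) * (u - v * x) = 0 := by linear_combination h0
      rcases mul_eq_zero.1 h1 with h2 | h2
      · rw [h2, inv_zero]
        exact ⟨0, M.zero_mem, 0, M.zero_mem, by ring⟩
      · have h3 : u + v * x = 2 * u := by linear_combination -h2
        rw [h3]
        refine ⟨(2 * u)⁻¹, M.inv_mem (M.mul_mem ?_ hu), 0, M.zero_mem, by ring⟩
        exact_mod_cast natCast_mem M 2
    · have hN : u ^ 2 - v ^ 2 * x ^ 2 ∈ M := by
        have hu2 : u ^ 2 ∈ M := by rw [sq]; exact M.mul_mem hu hu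
        have hv2 : v ^ 2 ∈ M := by rw [sq]; exact M.mul_mem hv hv
        exact M.sub_mem hu2 (M.mul_mem hv2 hx)
      refine ⟨u * (u ^ 2 - v ^ 2 * x ^ 2)⁻¹, M.mul_mem hu (M.inv_mem hN),
        -v * (u ^ 2 - v ^ 2 * x ^ 2)⁻¹, M.mul_mem (M.neg_mem hv) (M.inv_mem hN), ?_⟩
      refine inv_eq_of_mul_eq_one_right ?_
      have e : (u + v * x) * (u * (u ^ 2 - v ^ 2 * x ^ 2)⁻¹ +
          -v * (u ^ 2 - v ^ 2 * x ^ 2)⁻¹ * x) =
          (u ^ 2 - v ^ 2 * x ^ 2) * (u ^ 2 - v ^ 2 * x ^ 2)⁻¹ := by ring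
      rw [e, mul_inv_cancel₀ h0]

lemma adjoin_insert (T : Set Ω) {x : Ω} (hx : x ^ 2 ∈ IntermediateField.adjoin K T) {z : Ω}
    (hz : z ∈ IntermediateField.adjoin K (insert x T)) :
    ∃ u ∈ IntermediateField.adjoin K T, ∃ v ∈ IntermediateField.adjoin K T, z = u + v * x := by
  have h1 : IntermediateField.adjoin K (insert x T) ≤ qf (IntermediateField.adjoin K T) x hx := by
    rw [IntermediateField.adjoin_le_iff]
    rintro y (rfl | hy)
    · exact ⟨0, IntermediateField.zero_mem _, 1, IntermediateField.one_mem _, by ring⟩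
    · exact ⟨y, IntermediateField.subset_adjoin K T hy, 0, IntermediateField.zero_mem _, by ring⟩
  exact h1 hz

/-- **Multiquadratic extensions** -/
theorem tor_multi (h2 : (2 : K) ≠ 0) {A B : K} (𝒟 : Set K) (h0 : ∀ D ∈ 𝒟, D ≠ 0)
    (hmul : ∀ D ∈ 𝒟, ∀ D' ∈ 𝒟, ∃ D'' ∈ 𝒟, ∃ g : K, g ≠ 0 ∧ D'' * g ^ 2 = D * D')
    (h : ∀ D ∈ 𝒟, Tor (A * D ^ 2) (B * D ^ 3)) (T : Finset Ω)
    (hT : ∀ x ∈ T, ∃ D ∈ 𝒟, x ^ 2 = algebraMap K Ω D) :
    ∀ D ∈ 𝒟, Tor (k := IntermediateField.adjoin K (T : Set Ω))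
      (algebraMap K (IntermediateField.adjoin K (T : Set Ω)) (A * D ^ 2))
      (algebraMap K (IntermediateField.adjoin K (T : Set Ω)) (B * D ^ 3)) := by
  induction T using Finset.induction_on with
  | empty =>
    intro D hD
    rintro (_ | ⟨X, Y, hXY⟩)
    · exact IsOfFinAddOrder.zero
    · have hbot : ∀ z : IntermediateField.adjoin K ((∅ : Finset Ω) : Set Ω), ∃ u : K,
          algebraMap K (IntermediateField.adjoin K ((∅ : Finset Ω) : Set Ω)) u = z := by
        rintro ⟨z, hz⟩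
        have hz' := hz
        rw [Finset.coe_empty, IntermediateField.adjoin_empty, IntermediateField.mem_bot] at hz'
        obtain ⟨u, hu⟩ := hz'
        exact ⟨u, Subtype.ext hu⟩
      obtain ⟨u, rfl⟩ := hbot X
      obtain ⟨w, rfl⟩ := hbot Y
      exact tor_sub _ (h D hD) hXY
  | insert x T hx ih =>
    intro D hD
    have ih' := ih fun y hy => hT y (Finset.mem_insert_of_mem hy)
    obtain ⟨D', hD', hxD⟩ := hT x (Finset.mem_insert_self x T)
    have hle : IntermediateField.adjoin K (T : Set Ω) ≤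
        IntermediateField.adjoin K ((insert x T : Finset Ω) : Set Ω) :=
      IntermediateField.adjoin.mono K _ _ (by rw [Finset.coe_insert]; exact Set.subset_insert _ _)
    have hxmem : x ∈ IntermediateField.adjoin K ((insert x T : Finset Ω) : Set Ω) :=
      IntermediateField.subset_adjoin K _ (by rw [Finset.coe_insert]; exact Set.mem_insert _ _)
    have hx2 : x ^ 2 ∈ IntermediateField.adjoin K (T : Set Ω) := by
      rw [hxD]
      exact IntermediateField.algebraMap_mem _ _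
    have hx0 : x ≠ 0 := by
      rintro rfl
      rw [zero_pow two_ne_zero] at hxD
      exact h0 D' hD' ((map_eq_zero _).1 hxD.symm)
    obtain ⟨D'', hD'', g, hg, hDD⟩ := hmul D hD D' hD'
    have key := quad_step (i := (IntermediateField.inclusion hle).toRingHom)
      (d := algebraMap K (IntermediateField.adjoin K (T : Set Ω)) D') (x := ⟨x, hxmem⟩)
      (by
        intro h3
        apply h2
        apply (algebraMap K (IntermediateField.adjoin K (T : Set Ω))).injective
        rw [map_ofNat, map_zero]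
        exact h3)
      (Subtype.ext hxD) (fun h3 => hx0 (congrArg Subtype.val h3))
      (by
        rintro ⟨z, hz⟩
        rw [Finset.coe_insert] at hz
        obtain ⟨u, hu, v, hv, rfl⟩ := adjoin_insert _ hx2 hz
        exact ⟨⟨u, hu⟩, ⟨v, hv⟩, rfl⟩)
      (ih' D hD) (by
        have h3 := tor_scale (g := algebraMap K (IntermediateField.adjoin K (T : Set Ω)) g)
          ((map_ne_zero _).2 hg) (ih' D'' hD'')
        have e1 : algebraMap K (IntermediateField.adjoin K (T : Set Ω)) (A * D ^ 2) *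
            algebraMap K (IntermediateField.adjoin K (T : Set Ω)) D' ^ 2 =
            algebraMap K (IntermediateField.adjoin K (T : Set Ω)) (A * D'' ^ 2) *
            algebraMap K (IntermediateField.adjoin K (T : Set Ω)) g ^ 4 := by
          rw [← map_pow, ← map_mul, ← map_pow, ← map_mul]
          congr 1
          linear_combination -A * (D'' * g ^ 2 + D * D') * hDD
        have e2 : algebraMap K (IntermediateField.adjoin K (T : Set Ω)) (B * D ^ 3) *
            algebraMap K (IntermediateField.adjoin K (T : Set Ω)) D' ^ 3 =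
            algebraMap K (IntermediateField.adjoin K (T : Set Ω)) (B * D'' ^ 3) *
            algebraMap K (IntermediateField.adjoin K (T : Set Ω)) g ^ 6 := by
          rw [← map_pow, ← map_mul, ← map_pow, ← map_mul]
          congr 1
          linear_combination -B * ((D'' * g ^ 2) ^ 2 + (D'' * g ^ 2) * (D * D') + (D * D') ^ 2) * hDD
        rw [e1, e2]
        exact h3)
    exact key

/-- the union -/
theorem tor_union (h2 : (2 : K) ≠ 0) {A B : K} (𝒟 : Set K) (h0 : ∀ D ∈ 𝒟, D ≠ 0)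
    (h1 : (1 : K) ∈ 𝒟)
    (hmul : ∀ D ∈ 𝒟, ∀ D' ∈ 𝒟, ∃ D'' ∈ 𝒟, ∃ g : K, g ≠ 0 ∧ D'' * g ^ 2 = D * D')
    (h : ∀ D ∈ 𝒟, Tor (A * D ^ 2) (B * D ^ 3))
    (hΩ : IntermediateField.adjoin K {x : Ω | ∃ D ∈ 𝒟, x ^ 2 = algebraMap K Ω D} = ⊤) :
    Tor (algebraMap K Ω A) (algebraMap K Ω B) := by
  rintro (_ | ⟨X, Y, hXY⟩)
  · exact IsOfFinAddOrder.zero
  · have hX : X ∈ IntermediateField.adjoin K {x : Ω | ∃ D ∈ 𝒟, x ^ 2 = algebraMap K Ω D} := by
      rw [hΩ]; exact IntermediateField.mem_top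
    have hY : Y ∈ IntermediateField.adjoin K {x : Ω | ∃ D ∈ 𝒟, x ^ 2 = algebraMap K Ω D} := by
      rw [hΩ]; exact IntermediateField.mem_top
    obtain ⟨T, hT, hXT⟩ := IntermediateField.exists_finset_of_mem_adjoin hX
    obtain ⟨T', hT', hYT⟩ := IntermediateField.exists_finset_of_mem_adjoin hY
    have h3 := tor_multi h2 𝒟 h0 hmul h (T ∪ T') (fun x hx => by
      rcases Finset.mem_union.1 hx with hx | hx
      · exact hT hx
      · exact hT' hx) 1 h1
    have hX2 : X ∈ IntermediateField.adjoin K ((T ∪ T' : Finset Ω) : Set Ω) :=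
      IntermediateField.adjoin.mono K _ _ (by rw [Finset.coe_union]; exact Set.subset_union_left) hXT
    have hY2 : Y ∈ IntermediateField.adjoin K ((T ∪ T' : Finset Ω) : Set Ω) :=
      IntermediateField.adjoin.mono K _ _ (by rw [Finset.coe_union]; exact Set.subset_union_right) hYT
    rw [one_pow, one_pow, mul_one, mul_one] at h3
    exact tor_sub (IntermediateField.val _).toRingHom h3 (u := ⟨X, hX2⟩) (w := ⟨Y, hY2⟩) hXY

end Pool.Agent.K4H15.BW
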