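import Pool.Agent.K4H15.BW.Twi
import Pool.Agent.K4H15.BW.Mul
import Pool.Agent.K4H55.BK.ShaB

/-!
The towers.
-/

set_option autoImplicit false

namespace Pool.Agent.K4H15.BW

open NumberField IsDedekindDomain ComplexConjugate Filter Topology WithZero
open Pool.Agent.K4H55.BI (IQ BF NVT Adm sym chiT gen gen_span gen_dvd gen_prime gen_na gen_inj efac NT
  nv_pos)
open Pool.Agent.K4H55.BD (cj tau tv sg_inj sg_cj sg_tau tau_tau tau_int mul_tau norm_nonneg' norm_eq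
  mem_tv sym_tv res_int int_mem sym_int chiT_mul sym_mul nv_cases norm_gen two_notMem uniq_over
  char_ne_two QE Ro densK bad_fin exists_over tv_ne mem_tv_nat pv pv_twist val_q QE_sub QA Cub
  no_root SelTriv crv)
open scoped symmDiff

variable {K : Type} [Field K] [NumberField K] {σ : K →+* ℂ} {δ : K}

/-- the swap -/
def sw : Equiv.Perm (ℕ × Bool) where
  toFun i := (i.1, !i.2)
  invFun i := (i.1, !i.2)
  left_inv i := by simp
  right_inv i := by simp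

lemma sw_sw (i : ℕ × Bool) : sw (sw i) = i := by
  show (i.1, !!i.2) = i
  simp

lemma sw_ne (i : ℕ × Bool) : sw i ≠ i := by
  intro h
  have h1 : (!i.2) = i.2 := congrArg Prod.snd h
  cases h2 : i.2 <;> rw [h2] at h1 <;> simp at h1

section blk

variable {h : IQ K σ δ} {a b n : 𝓞 K} {Q : Set ℕ} {N0 : ℕ}
  {B : ℕ × Bool → Finset (HeightOneSpectrum (𝓞 K))} {β : ℕ × Bool → 𝓞 K}

lemma Blk.tau_DX (hb : Blk h a b n Q N0 B β) (γ : FS (ℕ × Bool)) :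
    tau h (DX β (su γ)) = DX β (su (tw sw γ)) := by
  unfold DX
  rw [map_prod]
  refine Finset.prod_bij (fun i _ => sw i) (fun i hi => ?_) (fun i _ j _ hij => sw.injective hij)
    (fun i hi => ⟨sw i, ?_, sw_sw i⟩) (fun i _ => ?_)
  · rw [mem_su] at hi ⊢
    rwa [tw_apply, sw_sw]
  · rw [mem_su] at hi ⊢
    rwa [tw_apply] at hi
  · obtain ⟨j, b⟩ := i
    exact (hb.cnj j b).symm

omit [NumberField K] in
lemma DX_mul (X Y : Finset (ℕ × Bool)) : DX β (X ∆ Y) * DX β (X ∩ Y) ^ 2 = DX β X * DX β Y := by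
  classical
  unfold DX
  have h1 : X ∆ Y = (X \ Y) ∪ (Y \ X) := rfl
  have h2 : Disjoint (X \ Y) (Y \ X) := by
    rw [Finset.disjoint_left]
    intro i hi hi'
    rw [Finset.mem_sdiff] at hi hi'
    exact hi.2 hi'.1
  have h3 : ∏ i ∈ X, β i = (∏ i ∈ X \ Y, β i) * ∏ i ∈ X ∩ Y, β i := by
    rw [← Finset.prod_union, Finset.sdiff_union_inter]
    exact Finset.disjoint_sdiff_inter X Y
  have h4 : ∏ i ∈ Y, β i = (∏ i ∈ Y \ X, β i) * ∏ i ∈ X ∩ Y, β i := by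
    rw [Finset.inter_comm, ← Finset.prod_union, Finset.sdiff_union_inter]
    exact Finset.disjoint_sdiff_inter Y X
  rw [h1, Finset.prod_union h2, h3, h4]
  ring

/-- the valuation at the places outside -/
lemma Blk.val_out (hb : Blk h a b n Q N0 B β) {X : Finset (ℕ × Bool)} {v : HeightOneSpectrum (𝓞 K)}
    (hv : v ∉ TX B X) : v.valuation K (DX β X : K) = 1 := by
  show v.valuation K (algebraMap (𝓞 K) K (DX β X)) = 1
  rw [v.valuation_of_algebraMap]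
  exact HeightOneSpectrum.intValuation_eq_one_iff.2 fun h1 => hv (hb.mem.1 h1)

lemma Blk.mem_iff (hb : Blk h a b n Q N0 B β) {γ : FS (ℕ × Bool)} {i : ℕ × Bool}
    {v : HeightOneSpectrum (𝓞 K)} (hv : v ∈ B i) : v ∈ TX B (su γ) ↔ γ.1 i ≠ 1 := by
  rw [mem_TX]
  constructor
  · rintro ⟨j, hj, hvj⟩
    rw [hb.disj i j v hv hvj]
    exact mem_su.1 hj
  · intro h1
    exact ⟨i, mem_su.2 h1, hv⟩

lemma not_sq_exp {v : HeightOneSpectrum (𝓞 K)} {x : K} (h1 : v.valuation K x = exp (-1 : ℤ)) :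
    ¬ IsSquare x := by
  rintro ⟨z, rfl⟩
  rw [map_mul] at h1
  have hz : v.valuation K z ≠ 0 := by
    intro h2
    rw [h2, mul_zero] at h1
    exact exp_ne_zero h1.symm
  obtain ⟨k, hk⟩ : ∃ k : ℤ, v.valuation K z = exp k := ⟨log (v.valuation K z), (exp_log hz).symm⟩
  rw [hk, ← exp_add] at h1
  have := exp_injective h1
  omega

/-- the independence -/
lemma Blk.indep (hb : Blk h a b n Q N0 B β) {y : ℕ → FS (ℕ × Bool)} {i : ℕ → ℕ × Bool}
    (h1 : ∀ m, (y m).1 (i m) = -1 ∧ (y m).1 (sw (i m)) = 1)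
    (h2 : ∀ k m, k < m → (y k).1 (i m) = 1 ∧ (y k).1 (sw (i m)) = 1) (S S' : Finset ℕ)
    (hne : S.Nonempty ∨ S'.Nonempty) :
    ¬ IsSquare ((∏ j ∈ S, ((DX β (su (y j)) : 𝓞 K) : K)) *
      ∏ j ∈ S', ((tau h (DX β (su (y j))) : 𝓞 K) : K)) := by
  classical
  have hU : (S ∪ S').Nonempty := by
    rcases hne with h3 | h3
    · exact h3.mono Finset.subset_union_left
    · exact h3.mono Finset.subset_union_right
  set m := (S ∪ S').max' hU with hm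
  have hmU : m ∈ S ∪ S' := Finset.max'_mem _ hU
  have hle : ∀ k ∈ S ∪ S', k ≤ m := fun k hk => Finset.le_max' _ k hk
  -- values at `i m` and `sw (i m)`
  have hval : ∀ (j : ℕ × Bool) (v : HeightOneSpectrum (𝓞 K)), v ∈ B j → ∀ γ : FS (ℕ × Bool),
      v.valuation K ((DX β (su γ) : 𝓞 K) : K) = if γ.1 j = 1 then 1 else exp (-1 : ℤ) := by
    intro j v hv γ
    by_cases h3 : γ.1 j = 1
    · rw [if_pos h3]
      exact hb.val_out fun h4 => (hb.mem_iff hv).1 h4 h3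
    · rw [if_neg h3]
      exact (hb.val (hb.mem.2 ((hb.mem_iff hv).2 h3))).1
  have hneg : ((-1 : ℤˣ)) ≠ 1 := by decide
  have key : ∀ j : ℕ × Bool, (j = i m ∧ m ∈ S ∨ j = sw (i m) ∧ m ∉ S) →
      ∀ v ∈ B j, v.valuation K ((∏ j ∈ S, ((DX β (su (y j)) : 𝓞 K) : K)) *
        ∏ j ∈ S', ((tau h (DX β (su (y j))) : 𝓞 K) : K)) = exp (-1 : ℤ) := by
    intro j hj v hv
    rw [map_mul, map_prod, map_prod]
    have e1 : ∀ k, v.valuation K ((tau h (DX β (su (y k))) : 𝓞 K) : K) =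
        if (y k).1 (sw j) = 1 then 1 else exp (-1 : ℤ) := by
      intro k
      rw [hb.tau_DX, hval j v hv]
      rfl
    rw [Finset.prod_congr rfl fun k _ => hval j v hv (y k), Finset.prod_congr rfl fun k _ => e1 k]
    rcases hj with ⟨rfl, hmS⟩ | ⟨rfl, hmS⟩
    · -- `m ∈ S`
      have e2 : ∏ k ∈ S', (if (y k).1 (sw (i m)) = 1 then 1 else exp (-1 : ℤ)) = 1 := by
        refine Finset.prod_eq_one fun k hk => ?_
        rw [if_pos]
        rcases (hle k (Finset.mem_union_right _ hk)).lt_or_eq with h3 | h3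
        · exact (h2 k m h3).2
        · rw [h3]; exact (h1 m).2
      rw [e2, mul_one, ← Finset.mul_prod_erase _ _ hmS, if_neg (by rw [(h1 m).1]; exact hneg)]
      have e3 : ∏ k ∈ S.erase m, (if (y k).1 (i m) = 1 then 1 else exp (-1 : ℤ)) = 1 := by
        refine Finset.prod_eq_one fun k hk => ?_
        rw [Finset.mem_erase] at hk
        rw [if_pos]
        exact (h2 k m (lt_of_le_of_ne (hle k (Finset.mem_union_left _ hk.2)) hk.1)).1
      rw [e3, mul_one]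
    · have hmS' : m ∈ S' := by
        rcases Finset.mem_union.1 hmU with h3 | h3
        · exact absurd h3 hmS
        · exact h3
      have e2 : ∏ k ∈ S, (if (y k).1 (sw (i m)) = 1 then 1 else exp (-1 : ℤ)) = 1 := by
        refine Finset.prod_eq_one fun k hk => ?_
        rw [if_pos]
        rcases (hle k (Finset.mem_union_left _ hk)).lt_or_eq with h3 | h3
        · exact (h2 k m h3).2
        · rw [h3]; exact (h1 m).2
      rw [e2, one_mul, ← Finset.mul_prod_erase _ _ hmS']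
      simp only [sw_sw]
      rw [if_neg (by rw [(h1 m).1]; exact hneg)]
      have e3 : ∏ k ∈ S'.erase m, (if (y k).1 (i m) = 1 then 1 else exp (-1 : ℤ)) = 1 := by
        refine Finset.prod_eq_one fun k hk => ?_
        rw [Finset.mem_erase] at hk
        rw [if_pos]
        exact (h2 k m (lt_of_le_of_ne (hle k (Finset.mem_union_right _ hk.2)) hk.1)).1
      rw [e3, mul_one]
  by_cases hmS : m ∈ S
  · obtain ⟨v, hv⟩ := hb.ne (i m)
    exact not_sq_exp (key _ (Or.inl ⟨rfl, hmS⟩) v hv)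
  · obtain ⟨v, hv⟩ := hb.ne (sw (i m))
    exact not_sq_exp (key _ (Or.inr ⟨rfl, hmS⟩) v hv)

end blk

variable {a b n : 𝓞 K} {c : Ideal (𝓞 K) → ℂ}

/-- **The towers.** -/
theorem main (h : IQ K σ δ) [hP : IsPrincipalIdealRing (𝓞 K)]
    (hΔ : 4 * a ^ 3 + 27 * b ^ 2 ≠ 0) (hf : BF σ δ n c)
    (hc : ∀ v : HeightOneSpectrum (𝓞 K), 2 * (4 * a ^ 3 + 27 * b ^ 2) ∉ v.asIdeal →
      n ∉ v.asIdeal ∧ c v.asIdeal = (Ideal.absNorm v.asIdeal : ℂ) - pv a b v)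
    (h0 : NVD a b n c 1)
    {M : ℕ} (hM : M ≠ 0) {Q : Set ℕ} (hQ : Q ⊆ QE h a b n) (hQi : Q.Infinite) :
    ∃ 𝒟 : Set (𝓞 K), 1 ∈ 𝒟 ∧ (∀ D ∈ 𝒟, tau h D ∈ 𝒟) ∧
      (∀ D ∈ 𝒟, ∀ D' ∈ 𝒟, ∃ D'' ∈ 𝒟, ∃ g : 𝓞 K, g ≠ 0 ∧ D'' * g ^ 2 = D * D') ∧
      (∀ D ∈ 𝒟, Squarefree D ∧ D ≠ 0 ∧ (M : 𝓞 K) ∣ D - 1 ∧
        (∀ v : HeightOneSpectrum (𝓞 K), 2 * (4 * a ^ 3 + 27 * b ^ 2) * M ∈ v.asIdeal →
          IsSquare (algebraMap K (v.adicCompletion K) D)) ∧
        (∀ v : HeightOneSpectrum (𝓞 K), D ∈ v.asIdeal → v.valuation K (D : K) = exp (-1 : ℤ) ∧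
          (∀ x : 𝓞 K, x ^ 3 + a * x + b ∉ v.asIdeal) ∧ ∃ q ∈ Q, (q : 𝓞 K) ∈ v.asIdeal) ∧
        NVD a b n c D) ∧
      ∃ D : ℕ → 𝓞 K, (∀ j, D j ∈ 𝒟) ∧ ∀ S S' : Finset ℕ, S.Nonempty ∨ S'.Nonempty →
        ¬ IsSquare ((∏ j ∈ S, (D j : K)) * ∏ j ∈ S', (tau h (D j) : K)) := by
  classical
  obtain ⟨lam, hlam, hmem2, hint⟩ := Pool.Agent.Y18.LP.exists_lam Nat.prime_two
  have hmem : (2 : integralClosure ℤ ℂ) ∈ lam := by exact_mod_cast hmem2
  set x0 : 𝓞 K := 4 * a ^ 3 + 27 * b ^ 2 with hx0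
  have hnorm : (Algebra.norm ℤ x0).natAbs ≠ 0 := by
    rw [Ne, Int.natAbs_eq_zero]
    exact Algebra.norm_ne_zero_iff.2 hΔ
  set N0 : ℕ := 8 * (M * (Algebra.norm ℤ x0).natAbs) with hN0
  have hN00 : N0 ≠ 0 := mul_ne_zero (by norm_num) (mul_ne_zero hM hnorm)
  have h8 : 8 ∣ N0 := ⟨_, rfl⟩
  have hMN : (M : 𝓞 K) ∣ (N0 : 𝓞 K) := ⟨8 * ((Algebra.norm ℤ x0).natAbs : 𝓞 K), by
    rw [hN0]; push_cast; ring⟩
  have hN' : ∀ v : HeightOneSpectrum (𝓞 K), 2 * x0 * M ∈ v.asIdeal → (N0 : 𝓞 K) ∈ v.asIdeal := by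
    intro v hv
    rcases v.isPrime.mem_or_mem hv with h1 | h1
    · rcases v.isPrime.mem_or_mem h1 with h2 | h2
      · have e : (N0 : 𝓞 K) = 2 * (4 * (M * ((Algebra.norm ℤ x0).natAbs : 𝓞 K))) := by
          rw [hN0]; push_cast; ring
        rw [e]
        exact v.asIdeal.mul_mem_right _ h2
      · have h3 : ((Algebra.norm ℤ x0 : ℤ) : 𝓞 K) ∈ v.asIdeal := by
          rw [← mul_tau h]
          exact v.asIdeal.mul_mem_right _ h2
        have h4 : (((Algebra.norm ℤ x0).natAbs : ℕ) : 𝓞 K) ∈ v.asIdeal := by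
          rcases Int.natAbs_eq (Algebra.norm ℤ x0) with h5 | h5
          · rw [h5, Int.cast_natCast] at h3
            exact h3
          · rw [h5, Int.cast_neg, Int.cast_natCast, neg_mem_iff] at h3
            exact h3
        have e : (N0 : 𝓞 K) = (((Algebra.norm ℤ x0).natAbs : ℕ) : 𝓞 K) * (8 * M) := by
          rw [hN0]; push_cast; ring
        rw [e]
        exact v.asIdeal.mul_mem_right _ h4
    · obtain ⟨w, hw⟩ := hMN
      rw [hw]
      exact v.asIdeal.mul_mem_right _ h1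
  have hN : ∀ v : HeightOneSpectrum (𝓞 K), 2 * (4 * a ^ 3 + 27 * b ^ 2) ∈ v.asIdeal →
      (N0 : 𝓞 K) ∈ v.asIdeal := fun v hv => hN' v (v.asIdeal.mul_mem_right _ hv)
  obtain ⟨B, β, hb⟩ := exists_blocks h hQ hQi hN00 h8
  have hTe : TX B (∅ : Finset (ℕ × Bool)) = ∅ := by
    ext v
    rw [mem_TX]
    simp
  have hbase : NVT n c ∅ := by
    have h1 := (hb.nv hN hc ∅).1 (by unfold DX; rw [Finset.prod_empty]; exact h0)
    rwa [hTe] at h1
  obtain ⟨G, y, i, h1, h2, h3, h4, h5⟩ := towers h hf hbase lam hlam hmem sw sw_sw sw_ne hb.disj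
    (hb.adm' hc fun m hm => by exact_mod_cast hint m hm) hb.unit
  refine ⟨{D | ∃ x ∈ G, D = DX β (su x)}, ⟨1, G.one_mem, ?_⟩, ?_, ?_, ?_,
    fun j => DX β (su (y j)), fun j => ⟨y j, h3 j, rfl⟩, hb.indep h4 h5⟩
  · unfold DX
    rw [su_one, Finset.prod_empty]
  · rintro _ ⟨x, hx, rfl⟩
    exact ⟨tw sw x, h1 x hx, hb.tau_DX x⟩
  · rintro _ ⟨x, hx, rfl⟩ _ ⟨x', hx', rfl⟩
    refine ⟨_, ⟨x * x', G.mul_mem hx hx', rfl⟩, DX β (su x ∩ su x'), hb.ne_zero _, ?_⟩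
    rw [su_mul]
    exact DX_mul _ _
  · rintro _ ⟨x, hx, rfl⟩
    refine ⟨hb.sqf _, hb.ne_zero _, dvd_trans hMN (hb.mod' _), fun v hv => hb.isSq h8 (hN' v hv),
      fun v hv => ⟨(hb.val hv).1, (hb.val hv).2, ?_⟩, (hb.nv hN hc _).2 (h2 x hx)⟩
    obtain ⟨i, _, hi⟩ := mem_TX.1 (hb.mem.1 hv)
    exact hb.adm i v hi

end Pool.Agent.K4H15.BW
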