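import Pool.Agent.K4H15.BW.Jac
import Pool.Agent.K4H55.BD.Fin

/-!
The quadratic reciprocity law in imaginary quadratic fields of class number one for primary elements.
-/

set_option autoImplicit false

namespace Pool.Agent.K4H15.BW

open NumberField IsDedekindDomain ComplexConjugate
open Pool.Agent.K4H55.BI (IQ BF NVT Adm sym chiT gen gen_span gen_dvd gen_prime gen_na gen_inj efac)
open Pool.Agent.K4H55.BD (cj tau tv sg_inj sg_cj sg_tau tau_tau tau_int mul_tau norm_nonneg' norm_eq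
  mem_tv sym_tv res_int int_mem sym_int chiT_mul sym_mul nv_cases norm_gen two_notMem uniq_over
  char_ne_two)

variable {K : Type} [Field K] [NumberField K] {σ : K →+* ℂ} {δ : K}

/-- an integral basis -/
structure Om (h : IQ K σ δ) (om : 𝓞 K) (t N : ℤ) : Prop where
  tr : om + tau h om = t
  nm : om * tau h om = N
  span : ∀ x : 𝓞 K, ∃ a b : ℤ, x = a + b * om
  ind : ∀ a b : ℤ, (a : 𝓞 K) + b * om = 0 → a = 0 ∧ b = 0
  pos : 3 ≤ 4 * N - t ^ 2

lemma add_tau (h : IQ K σ δ) (x : 𝓞 K) :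
    x + tau h x = ((Algebra.trace ℤ (𝓞 K) x : ℤ) : 𝓞 K) := by
  show x + cj x = _
  unfold cj
  simp

theorem exists_om (h : IQ K σ δ) : ∃ (om : 𝓞 K) (t N : ℤ), Om h om t N := by
  classical
  -- the imaginary parts
  let φ : 𝓞 K →+ ℝ := (Complex.imAddGroupHom).comp ((σ.comp (algebraMap (𝓞 K) K)).toAddMonoidHom)
  have hφ : ∀ x : 𝓞 K, φ x = (σ x).im := fun x => rfl
  have hsq : ∀ x : 𝓞 K, 4 * φ x ^ 2 = ((4 * Algebra.norm ℤ x - (Algebra.trace ℤ (𝓞 K) x) ^ 2 : ℤ) : ℝ) := by
    intro x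
    have h1 : σ (x + tau h x : 𝓞 K) = σ x + conj (σ x) := by
      simp only [map_add, sg_tau]
    have h2 : σ (x * tau h x : 𝓞 K) = σ x * conj (σ x) := by
      simp only [map_mul, sg_tau]
    rw [add_tau] at h1
    rw [mul_tau] at h2
    have h3 : ((Algebra.trace ℤ (𝓞 K) x : ℤ) : ℝ) = 2 * (σ x).re := by
      have h4 := congrArg Complex.re h1
      simpa [two_mul] using h4
    have h5 : ((Algebra.norm ℤ x : ℤ) : ℝ) = (σ x).re ^ 2 + (σ x).im ^ 2 := by
      have h4 := congrArg Complex.re h2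
      have h6 : (σ x * conj (σ x)).re = (σ x).re ^ 2 + (σ x).im ^ 2 := by
        simp [Complex.mul_re]
        ring
      rw [h6] at h4
      simpa using h4
    push_cast
    rw [h3, h5, hφ]
    ring
  have hlow : ∀ x : 𝓞 K, φ x ≠ 0 → (1 : ℝ) / 2 ≤ |φ x| := by
    intro x hx
    have h1 := hsq x
    have h2 : 0 < 4 * φ x ^ 2 := by positivity
    rw [h1] at h2
    have h3 : (1 : ℤ) ≤ 4 * Algebra.norm ℤ x - (Algebra.trace ℤ (𝓞 K) x) ^ 2 := by
      have : (0 : ℤ) < 4 * Algebra.norm ℤ x - (Algebra.trace ℤ (𝓞 K) x) ^ 2 := by exact_mod_cast h2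
      omega
    have h4 : (1 : ℝ) ≤ 4 * φ x ^ 2 := by
      rw [h1]
      exact_mod_cast h3
    rw [← sq_abs] at h4
    nlinarith [abs_nonneg (φ x)]
  obtain ⟨y, hy⟩ := AddSubgroup.cyclic_of_isolated_zero (H := φ.range) (a := (1 : ℝ) / 2)
    (by norm_num) (by
      rw [Set.disjoint_left]
      rintro _ ⟨x, rfl⟩ ⟨h1, h2⟩
      have h3 := hlow x (ne_of_gt h1)
      rw [abs_of_pos h1] at h3
      linarith)
  have hy' : y ∈ φ.range := by
    rw [hy]
    exact AddSubgroup.subset_closure rfl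
  obtain ⟨om, rfl⟩ := hy'
  -- a real integer is rational
  have hreal : ∀ x : 𝓞 K, φ x = 0 → ∃ a : ℤ, x = a := by
    intro x hx
    have h1 : tau h x = x := sg_inj σ (by
      rw [sg_tau]
      apply Complex.ext
      · simp
      · rw [Complex.conj_im]
        have : (σ x).im = 0 := hx
        rw [this, neg_zero])
    have h2 := add_tau h x
    have h3 := mul_tau h x
    rw [h1] at h2 h3
    have h4 : ((4 * Algebra.norm ℤ x : ℤ) : 𝓞 K) = (((Algebra.trace ℤ (𝓞 K) x) ^ 2 : ℤ) : 𝓞 K) := by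
      push_cast
      rw [← h2, ← h3]
      ring
    have h5 : 4 * Algebra.norm ℤ x = (Algebra.trace ℤ (𝓞 K) x) ^ 2 := by exact_mod_cast h4
    have h6 : (2 : ℤ) ∣ Algebra.trace ℤ (𝓞 K) x := by
      have : (2 : ℤ) ∣ (Algebra.trace ℤ (𝓞 K) x) ^ 2 := ⟨2 * Algebra.norm ℤ x, by rw [← h5]; ring⟩
      exact Int.prime_two.dvd_of_dvd_pow this
    obtain ⟨a, ha⟩ := h6
    refine ⟨a, ?_⟩
    have h7 : (2 : 𝓞 K) * x = 2 * (a : 𝓞 K) := by
      rw [two_mul, h2, ha]
      push_cast
      rfl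
    exact mul_left_cancel₀ two_ne_zero h7
  have hne : φ om ≠ 0 := by
    intro h0
    obtain ⟨x, hx⟩ := h.cplx
    apply hx
    obtain ⟨u, w, hw, hux⟩ := IsFractionRing.div_surjective (A := 𝓞 K) x
    have hall : ∀ z : 𝓞 K, conj (σ z) = σ z := by
      intro z
      have h1 : φ z ∈ φ.range := ⟨z, rfl⟩
      rw [hy, h0] at h1
      have h2 : φ z = 0 := by
        obtain ⟨m, hm⟩ := AddSubgroup.mem_closure_singleton.1 h1
        rw [← hm, smul_zero]
      apply Complex.ext
      · simp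
      · rw [Complex.conj_im]
        have : (σ z).im = 0 := h2
        rw [this, neg_zero]
    rw [← hux, map_div₀, map_div₀]
    have e1 := hall u
    have e2 := hall w
    rw [e1, e2]
  refine ⟨om, Algebra.trace ℤ (𝓞 K) om, Algebra.norm ℤ om, add_tau h om, mul_tau h om, ?_, ?_, ?_⟩
  · intro x
    have h1 : φ x ∈ φ.range := ⟨x, rfl⟩
    rw [hy] at h1
    obtain ⟨b, hb⟩ := AddSubgroup.mem_closure_singleton.1 h1
    obtain ⟨a, ha⟩ := hreal (x - (b : 𝓞 K) * om) (by
      have h2 : φ (x - (b : 𝓞 K) * om) = φ x - b • φ om := by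
        rw [map_sub, ← zsmul_eq_mul, map_zsmul]
      rw [h2, hb, sub_self])
    exact ⟨a, b, by rw [← ha]; ring⟩
  · intro a b hab
    have h1 : φ ((a : 𝓞 K) + b * om) = 0 := by rw [hab, map_zero]
    have h2 : φ ((a : 𝓞 K)) = 0 := by
      rw [hφ]
      simp
    rw [map_add, ← zsmul_eq_mul, map_zsmul, h2, zero_add, smul_eq_zero] at h1
    have hb : b = 0 := h1.resolve_right hne
    refine ⟨?_, hb⟩
    rw [hb, Int.cast_zero, zero_mul, add_zero] at hab
    exact_mod_cast hab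
  · have h1 := hsq om
    have h2 : 0 < 4 * φ om ^ 2 := by positivity
    rw [h1] at h2
    have h3 : (0 : ℤ) < 4 * Algebra.norm ℤ om - (Algebra.trace ℤ (𝓞 K) om) ^ 2 := by
      exact_mod_cast h2
    set T := Algebra.trace ℤ (𝓞 K) om
    rcases Int.even_or_odd' T with ⟨u, hu | hu⟩
    · have : T ^ 2 = 4 * u ^ 2 := by rw [hu]; ring
      omega
    · have : T ^ 2 = 4 * (u ^ 2 + u) + 1 := by rw [hu]; ring
      omega

lemma Om.norm {h : IQ K σ δ} {om : 𝓞 K} {t N : ℤ} (ho : Om h om t N) (a b : ℤ) :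
    Algebra.norm ℤ ((a : 𝓞 K) + b * om) = a ^ 2 + t * a * b + N * b ^ 2 := by
  have h1 := mul_tau h ((a : 𝓞 K) + b * om)
  rw [map_add, map_mul, tau_int, tau_int] at h1
  have h2 : ((a ^ 2 + t * a * b + N * b ^ 2 : ℤ) : 𝓞 K) =
      ((a : 𝓞 K) + b * om) * (a + b * tau h om) := by
    push_cast
    rw [← ho.tr, ← ho.nm]
    ring
  rw [← h2] at h1
  exact_mod_cast h1.symm

lemma Om.eq {h : IQ K σ δ} {om : 𝓞 K} {t N : ℤ} (ho : Om h om t N) {a b a' b' : ℤ}
    (he : (a : 𝓞 K) + b * om = a' + b' * om) : a = a' ∧ b = b' := by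
  have h1 := ho.ind (a - a') (b - b') (by
    push_cast
    linear_combination he)
  constructor <;> omega

lemma Om.dvd {h : IQ K σ δ} {om : 𝓞 K} {t N : ℤ} (ho : Om h om t N) {m a b : ℤ}
    (he : (m : 𝓞 K) ∣ (a : 𝓞 K) + b * om) : m ∣ a ∧ m ∣ b := by
  obtain ⟨x, hx⟩ := he
  obtain ⟨u, w, rfl⟩ := ho.span x
  have h1 := ho.eq (a := a) (b := b) (a' := m * u) (b' := m * w) (by
    rw [hx]
    push_cast
    ring)
  exact ⟨⟨u, h1.1⟩, ⟨w, h1.2⟩⟩

lemma sym_congr {v : HeightOneSpectrum (𝓞 K)} {x y : 𝓞 K} (h : x - y ∈ v.asIdeal) :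
    sym v x = sym v y := by
  unfold sym
  have h1 : x ∈ v.asIdeal ↔ y ∈ v.asIdeal := by
    constructor
    · intro hx
      have := v.asIdeal.sub_mem hx h
      rwa [sub_sub_cancel] at this
    · intro hy
      have := v.asIdeal.add_mem h hy
      rwa [sub_add_cancel] at this
  have h2 : (∃ z, x - z ^ 2 ∈ v.asIdeal) ↔ ∃ z, y - z ^ 2 ∈ v.asIdeal := by
    constructor
    · rintro ⟨z, hz⟩
      refine ⟨z, ?_⟩
      have := v.asIdeal.sub_mem hz h
      have e : x - z ^ 2 - (x - y) = y - z ^ 2 := by ring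
      rwa [e] at this
    · rintro ⟨z, hz⟩
      refine ⟨z, ?_⟩
      have := v.asIdeal.add_mem hz h
      have e : y - z ^ 2 + (x - y) = x - z ^ 2 := by ring
      rwa [e] at this
  by_cases h3 : x ∈ v.asIdeal
  · rw [if_pos h3, if_pos (h1.1 h3)]
  · rw [if_neg h3, if_neg fun h => h3 (h1.2 h)]
    by_cases h4 : ∃ z, x - z ^ 2 ∈ v.asIdeal
    · rw [if_pos h4, if_pos (h2.1 h4)]
    · rw [if_neg h4, if_neg fun h => h4 (h2.2 h)]

lemma sym_sq {v : HeightOneSpectrum (𝓞 K)} {x : 𝓞 K} (h : x ∉ v.asIdeal) :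
    sym v x * sym v x = 1 := by
  unfold sym
  rw [if_neg h]
  split_ifs <;> norm_num

lemma chiT_sq {T : Finset (HeightOneSpectrum (𝓞 K))} {x : 𝓞 K} (h : ∀ v ∈ T, x ∉ v.asIdeal) :
    chiT T x * chiT T x = 1 := by
  unfold chiT
  rw [← Finset.prod_mul_distrib]
  exact Finset.prod_eq_one fun v hv => sym_sq (h v hv)

/-- the Jacobi symbol for an inert prime -/
lemma sym_inert (h : IQ K σ δ) {v : HeightOneSpectrum (𝓞 K)} {p : ℕ} (hp : p.Prime) (hp2 : p ≠ 2)
    (hpv : (p : 𝓞 K) ∈ v.asIdeal) (hN : Ideal.absNorm v.asIdeal = p ^ 2) (hself : tv h v = v)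
    {x : 𝓞 K} (hx : x ∉ v.asIdeal) :
    sym v x = ((jacobiSym (Algebra.norm ℤ x) p : ℤ) : ℂ) := by
  classical
  have hpf : Fact p.Prime := ⟨hp⟩
  have h2 : (2 : 𝓞 K) ∉ v.asIdeal := two_notMem hp hp2 hpv
  have hmax : v.asIdeal.IsMaximal := v.isMaximal
  letI : Field (𝓞 K ⧸ v.asIdeal) := Ideal.Quotient.field v.asIdeal
  have hfin : Finite (𝓞 K ⧸ v.asIdeal) := Ideal.finiteQuotientOfFreeOfNeBot _ v.ne_bot
  letI : Fintype (𝓞 K ⧸ v.asIdeal) := Fintype.ofFinite _
  have hcard : Fintype.card (𝓞 K ⧸ v.asIdeal) = p ^ 2 := by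
    rw [← hN, Ideal.absNorm_apply, Submodule.cardQuot_apply, Nat.card_eq_fintype_card]
  have hchar : CharP (𝓞 K ⧸ v.asIdeal) p := by
    refine (CharP.charP_iff_prime_eq_zero hp).2 ?_
    have := (Ideal.Quotient.eq_zero_iff_mem (I := v.asIdeal)).2 hpv
    rwa [map_natCast] at this
  set π := Ideal.Quotient.mk v.asIdeal with hπ
  have hx0 : π x ≠ 0 := by rwa [Ne, Ideal.Quotient.eq_zero_iff_mem]
  -- the Frobenius is the conjugation
  have hconj : ∀ {y : 𝓞 K}, y ∈ v.asIdeal ↔ tau h y ∈ v.asIdeal := by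
    intro y
    rw [← mem_tv h, hself]
  have hfrob : π x ^ p = π (tau h x) := by
    have h3 : (π x ^ p - π x) * (π x ^ p - π (tau h x)) = 0 := by
      have h4 : π x ^ 2 - π (x + tau h x) * π x + π (x * tau h x) = 0 := by
        rw [map_add, map_mul]
        ring
      rw [add_tau, mul_tau, map_intCast, map_intCast] at h4
      have h5 := congrArg (frobenius (𝓞 K ⧸ v.asIdeal) p) h4
      simp only [map_sub, map_add, map_mul, map_pow, map_intCast, map_zero, frobenius_def] at h5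
      have h6 : ((Algebra.trace ℤ (𝓞 K) x : ℤ) : 𝓞 K ⧸ v.asIdeal) = π x + π (tau h x) := by
        rw [← map_add, add_tau, map_intCast]
      have h7 : ((Algebra.norm ℤ x : ℤ) : 𝓞 K ⧸ v.asIdeal) = π x * π (tau h x) := by
        rw [← map_mul, mul_tau, map_intCast]
      rw [h6, h7] at h5
      linear_combination h5
    rcases mul_eq_zero.1 h3 with h4 | h4
    · -- `x` is in the prime field
      have h5 : π x ^ p = π x := sub_eq_zero.1 h4
      obtain ⟨m, hm⟩ : ∃ m : ZMod p, (ZMod.castHom (dvd_refl p) (𝓞 K ⧸ v.asIdeal)) m = π x := by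
        by_contra hcon
        push Not at hcon
        have hroots : ∀ y : 𝓞 K ⧸ v.asIdeal, y ^ p = y →
            y ∈ (Polynomial.X ^ p - Polynomial.X : Polynomial (𝓞 K ⧸ v.asIdeal)).roots.toFinset := by
          intro y hy
          rw [Multiset.mem_toFinset, Polynomial.mem_roots
            (FiniteField.X_pow_card_sub_X_ne_zero _ hp.one_lt)]
          simp [hy]
        have hinj : Function.Injective (ZMod.castHom (dvd_refl p) (𝓞 K ⧸ v.asIdeal)) :=
          (ZMod.castHom (dvd_refl p) (𝓞 K ⧸ v.asIdeal)).injective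
        have hsub : insert (π x) (Finset.univ.image
            (ZMod.castHom (dvd_refl p) (𝓞 K ⧸ v.asIdeal))) ⊆
            (Polynomial.X ^ p - Polynomial.X : Polynomial (𝓞 K ⧸ v.asIdeal)).roots.toFinset := by
          intro y hy
          rcases Finset.mem_insert.1 hy with rfl | hy
          · exact hroots _ h5
          · obtain ⟨m, -, rfl⟩ := Finset.mem_image.1 hy
            apply hroots
            rw [← map_pow, ZMod.pow_card]
        have h6 := Finset.card_le_card hsub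
        rw [Finset.card_insert_of_notMem (by
          intro hmem
          obtain ⟨m, -, hm⟩ := Finset.mem_image.1 hmem
          exact hcon m hm), Finset.card_image_of_injective _ hinj, Finset.card_univ,
          ZMod.card] at h6
        have h7 := (Multiset.toFinset_card_le
          (Polynomial.X ^ p - Polynomial.X : Polynomial (𝓞 K ⧸ v.asIdeal)).roots).trans
          (Polynomial.card_roots' _)
        rw [FiniteField.X_pow_card_sub_X_natDegree_eq _ hp.one_lt] at h7
        omega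
      have h6 : π x = π ((m.val : ℤ) : 𝓞 K) := by
        rw [← hm, map_intCast, ZMod.castHom_apply, ZMod.cast_eq_val]
        simp
      have h7 : x - ((m.val : ℤ) : 𝓞 K) ∈ v.asIdeal := by
        rw [← Ideal.Quotient.eq_zero_iff_mem, map_sub]
        exact sub_eq_zero.2 h6
      have h8 := hconj.1 h7
      rw [map_sub, tau_int] at h8
      have h9 : π (tau h x) = π ((m.val : ℤ) : 𝓞 K) := by
        rw [← sub_eq_zero, ← map_sub, Ideal.Quotient.eq_zero_iff_mem]
        exact h8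
      rw [h5, h6, h9]
    · exact sub_eq_zero.1 h4
  -- Euler's criterion
  obtain ⟨k, hk⟩ := hp.odd_of_ne_two hp2
  have hpow : π x ^ (p ^ 2 / 2) = ((jacobiSym (Algebra.norm ℤ x) p : ℤ) : 𝓞 K ⧸ v.asIdeal) := by
    have h4 : p ^ 2 / 2 = (p + 1) * (p / 2) := by
      have h5 : p ^ 2 = 2 * ((p + 1) * k) + 1 := by
        rw [hk]
        ring
      have h6 : p / 2 = k := by omega
      rw [h6]
      omega
    have h5 : π x ^ (p + 1) = ((Algebra.norm ℤ x : ℤ) : 𝓞 K ⧸ v.asIdeal) := by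
      rw [pow_succ, hfrob, mul_comm, ← map_mul, mul_tau, map_intCast]
    rw [h4, pow_mul, h5, ← jacobiSym.legendreSym.to_jacobiSym]
    have h6 := legendreSym.eq_pow p (Algebra.norm ℤ x)
    have h7 := congrArg (ZMod.castHom (dvd_refl p) (𝓞 K ⧸ v.asIdeal)) h6
    rw [map_pow, map_intCast, map_intCast] at h7
    exact h7.symm
  have hJ : jacobiSym (Algebra.norm ℤ x) p = 1 ∨ jacobiSym (Algebra.norm ℤ x) p = -1 := by
    apply jac_ne
    have h4 : ¬ (p : ℤ) ∣ Algebra.norm ℤ x := by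
      intro h5
      have h6 : ((Algebra.norm ℤ x : ℤ) : 𝓞 K) ∈ v.asIdeal := (int_mem hp hpv).2 h5
      rw [← mul_tau h] at h6
      rcases v.isPrime.mem_or_mem h6 with h7 | h7
      · exact hx h7
      · exact hx (hconj.2 h7)
    exact ((Int.prime_iff_natAbs_prime.2 (by simpa using hp)).coprime_iff_not_dvd.2 h4).symm
  have hsq : IsSquare (π x) ↔ jacobiSym (Algebra.norm ℤ x) p = 1 := by
    rw [FiniteField.isSquare_iff (char_ne_two h2) hx0, hcard, hpow]
    rcases hJ with h4 | h4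
    · rw [h4]; simp
    · rw [h4]
      constructor
      · intro h5
        exfalso
        apply h2
        rw [← Ideal.Quotient.eq_zero_iff_mem]
        push_cast at h5
        have h6 : (2 : 𝓞 K ⧸ v.asIdeal) = 0 := by linear_combination -h5
        rw [map_ofNat]
        exact h6
      · intro h5
        norm_num at h5
  have hex : (∃ y, x - y ^ 2 ∈ v.asIdeal) ↔ IsSquare (π x) := by
    constructor
    · rintro ⟨y, hy⟩
      refine ⟨π y, ?_⟩
      rw [← Ideal.Quotient.eq_zero_iff_mem, map_sub, map_pow, sub_eq_zero] at hy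
      rw [hy, sq]
    · rintro ⟨z, hz⟩
      obtain ⟨y, rfl⟩ := Ideal.Quotient.mk_surjective z
      refine ⟨y, ?_⟩
      rw [← Ideal.Quotient.eq_zero_iff_mem, map_sub, map_pow, sq]
      exact sub_eq_zero.2 hz
  unfold sym
  rw [if_neg hx]
  rcases hJ with h4 | h4
  · rw [if_pos (hex.2 (hsq.2 h4)), h4]
    simp
  · rw [if_neg fun h5 => by
      have := hsq.1 (hex.1 h5)
      rw [this] at h4
      norm_num at h4, h4]
    simp

end Pool.Agent.K4H15.BW
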