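import Pool.Agent.K4H15.BW.Blk
import Pool.Agent.K4H15.BW.Bi

/-!
The twists by the products of the blocks.
-/

set_option autoImplicit false

namespace Pool.Agent.K4H15.BW

open NumberField IsDedekindDomain ComplexConjugate Filter Topology WithZero
open Pool.Agent.K4H55.BI (IQ BF NVT Adm sym chiT gen gen_span gen_dvd gen_prime gen_na gen_inj efac NT
  nv_pos)
open Pool.Agent.K4H55.BD (cj tau tv sg_inj sg_cj sg_tau tau_tau tau_int mul_tau norm_nonneg' norm_eq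
  mem_tv sym_tv res_int int_mem sym_int chiT_mul sym_mul nv_cases norm_gen two_notMem uniq_over
  char_ne_two QE Ro densK bad_fin exists_over tv_ne mem_tv_nat pv pv_twist val_q QE_sub QA)
open Pool.Agent.Y682 (vv vv_coe exists_sqrt exists_sqrt')

variable {K : Type} [Field K] [NumberField K] {σ : K →+* ℂ} {δ : K}

/-- elements congruent to `1` modulo `8` are squares at the places over `2` -/
lemma sq_eight (v : HeightOneSpectrum (𝓞 K)) (hv : (2 : 𝓞 K) ∈ v.asIdeal) {D : 𝓞 K}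
    (h : (8 : 𝓞 K) ∣ D - 1) : IsSquare (algebraMap K (v.adicCompletion K) D) := by
  obtain ⟨m, hm⟩ := h
  have hD : D = 1 + 8 * m := by rw [← hm]; ring
  have h2 : vv v 2 < 1 := by
    have h3 := (HeightOneSpectrum.valuation_lt_one_iff_mem (K := K) v 2).2 hv
    rw [← vv_coe] at h3
    have h4 : algebraMap K (v.adicCompletion K) (algebraMap (𝓞 K) K 2) = 2 := by
      rw [map_ofNat, map_ofNat]
    rwa [h4] at h3
  have h40 : vv v 4 ≠ 0 := by
    rw [Valuation.ne_zero_iff]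
    have : (4 : K) ≠ 0 := by norm_num
    have h5 := (map_ne_zero (algebraMap K (v.adicCompletion K))).2 this
    rwa [map_ofNat] at h5
  have hm1 : vv v (algebraMap K (v.adicCompletion K) (m : K)) ≤ 1 := by
    rw [vv_coe]
    exact v.valuation_le_one (K := K) m
  obtain ⟨y, hy⟩ := exists_sqrt v (4 * (2 * algebraMap K (v.adicCompletion K) (m : K))) (by
    rw [map_mul]
    refine mul_lt_of_lt_one_right (zero_lt_iff.2 h40) ?_
    rw [map_mul]
    exact mul_lt_one_of_lt_of_le h2 hm1)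
  refine ⟨y, ?_⟩
  rw [← sq, hy, hD]
  simp only [map_add, map_mul, map_one, map_ofNat]
  ring

lemma sq_odd' (v : HeightOneSpectrum (𝓞 K)) (hv : (2 : 𝓞 K) ∉ v.asIdeal) {D : 𝓞 K}
    (h : D - 1 ∈ v.asIdeal) : IsSquare (algebraMap K (v.adicCompletion K) D) := by
  have h4 : vv v 4 = 1 := by
    have h5 : (4 : 𝓞 K) ∉ v.asIdeal := by
      intro h6
      have h7 : (2 : 𝓞 K) * 2 ∈ v.asIdeal := by norm_num; exact h6
      rcases v.isPrime.mem_or_mem h7 with h8 | h8 <;> exact hv h8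
    have h6 := (HeightOneSpectrum.valuation_eq_one_iff_notMem (K := K) v).2 h5
    rw [← vv_coe] at h6
    have h7 : algebraMap K (v.adicCompletion K) (algebraMap (𝓞 K) K 4) = 4 := by
      rw [map_ofNat, map_ofNat]
    rwa [h7] at h6
  obtain ⟨z, hz⟩ := exists_sqrt' v (x := algebraMap K (v.adicCompletion K) (D : K)) (y := 1)
    one_ne_zero (by
    have h5 := (HeightOneSpectrum.valuation_lt_one_iff_mem (K := K) v _).2 h
    rw [← vv_coe] at h5
    have e : algebraMap K (v.adicCompletion K) (D : K) - 1 ^ 2 =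
        algebraMap K (v.adicCompletion K) (algebraMap (𝓞 K) K (D - 1)) := by
      simp only [map_sub, map_one, one_pow]
    rw [e, h4, map_one, one_pow, one_mul]
    exact h5)
  exact ⟨z, by rw [← sq, hz]⟩

open Classical in
/-- the Euler factors of the twist -/
noncomputable def efD (a b n : 𝓞 K) (c : Ideal (𝓞 K) → ℂ) (D : 𝓞 K) (s : ℂ)
    (v : HeightOneSpectrum (𝓞 K)) : ℂ :=
  if 2 * (4 * a ^ 3 + 27 * b ^ 2) ∈ v.asIdeal then
    (1 - c v.asIdeal * (Ideal.absNorm v.asIdeal : ℂ) ^ (-s) +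
      (if n ∈ v.asIdeal then 0 else (Ideal.absNorm v.asIdeal : ℂ) ^ (1 - 2 * s)))⁻¹
  else if D ∈ v.asIdeal then 1
  else (1 - ((Ideal.absNorm v.asIdeal : ℂ) - pv (a * D ^ 2) (b * D ^ 3) v) *
    (Ideal.absNorm v.asIdeal : ℂ) ^ (-s) + (Ideal.absNorm v.asIdeal : ℂ) ^ (1 - 2 * s))⁻¹

/-- the nonvanishing of the `L`-function of the twist -/
def NVD (a b n : 𝓞 K) (c : Ideal (𝓞 K) → ℂ) (D : 𝓞 K) : Prop :=
  ∃ G : ℂ → ℂ, Differentiable ℂ G ∧ (∀ s : ℂ, 2 < s.re → HasProd (efD a b n c D s) (G s)) ∧ G 1 ≠ 0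

/-- the product of the blocks -/
noncomputable def DX (β : ℕ × Bool → 𝓞 K) (X : Finset (ℕ × Bool)) : 𝓞 K := ∏ i ∈ X, β i

section blk

variable {h : IQ K σ δ} {a b n : 𝓞 K} {Q : Set ℕ} {N0 : ℕ}
  {B : ℕ × Bool → Finset (HeightOneSpectrum (𝓞 K))} {β : ℕ × Bool → 𝓞 K}

lemma Blk.mod' (hb : Blk h a b n Q N0 B β) (X : Finset (ℕ × Bool)) :
    (N0 : 𝓞 K) ∣ DX β X - 1 := by
  classical
  rw [← Ideal.mem_span_singleton, ← Ideal.Quotient.eq_zero_iff_mem, map_sub, map_one, sub_eq_zero]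
  unfold DX
  rw [map_prod]
  refine Finset.prod_eq_one fun i _ => ?_
  have h1 := hb.mod i
  rw [← Ideal.mem_span_singleton, ← Ideal.Quotient.eq_zero_iff_mem, map_sub, map_one,
    sub_eq_zero] at h1
  exact h1

lemma Blk.mem (hb : Blk h a b n Q N0 B β) {X : Finset (ℕ × Bool)} {v : HeightOneSpectrum (𝓞 K)} :
    DX β X ∈ v.asIdeal ↔ v ∈ TX B X := by
  unfold DX
  rw [v.isPrime.prod_mem_iff, mem_TX]
  exact exists_congr fun i => and_congr_right fun _ => (hb.one i).mem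

lemma Blk.span (hb : Blk h a b n Q N0 B β) (X : Finset (ℕ × Bool)) :
    Ideal.span {DX β X} = ∏ v ∈ TX B X, v.asIdeal := by
  classical
  unfold DX TX
  rw [Finset.prod_biUnion, ← Ideal.prod_span_singleton]
  · exact Finset.prod_congr rfl fun i _ => (hb.one i).span
  · intro i _ j _ hne
    rw [Function.onFun, Finset.disjoint_left]
    intro v hv hv'
    exact hne (hb.disj i j v hv hv')

lemma Blk.notSq (hb : Blk h a b n Q N0 B β) (X : Finset (ℕ × Bool)) (v : HeightOneSpectrum (𝓞 K)) :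
    DX β X ∉ v.asIdeal ^ 2 := by
  classical
  intro hm
  have hv : v ∈ TX B X := hb.mem.1 (Ideal.pow_le_self two_ne_zero hm)
  have h1 : v.asIdeal ^ 2 ∣ ∏ w ∈ TX B X, w.asIdeal := by
    rw [← hb.span]
    exact Ideal.dvd_span_singleton.2 hm
  rw [← Finset.mul_prod_erase _ _ hv, sq] at h1
  have h2 : v.asIdeal ∣ ∏ w ∈ (TX B X).erase v, w.asIdeal :=
    (mul_dvd_mul_iff_left v.ne_bot).1 h1
  obtain ⟨w, hw, h3⟩ := (v.isPrime.prod_le).1 (Ideal.dvd_iff_le.1 h2)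
  have h4 : w.asIdeal = v.asIdeal := w.isMaximal.eq_of_le v.isPrime.ne_top h3
  exact (Finset.mem_erase.1 hw).1 (HeightOneSpectrum.ext h4)

lemma Blk.ne_zero (hb : Blk h a b n Q N0 B β) (X : Finset (ℕ × Bool)) : DX β X ≠ 0 := by
  intro h0
  obtain ⟨v, hv⟩ := hb.ne (0, false)
  exact hb.notSq X v (by rw [h0]; exact Ideal.zero_mem _)

lemma Blk.sqf (hb : Blk h a b n Q N0 B β) (X : Finset (ℕ × Bool)) : Squarefree (DX β X) := by
  have := h.pid
  intro x hx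
  by_contra hu
  have hx0 : x ≠ 0 := by
    rintro rfl
    rw [zero_mul, zero_dvd_iff] at hx
    exact hb.ne_zero X hx
  obtain ⟨v, hv⟩ := Pool.Agent.K4H55.BI.gen_cov hx0 hu
  apply hb.notSq X v
  obtain ⟨y, hy⟩ := hx
  rw [hy, sq]
  exact Ideal.mul_mem_right _ _ (Ideal.mul_mem_mul (gen_dvd.1 hv) (gen_dvd.1 hv))

lemma Blk.two (hb : Blk h a b n Q N0 B β) (X : Finset (ℕ × Bool)) :
    ∀ v ∈ TX B X, (2 : 𝓞 K) ∉ v.asIdeal := by
  intro v hv
  obtain ⟨i, _, hv⟩ := mem_TX.1 hv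
  exact (hb.one i).two v hv

lemma Blk.eight (hb : Blk h a b n Q N0 B β) (h8 : 8 ∣ N0) (X : Finset (ℕ × Bool)) :
    (8 : 𝓞 K) ∣ DX β X - 1 := by
  refine dvd_trans ?_ (hb.mod' X)
  obtain ⟨w, rfl⟩ := h8
  exact ⟨(w : 𝓞 K), by push_cast; rfl⟩

/-- reciprocity -/
lemma Blk.recip (hb : Blk h a b n Q N0 B β) {X : Finset (ℕ × Bool)} {v : HeightOneSpectrum (𝓞 K)}
    (hv2 : (2 : 𝓞 K) ∉ v.asIdeal) (hvT : v ∉ TX B X) :
    sym v (DX β X) = chiT (TX B X) (gen (hP := h.pid) v) := by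
  classical
  have hall : ∀ Y : Finset (ℕ × Bool), Y ⊆ X → sym v (DX β Y) = ∏ i ∈ Y, sym v (β i) := by
    intro Y
    induction Y using Finset.induction_on with
    | empty =>
      intro _
      unfold DX sym
      rw [Finset.prod_empty, Finset.prod_empty, if_neg fun h1 =>
        v.isPrime.ne_top ((Ideal.eq_top_iff_one _).2 h1), if_pos ⟨1, by simp⟩]
    | insert i Y hi ih =>
      intro hsub
      have h1 : DX β (insert i Y) = β i * DX β Y := by
        unfold DX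
        rw [Finset.prod_insert hi]
      rw [h1, sym_mul h hv2, Finset.prod_insert hi, ih (fun j hj => hsub (Finset.mem_insert_of_mem hj))]
  rw [hall X (le_refl _), TX_chi hb.disj]
  refine Finset.prod_congr rfl fun i hi => ?_
  exact (hb.one i).recip h hv2 fun hv => hvT (mem_TX.2 ⟨i, hi, hv⟩)

lemma Blk.unit (hb : Blk h a b n Q N0 B β) (i : ℕ × Bool) (u : 𝓞 K) (hu : IsUnit u) :
    chiT (B i) u = 1 := (hb.one i).unit h hu

/-- the symbol at the bad places -/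
lemma Blk.bad (hb : Blk h a b n Q N0 B β) {X : Finset (ℕ × Bool)} {v : HeightOneSpectrum (𝓞 K)}
    (hv : (N0 : 𝓞 K) ∈ v.asIdeal) : chiT (TX B X) (gen (hP := h.pid) v) = 1 := by
  by_cases h2 : (2 : 𝓞 K) ∈ v.asIdeal
  · rw [TX_chi hb.disj]
    exact Finset.prod_eq_one fun i _ => (hb.one i).at_two h h2
  · have h1 : DX β X - 1 ∈ v.asIdeal := by
      obtain ⟨y, hy⟩ := hb.mod' X
      rw [hy]
      exact v.asIdeal.mul_mem_right _ hv
    have h3 : v ∉ TX B X := by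
      intro hv'
      have h4 := v.asIdeal.sub_mem (hb.mem.2 hv') h1
      rw [sub_sub_cancel] at h4
      exact v.isPrime.ne_top ((Ideal.eq_top_iff_one _).2 h4)
    rw [← hb.recip h2 h3, sym_congr h1]
    unfold sym
    rw [if_neg fun h1 => v.isPrime.ne_top ((Ideal.eq_top_iff_one _).2 h1), if_pos ⟨1, by simp⟩]

/-- squares at the bad places -/
lemma Blk.isSq (hb : Blk h a b n Q N0 B β) (h8 : 8 ∣ N0) {X : Finset (ℕ × Bool)}
    {v : HeightOneSpectrum (𝓞 K)} (hv : (N0 : 𝓞 K) ∈ v.asIdeal) :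
    IsSquare (algebraMap K (v.adicCompletion K) (DX β X)) := by
  by_cases h2 : (2 : 𝓞 K) ∈ v.asIdeal
  · exact sq_eight v h2 (hb.eight h8 X)
  · refine sq_odd' v h2 ?_
    obtain ⟨y, hy⟩ := hb.mod' X
    rw [hy]
    exact v.asIdeal.mul_mem_right _ hv

theorem Blk.ef_eq [hP : IsPrincipalIdealRing (𝓞 K)] (hb : Blk h a b n Q N0 B β)
    (hN : ∀ v : HeightOneSpectrum (𝓞 K), 2 * (4 * a ^ 3 + 27 * b ^ 2) ∈ v.asIdeal →
      (N0 : 𝓞 K) ∈ v.asIdeal)
    {c : Ideal (𝓞 K) → ℂ}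
    (hc : ∀ v : HeightOneSpectrum (𝓞 K), 2 * (4 * a ^ 3 + 27 * b ^ 2) ∉ v.asIdeal →
      n ∉ v.asIdeal ∧ c v.asIdeal = (Ideal.absNorm v.asIdeal : ℂ) - pv a b v)
    (X : Finset (ℕ × Bool)) (s : ℂ) (v : HeightOneSpectrum (𝓞 K)) :
    efD a b n c (DX β X) s v = efac n c (TX B X) s v := by
  classical
  unfold efD efac
  by_cases h1 : 2 * (4 * a ^ 3 + 27 * b ^ 2) ∈ v.asIdeal
  · rw [if_pos h1, hb.bad (hN v h1), mul_one, one_pow, one_mul]
  · rw [if_neg h1]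
    by_cases h2 : DX β X ∈ v.asIdeal
    · rw [if_pos h2]
      have h4 : chiT (TX B X) (gen v) = 0 := by
        unfold chiT
        refine Finset.prod_eq_zero (hb.mem.1 h2) ?_
        unfold sym
        rw [if_pos (gen_dvd.1 (dvd_refl (gen v)))]
      rw [h4]
      simp
    · rw [if_neg h2]
      have h3 : v ∉ TX B X := fun h4 => h2 (hb.mem.2 h4)
      have h2v : (2 : 𝓞 K) ∉ v.asIdeal := fun h4 => h1 (Ideal.mul_mem_right _ _ h4)
      have h4 := hb.recip h2v h3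
      have h5 : sym v (DX β X) ^ 2 = 1 := by rw [sq]; exact sym_sq h2
      rw [← h4, h5, one_mul, if_neg (hc v h1).1, (hc v h1).2, pv_twist h2v a b h2]
      ring_nf

theorem Blk.nv [hP : IsPrincipalIdealRing (𝓞 K)] (hb : Blk h a b n Q N0 B β)
    (hN : ∀ v : HeightOneSpectrum (𝓞 K), 2 * (4 * a ^ 3 + 27 * b ^ 2) ∈ v.asIdeal →
      (N0 : 𝓞 K) ∈ v.asIdeal)
    {c : Ideal (𝓞 K) → ℂ}
    (hc : ∀ v : HeightOneSpectrum (𝓞 K), 2 * (4 * a ^ 3 + 27 * b ^ 2) ∉ v.asIdeal →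
      n ∉ v.asIdeal ∧ c v.asIdeal = (Ideal.absNorm v.asIdeal : ℂ) - pv a b v)
    (X : Finset (ℕ × Bool)) : NVD a b n c (DX β X) ↔ NVT n c (TX B X) := by
  have h1 : ∀ s, efD a b n c (DX β X) s = efac n c (TX B X) s := fun s =>
    funext fun v => hb.ef_eq hN hc X s v
  unfold NVD NVT
  simp only [h1]

theorem Blk.adm' (hb : Blk h a b n Q N0 B β) {c : Ideal (𝓞 K) → ℂ}
    (hc : ∀ v : HeightOneSpectrum (𝓞 K), 2 * (4 * a ^ 3 + 27 * b ^ 2) ∉ v.asIdeal →
      n ∉ v.asIdeal ∧ c v.asIdeal = (Ideal.absNorm v.asIdeal : ℂ) - pv a b v)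
    {lam : Ideal (integralClosure ℤ ℂ)}
    (hint : ∀ m : ℤ, (m : integralClosure ℤ ℂ) ∈ lam → (2 : ℤ) ∣ m) (i : ℕ × Bool) :
    ∀ v ∈ B i, v ∈ Adm (fun _ : Unit => n) (fun _ => c) lam := by
  intro v hv
  obtain ⟨q, hq, hqv⟩ := hb.adm i v hv
  exact (QE_sub h hc hint (hb.sub hq)).2 v hqv

/-- the valuation and the roots at the places of `D` -/
theorem Blk.val (hb : Blk h a b n Q N0 B β) {X : Finset (ℕ × Bool)} {v : HeightOneSpectrum (𝓞 K)}
    (hv : DX β X ∈ v.asIdeal) : v.valuation K (DX β X : K) = exp (-1 : ℤ) ∧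
      ∀ x : 𝓞 K, x ^ 3 + a * x + b ∉ v.asIdeal := by
  refine ⟨val_q hv (hb.notSq X v), ?_⟩
  obtain ⟨i, _, hi⟩ := mem_TX.1 (hb.mem.1 hv)
  obtain ⟨q, hq, hqv⟩ := hb.adm i v hi
  exact ((hb.sub hq).2 v hqv).2.2

end blk

end Pool.Agent.K4H15.BW
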